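import Pool.Agent.H99E.Defs

set_option autoImplicit false

namespace Pool.Agent.H99E

open MeasureTheory Matrix

private theorem sq_even (a : ℤ) : ∃ t : ℤ, (2 * a) ^ 2 = 4 * a + 8 * t := by
  obtain ⟨t, ht⟩ := Int.even_mul_pred_self a
  exact ⟨t, by linear_combination 4 * ht⟩

private theorem sq_odd (a : ℤ) : ∃ t : ℤ, (2 * a + 1) ^ 2 = 8 * t + 1 := by
  obtain ⟨t, ht⟩ := Int.even_mul_succ_self a
  exact ⟨t, by linear_combination 4 * ht⟩

private theorem norm_eq (k : Fin 8 → ℤ) :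
    hv k ⬝ᵥ hv k = ((∑ i, k i ^ 2 : ℤ) : ℝ) / 4 := by
  simp only [dotProduct, hv, Int.cast_sum, Int.cast_pow, Finset.sum_div]
  exact Finset.sum_congr rfl fun i _ => by ring

private theorem sq_sum {k : Fin 8 → ℤ} (hk : InE k) : (∑ i, k i ^ 2) % 8 = 0 := by
  obtain ⟨h1, h2⟩ := hk
  rcases Int.emod_two_eq_zero_or_one (k 0) with h0 | h0
  · have ha : ∀ i, ∃ a : ℤ, k i = 2 * a := fun i => ⟨k i / 2, by have := h1 i; omega⟩
    choose a ha using ha
    choose t ht using fun i => sq_even (a i)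
    have hs : ∑ i, k i ^ 2 = 4 * ∑ i, a i + 8 * ∑ i, t i := by
      rw [Finset.mul_sum, Finset.mul_sum, ← Finset.sum_add_distrib]
      exact Finset.sum_congr rfl fun i _ => by rw [ha i, ht i]
    have hk : ∑ i, k i = 2 * ∑ i, a i := by
      rw [Finset.mul_sum]
      exact Finset.sum_congr rfl fun i _ => ha i
    omega
  · have ha : ∀ i, ∃ a : ℤ, k i = 2 * a + 1 := fun i => ⟨k i / 2, by have := h1 i; omega⟩
    choose a ha using ha
    choose t ht using fun i => sq_odd (a i)
    have hs : ∑ i, k i ^ 2 = 8 * ∑ i, t i + 8 := by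
      have : ∑ i, k i ^ 2 = ∑ i, (8 * t i + 1) :=
        Finset.sum_congr rfl fun i _ => by rw [ha i, ht i]
      rw [this, Finset.sum_add_distrib, ← Finset.mul_sum]
      simp
    omega

theorem hv_even {k : Fin 8 → ℤ} (hk : InE k) : ∃ m : ℕ, hv k ⬝ᵥ hv k = 2 * (m : ℝ) := by
  have h := sq_sum hk
  have h0 : 0 ≤ ∑ i, k i ^ 2 := Finset.sum_nonneg fun i _ => sq_nonneg _
  refine ⟨((∑ i, k i ^ 2) / 8).toNat, ?_⟩
  have h1 : (((∑ i, k i ^ 2) / 8).toNat : ℤ) = (∑ i, k i ^ 2) / 8 :=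
    Int.toNat_of_nonneg (by omega)
  have h2 : (∑ i, k i ^ 2) = 8 * (((∑ i, k i ^ 2) / 8).toNat : ℤ) := by omega
  have h3 : ((∑ i, k i ^ 2 : ℤ) : ℝ) = 8 * ((((∑ i, k i ^ 2) / 8).toNat : ℕ) : ℝ) := by
    exact_mod_cast h2
  rw [norm_eq, h3]
  ring

theorem InE_add {k l : Fin 8 → ℤ} (hk : InE k) (hl : InE l) : InE (k + l) := by
  refine ⟨fun i => ?_, ?_⟩
  · have h1 := hk.1 i
    have h2 := hl.1 i
    simp only [Pi.add_apply]
    omega
  · have h1 := hk.2
    have h2 := hl.2
    simp only [Pi.add_apply, Finset.sum_add_distrib]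
    omega

theorem InE_neg {k : Fin 8 → ℤ} (hk : InE k) : InE (-k) := by
  refine ⟨fun i => ?_, ?_⟩
  · have h1 := hk.1 i
    simp only [Pi.neg_apply]
    omega
  · have h1 := hk.2
    simp only [Pi.neg_apply, Finset.sum_neg_distrib]
    omega

theorem hv_int {k l : Fin 8 → ℤ} (hk : InE k) (hl : InE l) :
    ∃ m : ℤ, hv k ⬝ᵥ hv l = (m : ℝ) := by
  obtain ⟨a, ha⟩ := hv_even hk
  obtain ⟨b, hb⟩ := hv_even hl
  obtain ⟨c, hc⟩ := hv_even (InE_add hk hl)
  refine ⟨(c : ℤ) - a - b, ?_⟩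
  have h1 : hv (k + l) = hv k + hv l := by
    funext i
    simp [hv, add_div]
  rw [h1, add_dotProduct, dotProduct_add, dotProduct_add, dotProduct_comm (hv l) (hv k)] at hc
  push_cast
  linarith

/-- the roots are the vectors of norm 2 -/
theorem mem_Rf {k : Fin 8 → ℤ} : k ∈ Rf ↔ InE k ∧ hv k ⬝ᵥ hv k = 2 := by
  have hn : hv k ⬝ᵥ hv k = 2 ↔ ∑ i, k i ^ 2 = 8 := by
    rw [norm_eq]
    constructor
    · intro h
      have : ((∑ i, k i ^ 2 : ℤ) : ℝ) = ((8 : ℤ) : ℝ) := by
        push_cast at h ⊢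
        linarith
      exact_mod_cast this
    · intro h
      rw [h]
      norm_num
  rw [hn]
  simp only [Rf, Finset.mem_union, Finset.mem_filter, Fintype.mem_piFinset, Finset.mem_insert,
    Finset.mem_singleton]
  constructor
  · rintro (⟨h1, h2⟩ | ⟨h1, h2⟩)
    · refine ⟨⟨fun i => ?_, h2⟩, ?_⟩
      · rcases h1 i with h | h <;> rcases h1 0 with h' | h' <;> rw [h, h'] <;> norm_num
      · have : ∑ i, k i ^ 2 = ∑ _i : Fin 8, (1 : ℤ) :=
          Finset.sum_congr rfl fun i _ => by rcases h1 i with h | h <;> rw [h] <;> norm_num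
        rw [this]
        simp
    · refine ⟨⟨fun i => ?_, ?_⟩, h2⟩
      · rcases h1 i with h | h | h <;> rcases h1 0 with h' | h' | h' <;> rw [h, h'] <;> norm_num
      · have ha : ∀ i, ∃ a : ℤ, k i = 2 * a := fun i => ⟨k i / 2, by
          rcases h1 i with h | h | h <;> rw [h] <;> norm_num⟩
        choose a ha using ha
        choose t ht using fun i => sq_even (a i)
        have hs : ∑ i, k i ^ 2 = 4 * ∑ i, a i + 8 * ∑ i, t i := by
          rw [Finset.mul_sum, Finset.mul_sum, ← Finset.sum_add_distrib]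
          exact Finset.sum_congr rfl fun i _ => by rw [ha i, ht i]
        have hk : ∑ i, k i = 2 * ∑ i, a i := by
          rw [Finset.mul_sum]
          exact Finset.sum_congr rfl fun i _ => ha i
        omega
  · rintro ⟨⟨h1, h2⟩, h3⟩
    rcases Int.emod_two_eq_zero_or_one (k 0) with h0 | h0
    · right
      refine ⟨fun i => ?_, h3⟩
      have h4 : k i ^ 2 ≤ 8 := by
        rw [← h3]
        exact Finset.single_le_sum (f := fun i => k i ^ 2) (fun j _ => sq_nonneg _)
          (Finset.mem_univ i)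
      have h5 : k i < 3 := by nlinarith
      have h6 : -3 < k i := by nlinarith
      have h7 := h1 i
      omega
    · left
      refine ⟨fun i => ?_, h2⟩
      have hone : ∀ j, 1 ≤ k j ^ 2 := fun j => by
        have h7 := h1 j
        have h8 : k j ≠ 0 := by omega
        have := sq_nonneg (k j)
        have : k j ^ 2 ≠ 0 := pow_ne_zero 2 h8
        omega
      have h4 : k i ^ 2 ≤ 1 := by
        have h5 : ∑ j, (k j ^ 2 - 1) = 0 := by
          rw [Finset.sum_sub_distrib, h3]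
          simp
        have h6 : k i ^ 2 - 1 ≤ ∑ j, (k j ^ 2 - 1) :=
          Finset.single_le_sum (f := fun j => k j ^ 2 - 1)
            (fun j _ => by have := hone j; omega) (Finset.mem_univ i)
        omega
      have h5 : k i < 2 := by nlinarith
      have h6 : -2 < k i := by nlinarith
      have h7 := h1 i
      omega

end Pool.Agent.H99E
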