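import Pool.Agent.H99E.Defs

/-! # The Voronoi cell of `E8` lies in the unit ball (helper76) -/

set_option autoImplicit false

namespace Pool.Agent.H99E

open MeasureTheory Matrix Filter Topology

private theorem root_odd {k : Fin 8 → ℤ} (h1 : ∀ i, k i = -1 ∨ k i = 1) (h2 : (∑ i, k i) % 4 = 0) :
    k ∈ Rf := by
  refine Finset.mem_union_left _ (Finset.mem_filter.2 ⟨Fintype.mem_piFinset.2 fun i => ?_, h2⟩)
  rcases h1 i with h | h <;> simp [h]

private theorem root_even {i j : Fin 8} (hij : i ≠ j) {a b : ℤ} (ha : a = -1 ∨ a = 1)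
    (hb : b = -1 ∨ b = 1) : (Pi.single i (2 * a) + Pi.single j (2 * b) : Fin 8 → ℤ) ∈ Rf := by
  refine Finset.mem_union_right _ (Finset.mem_filter.2 ⟨Fintype.mem_piFinset.2 fun l => ?_, ?_⟩)
  · by_cases h1 : l = i
    · subst h1
      rcases ha with rfl | rfl <;> simp [Pi.single_eq_of_ne hij]
    · by_cases h2 : l = j
      · subst h2
        rcases hb with rfl | rfl <;> simp [Pi.single_eq_of_ne h1]
      · simp [Pi.single_eq_of_ne h1, Pi.single_eq_of_ne h2]
  · have e : ∀ l : Fin 8, (Pi.single i (2 * a) + Pi.single j (2 * b) : Fin 8 → ℤ) l ^ 2 =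
        (if l = i then 4 * a ^ 2 else 0) + (if l = j then 4 * b ^ 2 else 0) := by
      intro l
      by_cases h1 : l = i
      · subst h1
        simp [Pi.single_eq_of_ne hij, hij]
        ring
      · by_cases h2 : l = j
        · subst h2
          simp [Pi.single_eq_of_ne h1, h1]
          ring
        · simp [Pi.single_eq_of_ne h1, Pi.single_eq_of_ne h2, h1, h2]
    rw [Finset.sum_congr rfl fun l _ => e l, Finset.sum_add_distrib, Finset.sum_ite_eq',
      Finset.sum_ite_eq']
    rcases ha with rfl | rfl <;> rcases hb with rfl | rfl <;> simp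

private theorem sg (x : ℝ) : ∃ a : ℤ, (a = -1 ∨ a = 1) ∧ x * a = |x| := by
  rcases le_or_gt 0 x with h | h
  · exact ⟨1, Or.inr rfl, by rw [abs_of_nonneg h]; simp⟩
  · exact ⟨-1, Or.inl rfl, by rw [abs_of_neg h]; simp⟩

private theorem two_le {y : Fin 8 → ℝ} (hy : y ∈ VV) {i j : Fin 8} (hij : i ≠ j) :
    |y i| + |y j| ≤ 1 := by
  obtain ⟨a, ha, ha'⟩ := sg (y i)
  obtain ⟨b, hb, hb'⟩ := sg (y j)
  have h := hy _ (root_even hij ha hb)
  have e : y ⬝ᵥ hv (Pi.single i (2 * a) + Pi.single j (2 * b) : Fin 8 → ℤ) = |y i| + |y j| := by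
    unfold dotProduct hv
    have e1 : ∀ l : Fin 8,
        y l * ((((Pi.single i (2 * a) + Pi.single j (2 * b) : Fin 8 → ℤ) l : ℤ) : ℝ) / 2) =
        (if l = i then |y i| else 0) + (if l = j then |y j| else 0) := by
      intro l
      by_cases h1 : l = i
      · subst h1
        simp only [Pi.add_apply, Pi.single_eq_same, Pi.single_eq_of_ne hij, add_zero, if_true,
          if_neg hij]
        rw [← ha']
        push_cast
        ring
      · by_cases h2 : l = j
        · subst h2
          simp only [Pi.add_apply, Pi.single_eq_same, Pi.single_eq_of_ne h1, zero_add, if_true,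
            if_neg h1]
          rw [← hb']
          push_cast
          ring
        · simp [Pi.single_eq_of_ne h1, Pi.single_eq_of_ne h2, h1, h2]
    rw [Finset.sum_congr rfl fun l _ => e1 l, Finset.sum_add_distrib, Finset.sum_ite_eq',
      Finset.sum_ite_eq']
    simp
  rw [e] at h
  exact h

private theorem dot_odd (y : Fin 8 → ℝ) (k : Fin 8 → ℤ) : y ⬝ᵥ hv k = (∑ i, y i * k i) / 2 := by
  unfold dotProduct hv
  rw [Finset.sum_div]
  exact Finset.sum_congr rfl fun i _ => by ring

private theorem eight_le {y : Fin 8 → ℝ} (hy : y ∈ VV) (m : Fin 8) :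
    (∑ i, |y i|) - 2 * |y m| ≤ 2 := by
  choose a ha ha' using fun i => sg (y i)
  have hsum : (∑ i, a i) % 4 = 0 ∨ (∑ i, a i) % 4 = 2 := by
    have h : ∀ i, a i % 2 = 1 := fun i => by rcases ha i with h | h <;> rw [h] <;> rfl
    have h0 := h 0
    have h1 := h 1
    have h2 := h 2
    have h3 := h 3
    have h4 := h 4
    have h5 := h 5
    have h6 := h 6
    have h7 := h 7
    rw [Fin.sum_univ_eight]
    omega
  have hs : ∑ i, y i * a i = ∑ i, |y i| := Finset.sum_congr rfl fun i _ => ha' i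
  rcases hsum with h | h
  · have h1 := hy _ (root_odd ha h)
    rw [dot_odd, hs] at h1
    have := abs_nonneg (y m)
    linarith
  · have hk : (∑ i, Function.update a m (-a m) i) = (∑ i, a i) - 2 * a m := by
      have e : ∀ i, Function.update a m (-a m) i = a i + (if i = m then -(2 * a m) else 0) := by
        intro i
        by_cases hi : i = m
        · subst hi
          simp
          ring
        · simp [Function.update_of_ne hi, hi]
      rw [Finset.sum_congr rfl fun i _ => e i, Finset.sum_add_distrib, Finset.sum_ite_eq']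
      simp
      ring
    have h1 := hy _ (root_odd (k := Function.update a m (-a m)) (fun i => by
      by_cases hi : i = m
      · subst hi
        rw [Function.update_self]
        rcases ha i with h2 | h2 <;> rw [h2] <;> simp
      · rw [Function.update_of_ne hi]
        exact ha i) (by
      rw [hk]
      rcases ha m with h2 | h2 <;> rw [h2] <;> omega))
    rw [dot_odd] at h1
    have hs2 : ∑ i, y i * (Function.update a m (-a m) i : ℤ) = (∑ i, |y i|) - 2 * |y m| := by
      have e : ∀ i, y i * ((Function.update a m (-a m) i : ℤ) : ℝ) =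
          |y i| + (if i = m then -(2 * |y m|) else 0) := by
        intro i
        by_cases hi : i = m
        · subst hi
          rw [Function.update_self, if_pos rfl]
          have := ha' i
          push_cast
          linarith
        · rw [Function.update_of_ne hi, if_neg hi, ha' i, add_zero]
      rw [Finset.sum_congr rfl fun i _ => e i, Finset.sum_add_distrib, Finset.sum_ite_eq']
      simp
      ring
    rw [hs2] at h1
    linarith

/-- the numerical inequality -/
private theorem ball_num (a : Fin 8 → ℝ) (h0 : ∀ i, 0 ≤ a i) (h2 : ∀ i j, i ≠ j → a i + a j ≤ 1)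
    (h8 : ∀ m, (∑ i, a i) - 2 * a m ≤ 2) : ∑ i, a i ^ 2 ≤ 1 := by
  obtain ⟨p, -, hp⟩ := Finset.exists_max_image (Finset.univ : Finset (Fin 8)) a ⟨0, by simp⟩
  obtain ⟨m, hm, hm'⟩ := Finset.exists_min_image ((Finset.univ : Finset (Fin 8)).erase p) a (by
    refine Finset.card_pos.1 ?_
    rw [Finset.card_erase_of_mem (Finset.mem_univ p)]
    simp)
  have hmp : m ≠ p := (Finset.mem_erase.1 hm).1
  set R := ((Finset.univ : Finset (Fin 8)).erase p).erase m with hR
  have hcard : R.card = 6 := by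
    rw [hR, Finset.card_erase_of_mem hm, Finset.card_erase_of_mem (Finset.mem_univ p)]
    simp
  have hs : ∀ f : Fin 8 → ℝ, ∑ i, f i = f p + (f m + ∑ i ∈ R, f i) := by
    intro f
    rw [hR, Finset.add_sum_erase _ _ hm, Finset.add_sum_erase _ _ (Finset.mem_univ p)]
  have hRm : ∀ i ∈ R, a m ≤ a i := fun i hi => hm' i (Finset.mem_of_mem_erase hi)
  have hRp : ∀ i ∈ R, i ≠ p := fun i hi =>
    (Finset.mem_erase.1 (Finset.mem_of_mem_erase hi)).1
  have hq : ∀ σ : ℝ, (∀ i ∈ R, a i ≤ σ) →
      ∑ i ∈ R, a i ^ 2 ≤ (a m + σ) * (∑ i ∈ R, a i) - 6 * (a m * σ) := by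
    intro σ hσ
    have h : ∑ i ∈ R, a i ^ 2 ≤ ∑ i ∈ R, ((a m + σ) * a i - a m * σ) := by
      refine Finset.sum_le_sum fun i hi => ?_
      nlinarith [mul_nonneg (sub_nonneg.2 (hRm i hi)) (sub_nonneg.2 (hσ i hi))]
    rw [Finset.sum_sub_distrib, ← Finset.mul_sum, Finset.sum_const, hcard] at h
    simpa using h
  have hsum := h8 m
  rw [hs a] at hsum
  rw [hs fun i => a i ^ 2]
  have ht := h0 m
  have hmp' : a m ≤ a p := hp m (Finset.mem_univ m)
  have hpm : a p + a m ≤ 1 := h2 p m (Ne.symm hmp)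
  set S1 := ∑ i ∈ R, a i with hS1
  rcases le_total (a p) (1 / 2) with hc | hc
  · have h := hq (1 / 2) fun i hi => (hp i (Finset.mem_univ i)).trans hc
    have h1 : a p ^ 2 ≤ (a m + 1 / 2) * a p - a m * (1 / 2) := by
      nlinarith [mul_nonneg (sub_nonneg.2 hmp') (sub_nonneg.2 hc)]
    have h3 : (a m + 1 / 2) * (S1 + a p) ≤ (a m + 1 / 2) * (2 + a m) :=
      mul_le_mul_of_nonneg_left (by linarith) (by linarith)
    have h4 : a m * (2 * a m - 1) ≤ 0 := mul_nonpos_of_nonneg_of_nonpos ht (by linarith)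
    nlinarith
  · have h := hq (1 - a p) fun i hi => by
      have := h2 i p (hRp i hi)
      linarith
    have h3 : (a m + (1 - a p)) * S1 ≤ (a m + (1 - a p)) * (2 - a p + a m) :=
      mul_le_mul_of_nonneg_left (by linarith) (by linarith)
    have h4 : 0 ≤ (1 - a p - a m) * (1 - 2 * (1 - a p - a m)) :=
      mul_nonneg (by linarith) (by linarith)
    nlinarith

theorem VV_ball {y : Fin 8 → ℝ} (hy : y ∈ VV) : y ⬝ᵥ y ≤ 1 := by
  have h := ball_num (fun i => |y i|) (fun i => abs_nonneg _) (fun i j hij => two_le hy hij)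
    (fun m => eight_le hy m)
  refine le_trans (le_of_eq ?_) h
  unfold dotProduct
  refine Finset.sum_congr rfl fun i _ => ?_
  rw [sq_abs]
  ring

private theorem cont_dot (w : Fin 8 → ℝ) : Continuous fun y : Fin 8 → ℝ => y ⬝ᵥ w := by
  unfold dotProduct
  fun_prop

theorem VV_closed : IsClosed VV := by
  have h : VV = ⋂ k ∈ Rf, {y : Fin 8 → ℝ | y ⬝ᵥ hv k ≤ 1} := by
    ext y
    simp [VV]
  rw [h]
  exact isClosed_biInter fun k _ => isClosed_le (cont_dot _) continuous_const

theorem VV_convex : Convex ℝ VV := by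
  intro x hx y hy s t hs ht hst k hk
  have h1 := hx k hk
  have h2 := hy k hk
  rw [add_dotProduct, smul_dotProduct, smul_dotProduct, smul_eq_mul, smul_eq_mul]
  nlinarith

theorem VV_compact : IsCompact VV := by
  refine Metric.isCompact_of_isClosed_isBounded VV_closed ?_
  refine (Metric.isBounded_closedBall (x := (0 : Fin 8 → ℝ)) (r := 1)).subset ?_
  intro y hy
  rw [mem_closedBall_zero_iff, pi_norm_le_iff_of_nonneg zero_le_one]
  intro i
  have h := VV_ball hy
  have h1 : y i * y i ≤ y ⬝ᵥ y :=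
    Finset.single_le_sum (f := fun j => y j * y j) (fun j _ => mul_self_nonneg _)
      (Finset.mem_univ i)
  rw [Real.norm_eq_abs]
  exact abs_le_one_iff_mul_self_le_one.2 (h1.trans h)

private theorem root_norm {k : Fin 8 → ℤ} (hk : k ∈ Rf) : hv k ⬝ᵥ hv k = 2 := by
  have e : hv k ⬝ᵥ hv k = ((∑ i, k i ^ 2 : ℤ) : ℝ) / 4 := by
    unfold dotProduct hv
    push_cast
    rw [Finset.sum_div]
    exact Finset.sum_congr rfl fun i _ => by ring
  rw [e]
  have h : ∑ i, k i ^ 2 = 8 := by
    rcases Finset.mem_union.1 hk with h | h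
    · have h1 := Fintype.mem_piFinset.1 (Finset.mem_filter.1 h).1
      have h2 : ∀ i, k i ^ 2 = 1 := by
        intro i
        have := h1 i
        simp only [Finset.mem_insert, Finset.mem_singleton] at this
        rcases this with h3 | h3 <;> rw [h3] <;> rfl
      simp [h2]
    · exact (Finset.mem_filter.1 h).2
  rw [h]
  norm_num

/-- a small ball is contained in the cell -/
theorem VV_nhds : {y : Fin 8 → ℝ | y ⬝ᵥ y ≤ 1 / 2} ⊆ VV := by
  intro y hy k hk
  have h1 : (∑ i, y i * hv k i) ^ 2 ≤ (∑ i, y i ^ 2) * ∑ i, hv k i ^ 2 :=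
    Finset.sum_mul_sq_le_sq_mul_sq _ _ _
  have h2 := root_norm hk
  have hy' : y ⬝ᵥ y ≤ 1 / 2 := hy
  have e1 : ∑ i, y i ^ 2 = y ⬝ᵥ y := Finset.sum_congr rfl fun i _ => by ring
  have e2 : ∑ i, hv k i ^ 2 = hv k ⬝ᵥ hv k := Finset.sum_congr rfl fun i _ => by ring
  rw [e1, e2, h2] at h1
  have h3 : (y ⬝ᵥ hv k) ^ 2 ≤ 1 := by
    have : (y ⬝ᵥ hv k) = ∑ i, y i * hv k i := rfl
    rw [this]
    linarith
  nlinarith [sq_nonneg (y ⬝ᵥ hv k - 1)]

end Pool.Agent.H99E
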