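import Pool.Agent.H99E.Ball

set_option autoImplicit false

/-!
# Coordinates adapted to the root `u0`
-/

namespace Pool.Agent.H99E

open MeasureTheory Matrix

/-- the matrix of `yy` -/
private noncomputable def crdM : Matrix (Fin 8) (Fin 8) ℝ :=
  !![1 / 2, 1, 0, 0, 0, 0, 0, 0;
     1 / 2, -1, 0, 0, 0, 0, 0, 0;
     0, 0, 1, 0, 0, 0, 0, 0;
     0, 0, 0, 1, 0, 0, 0, 0;
     0, 0, 0, 0, 1, 0, 0, 0;
     0, 0, 0, 0, 0, 1, 0, 0;
     0, 0, 0, 0, 0, 0, 1, 0;
     0, 0, 0, 0, 0, 0, 0, 1]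

private noncomputable def crdD : Fin 8 → ℝ := ![1 / 2, 2, 1, 1, 1, 1, 1, 1]

private theorem crd_mul : crdMᵀ * crdM = Matrix.diagonal crdD := by
  ext i j
  rw [Matrix.mul_apply, Fin.sum_univ_eight]
  fin_cases i <;> fin_cases j <;> simp [crdM, crdD, Matrix.diagonal] <;> norm_num

private theorem crd_det : |crdM.det| = 1 := by
  have h : crdM.det * crdM.det = 1 := by
    have h1 := congrArg Matrix.det crd_mul
    rw [Matrix.det_mul, Matrix.det_transpose, Matrix.det_diagonal, Fin.prod_univ_eight] at h1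
    rw [h1]
    simp [crdD]
  have h2 : |crdM.det| ^ 2 = 1 := by rw [sq_abs]; nlinarith
  have h3 : 0 ≤ |crdM.det| := abs_nonneg _
  nlinarith

private theorem crd_yy (p : ℝ) (z : Fin 7 → ℝ) :
    yy p z = Matrix.toLin' crdM (Fin.cons p z : Fin 8 → ℝ) := by
  funext i
  rw [Matrix.toLin'_apply, Matrix.mulVec, dotProduct, Fin.sum_univ_eight]
  have e0 : (Fin.cons p z : Fin 8 → ℝ) 0 = p := rfl
  have e1 : (Fin.cons p z : Fin 8 → ℝ) 1 = z 0 := rfl
  have e2 : (Fin.cons p z : Fin 8 → ℝ) 2 = z 1 := rfl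
  have e3 : (Fin.cons p z : Fin 8 → ℝ) 3 = z 2 := rfl
  have e4 : (Fin.cons p z : Fin 8 → ℝ) 4 = z 3 := rfl
  have e5 : (Fin.cons p z : Fin 8 → ℝ) 5 = z 4 := rfl
  have e6 : (Fin.cons p z : Fin 8 → ℝ) 6 = z 5 := rfl
  have e7 : (Fin.cons p z : Fin 8 → ℝ) 7 = z 6 := rfl
  rw [e0, e1, e2, e3, e4, e5, e6, e7]
  fin_cases i <;> simp [crdM, yy] <;> ring

private theorem crd_mp : MeasurePreserving (Matrix.toLin' crdM) volume volume := by
  refine ⟨(LinearMap.continuous_of_finiteDimensional _).measurable, ?_⟩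
  have h0 : crdM.det ≠ 0 := by
    intro h
    have := crd_det
    rw [h] at this
    simp at this
  rw [Real.map_matrix_volume_pi_eq_smul_volume_pi h0, abs_inv, crd_det]
  simp

theorem yy_mp : MeasurePreserving (fun q : ℝ × (Fin 7 → ℝ) => yy q.1 q.2) volume volume := by
  have h1 := (volume_preserving_piFinSuccAbove (fun _ : Fin 8 => ℝ) 0).symm
  have h2 := crd_mp.comp h1
  have h3 : (fun q : ℝ × (Fin 7 → ℝ) => yy q.1 q.2) =
      (Matrix.toLin' crdM) ∘ (MeasurableEquiv.piFinSuccAbove (fun _ : Fin 8 => ℝ) 0).symm := by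
    funext q
    rw [crd_yy]
    simp only [Function.comp_apply]
    congr 1
    simp [MeasurableEquiv.piFinSuccAbove, Fin.insertNthEquiv]
  rw [h3]
  exact h2

private theorem yy_cont : Continuous (fun q : ℝ × (Fin 7 → ℝ) => yy q.1 q.2) := by
  have h3 : (fun q : ℝ × (Fin 7 → ℝ) => yy q.1 q.2) =
      fun q : ℝ × (Fin 7 → ℝ) => Matrix.toLin' crdM (Fin.cons q.1 q.2 : Fin 8 → ℝ) := by
    funext q
    exact crd_yy _ _
  rw [h3]
  refine (LinearMap.continuous_of_finiteDimensional _).comp ?_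
  refine continuous_pi fun i => ?_
  refine Fin.cases ?_ (fun j => ?_) i
  · simpa using continuous_fst
  · change Continuous fun q : ℝ × (Fin 7 → ℝ) => q.2 j
    exact (continuous_apply j).comp continuous_snd

theorem yy_emb : MeasurableEmbedding (fun q : ℝ × (Fin 7 → ℝ) => yy q.1 q.2) := by
  refine yy_cont.measurableEmbedding ?_
  rintro ⟨p, z⟩ ⟨p', z'⟩ h
  have h' : ∀ i, yy p z i = yy p' z' i := fun i => congrFun h i
  have e0 := h' 0
  have e1 := h' 1
  have e2 := h' 2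
  have e3 := h' 3
  have e4 := h' 4
  have e5 := h' 5
  have e6 := h' 6
  have e7 := h' 7
  simp [yy] at e0 e1 e2 e3 e4 e5 e6 e7
  refine Prod.ext (by simp only; linarith) ?_
  funext i
  fin_cases i
  · simp only; show z 0 = z' 0; linarith
  · exact e2
  · exact e3
  · exact e4
  · exact e5
  · exact e6
  · exact e7

private theorem yy_dot (p : ℝ) (z : Fin 7 → ℝ) (w : Fin 8 → ℝ) :
    yy p z ⬝ᵥ w = p * (w 0 + w 1) / 2 + (z 0 * (w 0 - w 1) + (z 1 * w 2 + z 2 * w 3 + z 3 * w 4 +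
      z 4 * w 5 + z 5 * w 6 + z 6 * w 7)) := by
  rw [dotProduct, Fin.sum_univ_eight]
  simp [yy]
  ring

theorem Z0_NN {z : Fin 7 → ℝ} (h : z ∈ Z0) : NN z ≤ 1 / 2 := by
  have h1 := VV_ball h
  rw [yy_dot] at h1
  simp [yy] at h1
  unfold NN
  nlinarith

theorem Z0_compact : IsCompact Z0 := by
  have hc : IsClosed Z0 := by
    have : Z0 = ⋂ k ∈ Rf, {z : Fin 7 → ℝ | yy 1 z ⬝ᵥ hv k ≤ 1} := by
      ext z
      simp [Z0, VV]
    rw [this]
    refine isClosed_biInter fun k _ => isClosed_le ?_ continuous_const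
    simp only [yy_dot]
    fun_prop
  refine IsCompact.of_isClosed_subset (isCompact_closedBall (0 : Fin 7 → ℝ) 1) hc ?_
  intro z hz
  have h := Z0_NN hz
  unfold NN at h
  rw [mem_closedBall_zero_iff, pi_norm_le_iff_of_nonneg zero_le_one]
  intro i
  rw [Real.norm_eq_abs]
  refine abs_le_one_iff_mul_self_le_one.2 ?_
  have q0 := sq_nonneg (z 0)
  have q1 := sq_nonneg (z 1)
  have q2 := sq_nonneg (z 2)
  have q3 := sq_nonneg (z 3)
  have q4 := sq_nonneg (z 4)
  have q5 := sq_nonneg (z 5)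
  have q6 := sq_nonneg (z 6)
  fin_cases i
  · change z 0 * z 0 ≤ 1
    nlinarith
  · change z 1 * z 1 ≤ 1
    nlinarith
  · change z 2 * z 2 ≤ 1
    nlinarith
  · change z 3 * z 3 ≤ 1
    nlinarith
  · change z 4 * z 4 ≤ 1
    nlinarith
  · change z 5 * z 5 ≤ 1
    nlinarith
  · change z 6 * z 6 ≤ 1
    nlinarith

/-- members of `Rf` -/
private theorem rf_cases {k : Fin 8 → ℤ} (hk : k ∈ Rf) :
    ((∀ i, k i = -1 ∨ k i = 1) ∧ (∑ i, k i) % 4 = 0) ∨
    ((∀ i, k i = -2 ∨ k i = 0 ∨ k i = 2) ∧ ∑ i, k i ^ 2 = 8) := by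
  simpa [Rf] using hk

/-- slices -/
theorem slice {s : ℝ} (hs : 0 ≤ s) {z : Fin 7 → ℝ} (h : yy (1 - s) z ∈ VV) :
    (1 + s)⁻¹ • z ∈ Z0 := by
  intro k hk
  have h1 := h k hk
  have hp : (0 : ℝ) < 1 + s := by linarith
  have key : (hv k 0 + hv k 1 ≤ 1) ∨ (hv k 0 = 1 ∧ hv k 1 = 1 ∧ ∀ i : Fin 8, 2 ≤ i → hv k i = 0) := by
    rcases rf_cases hk with ⟨ha, -⟩ | ⟨ha, hb⟩
    · left
      rcases ha 0 with e0 | e0 <;> rcases ha 1 with e1 | e1 <;> simp [hv, e0, e1] <;> norm_num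
    · by_cases hq : k 0 = 2 ∧ k 1 = 2
      · right
        obtain ⟨e0, e1⟩ := hq
        refine ⟨by simp [hv, e0], by simp [hv, e1], ?_⟩
        rw [Fin.sum_univ_eight, e0, e1] at hb
        have q2 := sq_nonneg (k 2)
        have q3 := sq_nonneg (k 3)
        have q4 := sq_nonneg (k 4)
        have q5 := sq_nonneg (k 5)
        have q6 := sq_nonneg (k 6)
        have q7 := sq_nonneg (k 7)
        have z2 : k 2 = 0 := by nlinarith
        have z3 : k 3 = 0 := by nlinarith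
        have z4 : k 4 = 0 := by nlinarith
        have z5 : k 5 = 0 := by nlinarith
        have z6 : k 6 = 0 := by nlinarith
        have z7 : k 7 = 0 := by nlinarith
        intro i hi
        fin_cases i <;> simp_all [hv]
      · left
        rcases ha 0 with e0 | e0 | e0 <;> rcases ha 1 with e1 | e1 | e1 <;>
          first
          | (exfalso; exact hq ⟨e0, e1⟩)
          | (simp [hv, e0, e1] <;> norm_num)
  rw [yy_dot] at h1 ⊢
  simp only [Pi.smul_apply, smul_eq_mul]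
  set X : ℝ := z 0 * (hv k 0 - hv k 1) + (z 1 * hv k 2 + z 2 * hv k 3 + z 3 * hv k 4 +
      z 4 * hv k 5 + z 5 * hv k 6 + z 6 * hv k 7) with hX
  have e : (1 + s)⁻¹ * z 0 * (hv k 0 - hv k 1) + ((1 + s)⁻¹ * z 1 * hv k 2 +
      (1 + s)⁻¹ * z 2 * hv k 3 + (1 + s)⁻¹ * z 3 * hv k 4 + (1 + s)⁻¹ * z 4 * hv k 5 +
      (1 + s)⁻¹ * z 5 * hv k 6 + (1 + s)⁻¹ * z 6 * hv k 7) = X / (1 + s) := by
    rw [hX]
    field_simp
  rw [e]
  rcases key with hc | ⟨e0, e1, e2⟩
  · have h2 : X / (1 + s) ≤ 1 - (hv k 0 + hv k 1) / 2 := by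
      rw [div_le_iff₀ hp]
      nlinarith
    linarith
  · have hX0 : X = 0 := by
      rw [hX, e0, e1, e2 2 (by decide), e2 3 (by decide), e2 4 (by decide), e2 5 (by decide),
        e2 6 (by decide), e2 7 (by decide)]
      ring
    rw [hX0, e0, e1]
    norm_num

private theorem Z0_neg' {z : Fin 7 → ℝ} (h : z ∈ Z0) : -z ∈ Z0 := by
  intro k hk
  have hk' : (![k 1, k 0, -k 2, -k 3, -k 4, -k 5, -k 6, -k 7] : Fin 8 → ℤ) ∈ Rf := by
    rcases rf_cases hk with ⟨ha, hb⟩ | ⟨ha, hb⟩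
    · refine Finset.mem_union_left _ (Finset.mem_filter.2 ⟨?_, ?_⟩)
      · rw [Fintype.mem_piFinset]
        intro i
        have a0 := ha 0
        have a1 := ha 1
        have a2 := ha 2
        have a3 := ha 3
        have a4 := ha 4
        have a5 := ha 5
        have a6 := ha 6
        have a7 := ha 7
        fin_cases i <;> simp <;> omega
      · rw [Fin.sum_univ_eight] at hb ⊢
        have a0 := ha 0
        have a1 := ha 1
        simp
        omega
    · refine Finset.mem_union_right _ (Finset.mem_filter.2 ⟨?_, ?_⟩)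
      · rw [Fintype.mem_piFinset]
        intro i
        have a0 := ha 0
        have a1 := ha 1
        have a2 := ha 2
        have a3 := ha 3
        have a4 := ha 4
        have a5 := ha 5
        have a6 := ha 6
        have a7 := ha 7
        fin_cases i <;> simp <;> omega
      · rw [Fin.sum_univ_eight] at hb ⊢
        simp
        linarith
  have h1 := h _ hk'
  rw [yy_dot] at h1 ⊢
  simp [hv] at h1 ⊢
  linarith

theorem Z0_neg {z : Fin 7 → ℝ} : -z ∈ Z0 ↔ z ∈ Z0 :=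
  ⟨fun h => by simpa using Z0_neg' h, Z0_neg'⟩

end Pool.Agent.H99E
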