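import Pool.Agent.H99E.Defs

set_option autoImplicit false

/-!
# Sums over the 240 roots of `E8`
-/

namespace Pool.Agent.H99E

open MeasureTheory Matrix

theorem card_Rf : Rf.card = 240 := by
  decide +kernel

/-- Sign vectors with two minus signs. -/
private def sg (p q : Fin 8) : Fin 8 → ℤ :=
  fun i => (if i = p then -1 else 1) * (if i = q then -1 else 1)

private theorem pick : ∀ i j l m : Fin 8, (i = j ∧ l = m) ∨ (i = l ∧ j = m) ∨ (i = m ∧ j = l) ∨
    ∃ p q : Fin 8, p ≠ q ∧ sg p q i * sg p q j * (sg p q l * sg p q m) = -1 := by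
  decide +kernel

private theorem sq4 : ∀ i l : Fin 8,
    (∑ k ∈ Rf, k i * k i * (k l * k l) : ℤ) = if i = l then 576 else 192 := by
  decide +kernel

private theorem sg_cases (p q i : Fin 8) : sg p q i = 1 ∨ sg p q i = -1 := by
  unfold sg
  split_ifs <;> simp

private theorem sg_sq (p q i : Fin 8) : sg p q i * sg p q i = 1 := by
  rcases sg_cases p q i with h | h <;> rw [h] <;> norm_num

private theorem sg_sum {p q : Fin 8} (h : p ≠ q) (k : Fin 8 → ℤ) :
    ∑ i, sg p q i * k i = ∑ i, k i - 2 * k p - 2 * k q := by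
  have h1 : ∀ i, sg p q i * k i =
      k i - (if i = p then 2 * k i else 0) - (if i = q then 2 * k i else 0) := by
    intro i
    unfold sg
    by_cases hp : i = p
    · have hq : i ≠ q := fun e => h (hp.symm.trans e)
      simp [hp, h]
      ring
    · by_cases hq : i = q
      · simp [hq, h.symm]
        ring
      · simp [hp, hq]
  rw [Finset.sum_congr rfl fun i _ => h1 i]
  simp [Finset.sum_sub_distrib]

private theorem sg_mem {p q : Fin 8} (h : p ≠ q) {k : Fin 8 → ℤ} (hk : k ∈ Rf) :
    (fun i => sg p q i * k i) ∈ Rf := by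
  unfold Rf at hk ⊢
  rw [Finset.mem_union, Finset.mem_filter, Finset.mem_filter, Fintype.mem_piFinset,
    Fintype.mem_piFinset] at hk ⊢
  rcases hk with ⟨h1, h2⟩ | ⟨h1, h2⟩
  · left
    refine ⟨fun i => ?_, ?_⟩
    · have h3 := h1 i
      simp only [Finset.mem_insert, Finset.mem_singleton] at h3 ⊢
      rcases sg_cases p q i with h4 | h4 <;> rw [h4] <;> omega
    · rw [sg_sum h]
      have h3 := h1 p
      have h4 := h1 q
      simp only [Finset.mem_insert, Finset.mem_singleton] at h3 h4
      omega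
  · right
    refine ⟨fun i => ?_, ?_⟩
    · have h3 := h1 i
      simp only [Finset.mem_insert, Finset.mem_singleton] at h3 ⊢
      rcases sg_cases p q i with h4 | h4 <;> rw [h4] <;> omega
    · rw [← h2]
      refine Finset.sum_congr rfl fun i _ => ?_
      have := sg_sq p q i
      calc (sg p q i * k i) ^ 2 = sg p q i * sg p q i * k i ^ 2 := by ring
        _ = k i ^ 2 := by rw [this, one_mul]

private theorem sum_flip {p q : Fin 8} (h : p ≠ q) (f : (Fin 8 → ℤ) → ℤ) :
    ∑ k ∈ Rf, f (fun i => sg p q i * k i) = ∑ k ∈ Rf, f k := by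
  have hinv : ∀ k : Fin 8 → ℤ, (fun i => sg p q i * (sg p q i * k i)) = k := by
    intro k
    funext i
    rw [← mul_assoc, sg_sq, one_mul]
  refine Finset.sum_nbij' (fun k i => sg p q i * k i) (fun k i => sg p q i * k i)
    (fun k hk => sg_mem h hk) (fun k hk => sg_mem h hk) (fun k _ => hinv k) (fun k _ => hinv k)
    (fun k _ => rfl)

private def dl (i j : Fin 8) : ℤ := if i = j then 1 else 0

private theorem dl_mul {a b c d : Fin 8} (h : ¬ (a = b ∧ c = d)) : dl a b * dl c d = 0 := by
  unfold dl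
  by_cases h1 : a = b
  · by_cases h2 : c = d
    · exact absurd ⟨h1, h2⟩ h
    · rw [if_neg h2, mul_zero]
  · rw [if_neg h1, zero_mul]

private theorem m4 (i j l m : Fin 8) : (∑ k ∈ Rf, k i * k j * (k l * k m) : ℤ) =
    192 * (dl i j * dl l m + dl i l * dl j m + dl i m * dl j l) := by
  have hs := sq4
  rcases pick i j l m with ⟨rfl, rfl⟩ | ⟨rfl, rfl⟩ | ⟨rfl, rfl⟩ | ⟨p, q, h, hm⟩
  · rw [hs i l]
    by_cases h : i = l
    · subst h
      simp [dl]
    · simp [dl, h]
  · have h1 : (∑ k ∈ Rf, k i * k j * (k i * k j) : ℤ) = ∑ k ∈ Rf, k i * k i * (k j * k j) :=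
      Finset.sum_congr rfl fun k _ => by ring
    rw [h1, hs i j]
    by_cases h : i = j
    · subst h
      simp [dl]
    · simp [dl, h, Ne.symm h]
  · have h1 : (∑ k ∈ Rf, k i * k j * (k j * k i) : ℤ) = ∑ k ∈ Rf, k i * k i * (k j * k j) :=
      Finset.sum_congr rfl fun k _ => by ring
    rw [h1, hs i j]
    by_cases h : i = j
    · subst h
      simp [dl]
    · simp [dl, h, Ne.symm h]
  · have h1 := sum_flip h (fun k => k i * k j * (k l * k m))
    have h2 : ∑ k ∈ Rf, (fun k : Fin 8 → ℤ => k i * k j * (k l * k m))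
        (fun i => sg p q i * k i) = -∑ k ∈ Rf, k i * k j * (k l * k m) := by
      rw [← Finset.sum_neg_distrib]
      refine Finset.sum_congr rfl fun k _ => ?_
      calc sg p q i * k i * (sg p q j * k j) * (sg p q l * k l * (sg p q m * k m))
          = sg p q i * sg p q j * (sg p q l * sg p q m) * (k i * k j * (k l * k m)) := by ring
        _ = -(k i * k j * (k l * k m)) := by rw [hm]; ring
    have h3 : ∑ k ∈ Rf, k i * k j * (k l * k m) = 0 := by
      have h4 := h2.symm.trans h1
      omega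
    rw [h3]
    have h5 : ¬ (i = j ∧ l = m) := by
      rintro ⟨rfl, rfl⟩
      have a := sg_sq p q i
      have b := sg_sq p q l
      rw [a, b] at hm
      norm_num at hm
    have h6 : ¬ (i = l ∧ j = m) := by
      rintro ⟨rfl, rfl⟩
      have a := sg_sq p q i
      have b := sg_sq p q j
      have c : sg p q i * sg p q j * (sg p q i * sg p q j) = 1 := by
        calc sg p q i * sg p q j * (sg p q i * sg p q j)
            = (sg p q i * sg p q i) * (sg p q j * sg p q j) := by ring
          _ = 1 := by rw [a, b]; norm_num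
      rw [c] at hm
      norm_num at hm
    have h7 : ¬ (i = m ∧ j = l) := by
      rintro ⟨rfl, rfl⟩
      have a := sg_sq p q i
      have b := sg_sq p q j
      have c : sg p q i * sg p q j * (sg p q j * sg p q i) = 1 := by
        calc sg p q i * sg p q j * (sg p q j * sg p q i)
            = (sg p q i * sg p q i) * (sg p q j * sg p q j) := by ring
          _ = 1 := by rw [a, b]; norm_num
      rw [c] at hm
      norm_num at hm
    rw [dl_mul h5, dl_mul h6, dl_mul h7]
    norm_num

private noncomputable def dr (i j : Fin 8) : ℝ := if i = j then 1 else 0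

private theorem m4r (i j l m : Fin 8) :
    (∑ k ∈ Rf, hv k i * hv k j * (hv k l * hv k m)) =
    12 * (dr i j * dr l m + dr i l * dr j m + dr i m * dr j l) := by
  have h := m4 i j l m
  have h1 : (∑ k ∈ Rf, hv k i * hv k j * (hv k l * hv k m)) =
      ((∑ k ∈ Rf, k i * k j * (k l * k m) : ℤ) : ℝ) / 16 := by
    push_cast
    rw [Finset.sum_div]
    refine Finset.sum_congr rfl fun k _ => ?_
    unfold hv
    ring
  rw [h1, h]
  unfold dl dr
  push_cast
  ring

private theorem norm_Rf {k : Fin 8 → ℤ} (hk : k ∈ Rf) : ∑ l, hv k l * hv k l = 2 := by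
  have h8 : ∑ i, k i ^ 2 = 8 := by
    unfold Rf at hk
    rw [Finset.mem_union, Finset.mem_filter, Finset.mem_filter, Fintype.mem_piFinset,
      Fintype.mem_piFinset] at hk
    rcases hk with ⟨h1, _⟩ | ⟨_, h2⟩
    · have h3 : ∀ i, k i ^ 2 = 1 := by
        intro i
        have h3 := h1 i
        simp only [Finset.mem_insert, Finset.mem_singleton] at h3
        rcases h3 with h4 | h4 <;> rw [h4] <;> norm_num
      rw [Finset.sum_congr rfl fun i _ => h3 i]
      simp
    · exact h2
  have h9 : ∑ l, hv k l * hv k l = ((∑ i, k i ^ 2 : ℤ) : ℝ) / 4 := by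
    push_cast
    rw [Finset.sum_div]
    refine Finset.sum_congr rfl fun i _ => ?_
    unfold hv
    ring
  rw [h9, h8]
  norm_num

private theorem m2r (i j : Fin 8) : (∑ k ∈ Rf, hv k i * hv k j) = 60 * dr i j := by
  have h : ∑ l, (∑ k ∈ Rf, hv k i * hv k j * (hv k l * hv k l)) =
      2 * ∑ k ∈ Rf, hv k i * hv k j := by
    rw [Finset.sum_comm, Finset.mul_sum]
    refine Finset.sum_congr rfl fun k hk => ?_
    rw [← Finset.mul_sum, norm_Rf hk]
    ring
  have h1 : ∑ l, (∑ k ∈ Rf, hv k i * hv k j * (hv k l * hv k l)) = 120 * dr i j := by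
    rw [Finset.sum_congr rfl fun l _ => m4r i j l l]
    unfold dr
    by_cases hij : i = j
    · subst hij
      simp [← Finset.mul_sum, Finset.sum_add_distrib]
      norm_num
    · simp [← Finset.mul_sum, Finset.sum_add_distrib, hij]
  linarith

theorem sum_roots {B : Matrix (Fin 8) (Fin 8) ℝ} (hB : Bᵀ = B) :
    ∑ k ∈ Rf, ((B *ᵥ hv k) ⬝ᵥ (B *ᵥ hv k) - (hv k ⬝ᵥ B *ᵥ hv k) ^ 2 / 2) ≤ 48 * fro B := by
  have hs : ∀ i j, B j i = B i j := fun i j => by
    conv_rhs => rw [← hB]
    rfl
  rw [Finset.sum_sub_distrib]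
  have hA : ∑ k ∈ Rf, (B *ᵥ hv k) ⬝ᵥ (B *ᵥ hv k) = 60 * fro B := by
    have h1 : ∀ k, (B *ᵥ hv k) ⬝ᵥ (B *ᵥ hv k) =
        ∑ i, ∑ j, ∑ l, B i j * B i l * (hv k j * hv k l) := by
      intro k
      simp only [dotProduct, mulVec, Finset.sum_mul_sum]
      refine Finset.sum_congr rfl fun i _ => Finset.sum_congr rfl fun j _ =>
        Finset.sum_congr rfl fun l _ => ?_
      ring
    rw [Finset.sum_congr rfl fun k _ => h1 k, Finset.sum_comm]
    unfold fro
    rw [Finset.mul_sum]
    refine Finset.sum_congr rfl fun i _ => ?_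
    rw [Finset.sum_comm, Finset.mul_sum]
    refine Finset.sum_congr rfl fun j _ => ?_
    rw [Finset.sum_comm]
    have h2 : ∀ l, ∑ k ∈ Rf, B i j * B i l * (hv k j * hv k l) =
        B i j * B i l * (60 * dr j l) := by
      intro l
      rw [← Finset.mul_sum, m2r]
    rw [Finset.sum_congr rfl fun l _ => h2 l]
    unfold dr
    simp
    ring
  have hC : ∑ k ∈ Rf, (hv k ⬝ᵥ B *ᵥ hv k) ^ 2 / 2 = 12 * fro B + 6 * B.trace ^ 2 := by
    have h1 : ∀ k, (hv k ⬝ᵥ B *ᵥ hv k) ^ 2 / 2 =
        ∑ i, ∑ j, ∑ l, ∑ m, B i j * B l m / 2 * (hv k i * hv k j * (hv k l * hv k m)) := by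
      intro k
      have h2 : hv k ⬝ᵥ B *ᵥ hv k = ∑ i, ∑ j, B i j * (hv k i * hv k j) := by
        simp only [dotProduct, mulVec, Finset.mul_sum]
        refine Finset.sum_congr rfl fun i _ => Finset.sum_congr rfl fun j _ => ?_
        ring
      rw [h2, sq, Finset.sum_mul_sum, Finset.sum_div]
      refine Finset.sum_congr rfl fun i _ => ?_
      rw [Finset.sum_congr rfl fun l _ => Finset.sum_mul_sum _ _ _ _, Finset.sum_comm,
        Finset.sum_div]
      refine Finset.sum_congr rfl fun j _ => ?_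
      rw [Finset.sum_div]
      refine Finset.sum_congr rfl fun l _ => ?_
      rw [Finset.sum_div]
      refine Finset.sum_congr rfl fun m _ => ?_
      ring
    rw [Finset.sum_congr rfl fun k _ => h1 k, Finset.sum_comm]
    have h3 : ∀ i j l m, ∑ k ∈ Rf, B i j * B l m / 2 * (hv k i * hv k j * (hv k l * hv k m)) =
        6 * (B i j * B l m * (dr i j * dr l m)) + 6 * (B i j * B l m * (dr i l * dr j m)) +
        6 * (B i j * B l m * (dr i m * dr j l)) := by
      intro i j l m
      rw [← Finset.mul_sum, m4r]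
      ring
    have h4 : ∀ i, ∑ k ∈ Rf, ∑ j, ∑ l, ∑ m,
        B i j * B l m / 2 * (hv k i * hv k j * (hv k l * hv k m)) =
        ∑ j, ∑ l, ∑ m, (6 * (B i j * B l m * (dr i j * dr l m)) +
          6 * (B i j * B l m * (dr i l * dr j m)) + 6 * (B i j * B l m * (dr i m * dr j l))) := by
      intro i
      rw [Finset.sum_comm]
      refine Finset.sum_congr rfl fun j _ => ?_
      rw [Finset.sum_comm]
      refine Finset.sum_congr rfl fun l _ => ?_
      rw [Finset.sum_comm]
      exact Finset.sum_congr rfl fun m _ => h3 i j l m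
    rw [Finset.sum_congr rfl fun i _ => h4 i]
    simp only [Finset.sum_add_distrib, ← Finset.mul_sum]
    have e1 : ∑ i, ∑ j, ∑ l, ∑ m, B i j * B l m * (dr i j * dr l m) = B.trace ^ 2 := by
      unfold dr Matrix.trace
      simp [sq, Finset.sum_mul_sum]
    have e2 : ∑ i, ∑ j, ∑ l, ∑ m, B i j * B l m * (dr i l * dr j m) = fro B := by
      unfold dr fro
      simp [sq]
    have e3 : ∑ i, ∑ j, ∑ l, ∑ m, B i j * B l m * (dr i m * dr j l) = fro B := by
      unfold dr fro
      simp [sq, hs]
    rw [e1, e2, e3]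
    ring
  rw [hA, hC]
  nlinarith [sq_nonneg B.trace]

end Pool.Agent.H99E
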