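import Pool.Agent.H99E.Alg

set_option autoImplicit false

/-! # The symmetries of the cell act transitively on the roots (helper94) -/

namespace Pool.Agent.H99E

open MeasureTheory Matrix

private theorem sy_hv_sub (k l : Fin 8 → ℤ) (m : ℤ) : hv (k - m • l) = hv k - (m : ℝ) • hv l := by
  ext i
  simp only [hv, Pi.sub_apply, Pi.smul_apply, smul_eq_mul, Int.cast_sub, Int.cast_mul]
  ring

private theorem sy_hv_add (k l : Fin 8 → ℤ) : hv (k + l) = hv k + hv l := by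
  ext i
  simp only [hv, Pi.add_apply, Int.cast_add]
  ring

private theorem sy_hv_neg (k : Fin 8 → ℤ) : hv (-k) = -hv k := by
  ext i
  simp only [hv, Pi.neg_apply, Int.cast_neg]
  ring

private theorem sy_InE_smul {l : Fin 8 → ℤ} (hl : InE l) (m : ℤ) : InE (m • l) := by
  refine ⟨fun i => ?_, ?_⟩
  · simp only [Pi.smul_apply, smul_eq_mul]
    rw [Int.mul_emod, hl.1 i, ← Int.mul_emod]
  · simp only [Pi.smul_apply, smul_eq_mul, ← Finset.mul_sum]
    rw [Int.mul_emod, hl.2]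
    simp

/-- the symmetries -/
private def Sy (g : Matrix (Fin 8) (Fin 8) ℝ) : Prop :=
  gᵀ * g = 1 ∧ g * gᵀ = 1 ∧ ∀ y, g *ᵥ y ∈ VV ↔ y ∈ VV

private theorem Sy.mul {g h : Matrix (Fin 8) (Fin 8) ℝ} (hg : Sy g) (hh : Sy h) : Sy (g * h) := by
  refine ⟨?_, ?_, fun y => ?_⟩
  · rw [transpose_mul, Matrix.mul_assoc, ← Matrix.mul_assoc gᵀ, hg.1, Matrix.one_mul, hh.1]
  · rw [transpose_mul, Matrix.mul_assoc, ← Matrix.mul_assoc h, hh.2.1, Matrix.one_mul, hg.2.1]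
  · rw [← mulVec_mulVec, hg.2.2, hh.2.2]

private theorem sy_Rf_neg {k : Fin 8 → ℤ} (hk : k ∈ Rf) : -k ∈ Rf := by
  rw [mem_Rf] at hk ⊢
  refine ⟨InE_neg hk.1, ?_⟩
  rw [sy_hv_neg, neg_dotProduct, dotProduct_neg, neg_neg]
  exact hk.2

private theorem sy_Sy_neg : Sy (-1) := by
  have h : ∀ y : Fin 8 → ℝ, y ∈ VV → -y ∈ VV := by
    intro y hy k hk
    have h1 := hy _ (sy_Rf_neg hk)
    rw [sy_hv_neg, dotProduct_neg] at h1
    rwa [neg_dotProduct]
  refine ⟨by simp, by simp, fun y => ?_⟩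
  rw [neg_mulVec, one_mulVec]
  refine ⟨fun h1 => ?_, h y⟩
  have h2 := h _ h1
  rwa [neg_neg] at h2

/-- the reflection in a root -/
private noncomputable def Re (l : Fin 8 → ℤ) : Matrix (Fin 8) (Fin 8) ℝ :=
  1 - vecMulVec (hv l) (hv l)

private theorem sy_Re_mulVec (l : Fin 8 → ℤ) (y : Fin 8 → ℝ) :
    Re l *ᵥ y = y - (hv l ⬝ᵥ y) • hv l := by
  unfold Re
  rw [sub_mulVec, one_mulVec, vecMulVec_mulVec]
  ext i
  simp

private theorem sy_Re_inv {l : Fin 8 → ℤ} (hl : l ∈ Rf) (y : Fin 8 → ℝ) :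
    Re l *ᵥ (Re l *ᵥ y) = y := by
  have h2 := (mem_Rf.1 hl).2
  rw [sy_Re_mulVec l y, sy_Re_mulVec, dotProduct_sub, dotProduct_smul, h2]
  ext i
  simp only [Pi.sub_apply, Pi.smul_apply, smul_eq_mul]
  ring

private theorem sy_Re_sq {l : Fin 8 → ℤ} (hl : l ∈ Rf) : Re l * Re l = 1 := by
  refine Matrix.toLin'.injective (LinearMap.ext fun y => ?_)
  rw [Matrix.toLin'_mul, LinearMap.comp_apply, Matrix.toLin'_apply, Matrix.toLin'_apply,
    sy_Re_inv hl, Matrix.toLin'_one, LinearMap.id_apply]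

private theorem sy_Re_tr (l : Fin 8 → ℤ) : (Re l)ᵀ = Re l := by
  unfold Re
  rw [transpose_sub, transpose_one]
  congr 1
  ext i j
  simp [vecMulVec_apply, mul_comm]

private theorem sy_Re_root {l k : Fin 8 → ℤ} (hl : l ∈ Rf) (hk : k ∈ Rf) :
    ∃ k' ∈ Rf, hv k' = Re l *ᵥ hv k := by
  obtain ⟨hl1, hl2⟩ := mem_Rf.1 hl
  obtain ⟨hk1, hk2⟩ := mem_Rf.1 hk
  obtain ⟨m, hm⟩ := hv_int hl1 hk1
  have e : hv (k - m • l) = Re l *ᵥ hv k := by
    rw [sy_hv_sub, sy_Re_mulVec, hm]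
  refine ⟨k - m • l, mem_Rf.2 ⟨?_, ?_⟩, e⟩
  · rw [sub_eq_add_neg]
    exact InE_add hk1 (InE_neg (sy_InE_smul hl1 m))
  · have hm' : hv k ⬝ᵥ hv l = (m : ℝ) := by rw [dotProduct_comm]; exact hm
    rw [sy_hv_sub, sub_dotProduct, dotProduct_sub, dotProduct_sub, smul_dotProduct, dotProduct_smul,
      smul_dotProduct, dotProduct_smul, hk2, hl2, hm, hm']
    simp only [smul_eq_mul]
    ring

private theorem sy_Sy_Re {l : Fin 8 → ℤ} (hl : l ∈ Rf) : Sy (Re l) := by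
  have h : ∀ y : Fin 8 → ℝ, y ∈ VV → Re l *ᵥ y ∈ VV := by
    intro y hy k hk
    obtain ⟨k', hk', e⟩ := sy_Re_root hl hk
    have h1 := hy k' hk'
    rw [e] at h1
    have h2 : (Re l *ᵥ y) ⬝ᵥ hv k = y ⬝ᵥ (Re l *ᵥ hv k) := by
      rw [dotProduct_mulVec, ← mulVec_transpose, sy_Re_tr]
    rwa [h2]
  refine ⟨by rw [sy_Re_tr, sy_Re_sq hl], by rw [sy_Re_tr, sy_Re_sq hl], fun y => ⟨fun h1 => ?_, h y⟩⟩
  have h2 := h _ h1
  rwa [sy_Re_inv hl] at h2

/-- one sy_step: two roots with inner product `± 1` -/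
private theorem sy_step {a b : Fin 8 → ℤ} (ha : a ∈ Rf) (hb : b ∈ Rf)
    (h : hv a ⬝ᵥ hv b = 1 ∨ hv a ⬝ᵥ hv b = -1) : ∃ g, Sy g ∧ g *ᵥ hv a = hv b := by
  obtain ⟨ha1, ha2⟩ := mem_Rf.1 ha
  obtain ⟨hb1, hb2⟩ := mem_Rf.1 hb
  rcases h with h | h
  · have h' : hv b ⬝ᵥ hv a = 1 := by rw [dotProduct_comm]; exact h
    have e : hv (b + -a) = hv b - hv a := by rw [sy_hv_add, sy_hv_neg, sub_eq_add_neg]
    have hr : b + -a ∈ Rf := by
      refine mem_Rf.2 ⟨InE_add hb1 (InE_neg ha1), ?_⟩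
      rw [e, sub_dotProduct, dotProduct_sub, dotProduct_sub, ha2, hb2, h, h']
      norm_num
    refine ⟨Re (b + -a), sy_Sy_Re hr, ?_⟩
    rw [sy_Re_mulVec, e, sub_dotProduct, ha2, h']
    ext i
    simp only [Pi.sub_apply, Pi.smul_apply, smul_eq_mul]
    ring
  · have h' : hv b ⬝ᵥ hv a = -1 := by rw [dotProduct_comm]; exact h
    have e : hv (b + a) = hv b + hv a := sy_hv_add b a
    have hr : b + a ∈ Rf := by
      refine mem_Rf.2 ⟨InE_add hb1 ha1, ?_⟩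
      rw [e, add_dotProduct, dotProduct_add, dotProduct_add, ha2, hb2, h, h']
      norm_num
    refine ⟨-1 * Re (b + a), sy_Sy_neg.mul (sy_Sy_Re hr), ?_⟩
    rw [← mulVec_mulVec, sy_Re_mulVec, e, add_dotProduct, ha2, h', neg_mulVec, one_mulVec]
    ext i
    simp only [Pi.neg_apply, Pi.sub_apply, Pi.smul_apply, Pi.add_apply, smul_eq_mul]
    ring

private theorem sy_eq_of_two {a b : Fin 8 → ℤ} (ha : a ∈ Rf) (hb : b ∈ Rf)
    (h : hv a ⬝ᵥ hv b = 2) : hv a = hv b := by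
  have ha2 := (mem_Rf.1 ha).2
  have hb2 := (mem_Rf.1 hb).2
  have h' : hv b ⬝ᵥ hv a = 2 := by rw [dotProduct_comm]; exact h
  have h1 : (hv a - hv b) ⬝ᵥ (hv a - hv b) = 0 := by
    rw [sub_dotProduct, dotProduct_sub, dotProduct_sub, ha2, hb2, h, h']
    norm_num
  exact sub_eq_zero.1 (dotProduct_self_eq_zero.1 h1)

private theorem sy_int_bound {a b : Fin 8 → ℤ} (ha : a ∈ Rf) (hb : b ∈ Rf) :
    ∃ m : ℤ, hv a ⬝ᵥ hv b = (m : ℝ) ∧ -2 ≤ m ∧ m ≤ 2 := by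
  obtain ⟨ha1, ha2⟩ := mem_Rf.1 ha
  obtain ⟨hb1, hb2⟩ := mem_Rf.1 hb
  obtain ⟨m, hm⟩ := hv_int ha1 hb1
  have hm' : hv b ⬝ᵥ hv a = (m : ℝ) := by rw [dotProduct_comm]; exact hm
  have nn : ∀ x : Fin 8 → ℝ, 0 ≤ x ⬝ᵥ x := fun x => by
    unfold dotProduct
    exact Finset.sum_nonneg fun i _ => mul_self_nonneg _
  have h1 := nn (hv a - hv b)
  have h2 := nn (hv a + hv b)
  rw [sub_dotProduct, dotProduct_sub, dotProduct_sub, ha2, hb2, hm, hm'] at h1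
  rw [add_dotProduct, dotProduct_add, dotProduct_add, ha2, hb2, hm, hm'] at h2
  refine ⟨m, hm, ?_, ?_⟩
  · have : (-2 : ℝ) ≤ (m : ℝ) := by linarith
    exact_mod_cast this
  · have : (m : ℝ) ≤ 2 := by linarith
    exact_mod_cast this

private theorem sy_Sy_one : Sy 1 := ⟨by simp, by simp, fun y => by rw [one_mulVec]⟩

/-- two roots which are not orthogonal -/
private theorem sy_near {a b : Fin 8 → ℤ} (ha : a ∈ Rf) (hb : b ∈ Rf) (h : hv a ⬝ᵥ hv b ≠ 0) :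
    ∃ g, Sy g ∧ g *ᵥ hv a = hv b := by
  obtain ⟨m, hm, h1, h2⟩ := sy_int_bound ha hb
  rw [hm] at h
  have h0 : m ≠ 0 := by
    rintro rfl
    exact h (by simp)
  have hc : m = -2 ∨ m = -1 ∨ m = 1 ∨ m = 2 := by omega
  rcases hc with rfl | rfl | rfl | rfl
  · refine ⟨-1, sy_Sy_neg, ?_⟩
    have h3 : hv (-a) = hv b := sy_eq_of_two (sy_Rf_neg ha) hb (by
      rw [sy_hv_neg, neg_dotProduct, hm]
      norm_num)
    rw [neg_mulVec, one_mulVec, ← h3, sy_hv_neg]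
  · exact sy_step ha hb (Or.inr (by rw [hm]; norm_num))
  · exact sy_step ha hb (Or.inl (by rw [hm]; norm_num))
  · refine ⟨1, sy_Sy_one, ?_⟩
    rw [one_mulVec]
    exact sy_eq_of_two ha hb (by rw [hm]; norm_num)

/-- the roots `± e_a ± e_j` -/
private def sy_rr (a j : Fin 8) (σ : ℤ) : Fin 8 → ℤ := fun i => if i = a then 2 else if i = j then 2 * σ else 0

private theorem sy_rr_dot (a j : Fin 8) (haj : a ≠ j) (σ : ℤ) (k : Fin 8 → ℤ) :
    hv (sy_rr a j σ) ⬝ᵥ hv k = ((k a : ℝ) + σ * k j) / 2 := by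
  have e : ∀ i, hv (sy_rr a j σ) i * hv k i =
      (if i = a then (k a : ℝ) / 2 else 0) + (if i = j then (σ : ℝ) * k j / 2 else 0) := by
    intro i
    unfold hv sy_rr
    by_cases h1 : i = a
    · subst h1
      simp [haj]
    · by_cases h2 : i = j
      · subst h2
        simp [h1, mul_div_assoc]
      · simp [h1, h2]
  unfold dotProduct
  simp only [e, Finset.sum_add_distrib, Finset.sum_ite_eq', Finset.mem_univ, if_true]
  ring

private theorem sy_rr_mem (a j : Fin 8) (haj : a ≠ j) (σ : ℤ) (hσ : σ = 1 ∨ σ = -1) :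
    sy_rr a j σ ∈ Rf := by
  refine mem_Rf.2 ⟨?_, ?_⟩
  · rcases hσ with rfl | rfl
    · revert a j
      decide
    · revert a j
      decide
  · rw [sy_rr_dot a j haj]
    have h1 : sy_rr a j σ a = 2 := by simp [sy_rr]
    have h2 : sy_rr a j σ j = 2 * σ := by simp [sy_rr, haj.symm]
    rw [h1, h2]
    rcases hσ with rfl | rfl <;> norm_num

private theorem sy_u0_mem : u0 ∈ Rf := by
  have h : u0 = sy_rr 0 1 1 := by
    ext i
    fin_cases i <;> rfl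
  rw [h]
  exact sy_rr_mem 0 1 (by decide) 1 (Or.inl rfl)

private theorem sy_rr_u0 (a j : Fin 8) (ha : a = 0 ∨ a = 1) (hj : j ≠ 0 ∧ j ≠ 1) (haj : a ≠ j) (σ : ℤ) :
    hv u0 ⬝ᵥ hv (sy_rr a j σ) ≠ 0 := by
  rw [dotProduct_comm, sy_rr_dot a j haj]
  have h1 : u0 a = 2 := by rcases ha with rfl | rfl <;> rfl
  have h2 : u0 j = 0 := by
    revert hj
    fin_cases j <;> simp [u0]
  rw [h1, h2]
  norm_num

theorem exists_sym {k : Fin 8 → ℤ} (hk : k ∈ Rf) : ∃ g : Matrix (Fin 8) (Fin 8) ℝ,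
    gᵀ * g = 1 ∧ g * gᵀ = 1 ∧ g *ᵥ hv u0 = hv k ∧ (∀ y, g *ᵥ y ∈ VV ↔ y ∈ VV) := by
  suffices h : ∃ g, Sy g ∧ g *ᵥ hv u0 = hv k by
    obtain ⟨g, hg, e⟩ := h
    exact ⟨g, hg.1, hg.2.1, e, hg.2.2⟩
  by_cases h0 : hv u0 ⬝ᵥ hv k = 0
  · -- an intermediate root
    have hex : ∃ l ∈ Rf, hv u0 ⬝ᵥ hv l ≠ 0 ∧ hv l ⬝ᵥ hv k ≠ 0 := by
      by_contra hcon
      push Not at hcon
      have hz : ∀ a j : Fin 8, (a = 0 ∨ a = 1) → (j ≠ 0 ∧ j ≠ 1) → k a = 0 ∧ k j = 0 := by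
        intro a j ha hj
        have haj : a ≠ j := by
          rcases ha with rfl | rfl
          · exact hj.1.symm
          · exact hj.2.symm
        have e1 := hcon _ (sy_rr_mem a j haj 1 (Or.inl rfl)) (sy_rr_u0 a j ha hj haj 1)
        have e2 := hcon _ (sy_rr_mem a j haj (-1) (Or.inr rfl)) (sy_rr_u0 a j ha hj haj (-1))
        rw [sy_rr_dot a j haj] at e1 e2
        push_cast at e1 e2
        constructor
        · have : (k a : ℝ) = 0 := by linarith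
          exact_mod_cast this
        · have : (k j : ℝ) = 0 := by linarith
          exact_mod_cast this
      have hall : ∀ i, k i = 0 := by
        intro i
        by_cases h1 : i = 0
        · rw [h1]
          exact (hz 0 2 (Or.inl rfl) ⟨by decide, by decide⟩).1
        by_cases h2 : i = 1
        · rw [h2]
          exact (hz 1 2 (Or.inr rfl) ⟨by decide, by decide⟩).1
        exact (hz 0 i (Or.inl rfl) ⟨h1, h2⟩).2
      have h3 := (mem_Rf.1 hk).2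
      have h4 : hv k = 0 := by
        ext i
        simp [hv, hall i]
      rw [h4] at h3
      simp at h3
    obtain ⟨l, hl, h1, h2⟩ := hex
    obtain ⟨g, hg, eg⟩ := sy_near sy_u0_mem hl h1
    obtain ⟨g', hg', eg'⟩ := sy_near hl hk h2
    exact ⟨g' * g, hg'.mul hg, by rw [← mulVec_mulVec, eg, eg']⟩
  · exact sy_near sy_u0_mem hk h0

end Pool.Agent.H99E
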