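import Pool.Agent.H99E.Defs

set_option autoImplicit false

/-! # Transport of integrals by a symmetry (helper94) -/

namespace Pool.Agent.H99E

open MeasureTheory Matrix

theorem sym_int {g : Matrix (Fin 8) (Fin 8) ℝ} (hg : gᵀ * g = 1) (hV : ∀ y, g *ᵥ y ∈ VV ↔ y ∈ VV)
    (f : (Fin 8 → ℝ) → ℝ) : ∫ y in VV, f (g *ᵥ y) = ∫ y in VV, f y := by
  have hdet : g.det * g.det = 1 := by
    have h1 := congrArg Matrix.det hg
    rwa [Matrix.det_mul, Matrix.det_transpose, Matrix.det_one] at h1
  have hdet0 : g.det ≠ 0 := by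
    intro h
    rw [h, mul_zero] at hdet
    exact zero_ne_one hdet
  have habs : |g.det| = 1 := by
    have h1 : |g.det| * |g.det| = 1 := by rw [abs_mul_abs_self, hdet]
    nlinarith [abs_nonneg g.det]
  have hmap := Real.map_matrix_volume_pi_eq_smul_volume_pi hdet0
  have h1 : ENNReal.ofReal |g.det⁻¹| = 1 := by
    rw [abs_inv, habs, inv_one, ENNReal.ofReal_one]
  rw [h1, one_smul] at hmap
  have hmeas : Measurable (Matrix.toLin' g) :=
    (LinearMap.continuous_of_finiteDimensional (Matrix.toLin' g)).measurable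
  have hmp : MeasurePreserving (Matrix.toLin' g) (volume : Measure (Fin 8 → ℝ)) volume :=
    ⟨hmeas, hmap⟩
  have hinj : Function.Injective (Matrix.toLin' g) := by
    intro x y hxy
    have h2 : gᵀ *ᵥ (g *ᵥ x) = gᵀ *ᵥ (g *ᵥ y) := by
      simpa only [Matrix.toLin'_apply] using congrArg (fun z => gᵀ *ᵥ z) hxy
    rwa [Matrix.mulVec_mulVec, Matrix.mulVec_mulVec, hg, Matrix.one_mulVec, Matrix.one_mulVec]
      at h2
  have hemb : MeasurableEmbedding (Matrix.toLin' g) :=
    (LinearMap.continuous_of_finiteDimensional (Matrix.toLin' g)).measurableEmbedding hinj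
  have h3 := hmp.setIntegral_preimage_emb hemb f VV
  have hpre : (Matrix.toLin' g) ⁻¹' VV = VV := by
    ext y
    rw [Set.mem_preimage, Matrix.toLin'_apply]
    exact hV y
  rw [hpre] at h3
  simpa only [Matrix.toLin'_apply] using h3

end Pool.Agent.H99E
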