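import Pool.Agent.H99E.Ball
import Pool.Agent.H99E.Sym
import Pool.Agent.H99E.Tra
import Pool.Agent.H99E.Sum
import Pool.Agent.H99E.Crd

set_option autoImplicit false

/-!
# The cones over the facets
-/

namespace Pool.Agent.H99E

open MeasureTheory Matrix Filter Topology Set

/-- the cone over the facet of a root -/
private def CC (w : Fin 8 → ℝ) : Set (Fin 8 → ℝ) := {y | 0 < y ⬝ᵥ w ∧ (y ⬝ᵥ w)⁻¹ • y ∈ VV}

private theorem CC_le {w y : Fin 8 → ℝ} (hy : y ∈ CC w) {k : Fin 8 → ℤ} (hk : k ∈ Rf) :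
    y ⬝ᵥ hv k ≤ y ⬝ᵥ w := by
  have h := hy.2 k hk
  rw [smul_dotProduct, smul_eq_mul, inv_mul_le_iff₀ hy.1, mul_one] at h
  exact h

private theorem meas_dot (w : Fin 8 → ℝ) : Measurable fun y : Fin 8 → ℝ => y ⬝ᵥ w := by
  unfold dotProduct
  fun_prop

private theorem CC_meas (w : Fin 8 → ℝ) : MeasurableSet (CC w) := by
  refine MeasurableSet.inter (measurableSet_lt measurable_const (meas_dot w)) ?_
  exact (((meas_dot w).inv).smul measurable_id) VV_closed.measurableSet

private theorem null_hyp {w w' : Fin 8 → ℝ} (h : w ≠ w') :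
    volume {y : Fin 8 → ℝ | y ⬝ᵥ w = y ⬝ᵥ w'} = 0 := by
  let L : (Fin 8 → ℝ) →ₗ[ℝ] ℝ :=
    { toFun := fun y => y ⬝ᵥ (w - w')
      map_add' := fun a b => add_dotProduct _ _ _
      map_smul' := fun c a => smul_dotProduct _ _ _ }
  have e : {y : Fin 8 → ℝ | y ⬝ᵥ w = y ⬝ᵥ w'} = (LinearMap.ker L : Set (Fin 8 → ℝ)) := by
    ext y
    rw [SetLike.mem_coe, LinearMap.mem_ker]
    change y ⬝ᵥ w = y ⬝ᵥ w' ↔ y ⬝ᵥ (w - w') = 0
    rw [dotProduct_sub, sub_eq_zero]
  rw [e]
  apply Measure.addHaar_submodule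
  intro htop
  have h1 : L (w - w') = 0 := by
    have : (w - w') ∈ LinearMap.ker L := by rw [htop]; trivial
    exact this
  change (w - w') ⬝ᵥ (w - w') = 0 at h1
  exact h (sub_eq_zero.1 (dotProduct_self_eq_zero.1 h1))

private theorem hv_inj {k l : Fin 8 → ℤ} (h : hv k = hv l) : k = l := by
  ext i
  have := congrFun h i
  simp only [hv] at this
  have h2 : (k i : ℝ) = l i := by linarith
  exact_mod_cast h2

private theorem ff_int : IntegrableOn (fun y : Fin 8 → ℝ => y ⬝ᵥ y) VV := by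
  refine ContinuousOn.integrableOn_compact VV_compact ?_
  apply Continuous.continuousOn
  unfold dotProduct
  fun_prop

private theorem ff_nonneg (y : Fin 8 → ℝ) : 0 ≤ y ⬝ᵥ y := by
  unfold dotProduct
  exact Finset.sum_nonneg fun i _ => mul_self_nonneg _

private theorem sum_cones :
    ∑ k ∈ Rf, ∫ y in VV, (CC (hv k)).indicator (fun y => y ⬝ᵥ y) y ≤ GG := by
  rw [← integral_finsetSum _ (fun k _ => ff_int.indicator (CC_meas _)), GG]
  have hae : ∀ᵐ y : Fin 8 → ℝ, ∀ k ∈ Rf, ∀ l ∈ Rf, k ≠ l → y ⬝ᵥ hv k ≠ y ⬝ᵥ hv l := by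
    rw [Filter.eventually_all_finset]
    intro k _
    rw [Filter.eventually_all_finset]
    intro l _
    by_cases hkl : k = l
    · exact Filter.Eventually.of_forall fun y h => absurd hkl h
    · have h0 := null_hyp (fun h => hkl (hv_inj h))
      rw [measure_eq_zero_iff_ae_notMem] at h0
      filter_upwards [h0] with y hy _ using hy
  refine integral_mono_ae ?_ ff_int (ae_restrict_of_ae ?_)
  · exact integrable_finsetSum _ (fun k _ => ff_int.indicator (CC_meas _))
  · filter_upwards [hae] with y hy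
    by_cases hex : ∃ k ∈ Rf, y ∈ CC (hv k)
    · obtain ⟨k, hk, hyk⟩ := hex
      rw [Finset.sum_eq_single k]
      · rw [Set.indicator_of_mem hyk]
      · intro l hl hlk
        apply Set.indicator_of_notMem
        intro hyl
        exact hy l hl k hk hlk (le_antisymm (CC_le hyk hl) (CC_le hyl hk))
      · intro h
        exact absurd hk h
    · push Not at hex
      rw [Finset.sum_eq_zero]
      · exact ff_nonneg y
      · intro k hk
        exact Set.indicator_of_notMem (hex k hk) _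

private theorem dot_g {g : Matrix (Fin 8) (Fin 8) ℝ} (hg : gᵀ * g = 1) (a b : Fin 8 → ℝ) :
    (g *ᵥ a) ⬝ᵥ (g *ᵥ b) = a ⬝ᵥ b := by
  rw [dotProduct_mulVec, ← mulVec_transpose, mulVec_mulVec, hg, one_mulVec]

private theorem cone_eq {k : Fin 8 → ℤ} (hk : k ∈ Rf) :
    ∫ y in VV, (CC (hv k)).indicator (fun y => y ⬝ᵥ y) y =
      ∫ y in VV, (CC (hv u0)).indicator (fun y => y ⬝ᵥ y) y := by
  obtain ⟨g, hg, -, hgu, hgV⟩ := exists_sym hk
  rw [← sym_int hg hgV]
  refine integral_congr_ae (Filter.Eventually.of_forall fun y => ?_)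
  have h1 : (g *ᵥ y) ⬝ᵥ hv k = y ⬝ᵥ hv u0 := by rw [← hgu, dot_g hg]
  have hiff : g *ᵥ y ∈ CC (hv k) ↔ y ∈ CC (hv u0) := by
    unfold CC
    rw [Set.mem_ofPred_eq, Set.mem_ofPred_eq, h1, ← mulVec_smul, hgV]
  change (CC (hv k)).indicator (fun y => y ⬝ᵥ y) (g *ᵥ y) =
    (CC (hv u0)).indicator (fun y => y ⬝ᵥ y) y
  by_cases hy : y ∈ CC (hv u0)
  · rw [Set.indicator_of_mem hy, Set.indicator_of_mem (hiff.2 hy), dot_g hg]
  · rw [Set.indicator_of_notMem hy, Set.indicator_of_notMem (fun h => hy (hiff.1 h))]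

private theorem yy_dot_u (p : ℝ) (z : Fin 7 → ℝ) : yy p z ⬝ᵥ hv u0 = p := by
  simp [dotProduct, Fin.sum_univ_succ, yy, hv, u0]

private theorem yy_dot_self (p : ℝ) (z : Fin 7 → ℝ) : yy p z ⬝ᵥ yy p z = p ^ 2 / 2 + NN z := by
  simp [dotProduct, Fin.sum_univ_succ, yy, NN]
  ring

private theorem yy_smul (c p : ℝ) (z : Fin 7 → ℝ) : c • yy p z = yy (c * p) (c • z) := by
  ext i
  fin_cases i <;> simp [yy] <;> ring

private theorem NN_smul (c : ℝ) (z : Fin 7 → ℝ) : NN (c • z) = c ^ 2 * NN z := by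
  simp only [NN, Pi.smul_apply, smul_eq_mul]
  ring

private theorem NN_nonneg (z : Fin 7 → ℝ) : 0 ≤ NN z := by
  unfold NN
  positivity

private theorem NN_cont : Continuous NN := by
  unfold NN
  fun_prop

/-- the cone in coordinates -/
private def DC : Set (ℝ × (Fin 7 → ℝ)) := {q | (0 < q.1 ∧ q.1 ≤ 1) ∧ q.1⁻¹ • q.2 ∈ Z0}

private theorem DC_meas : MeasurableSet DC := by
  refine MeasurableSet.inter (MeasurableSet.inter ?_ ?_) ?_
  · exact measurableSet_lt measurable_const measurable_fst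
  · exact measurableSet_le measurable_fst measurable_const
  · exact ((measurable_fst.inv).smul measurable_snd) Z0_compact.isClosed.measurableSet

private noncomputable def GC (q : ℝ × (Fin 7 → ℝ)) : ℝ :=
  DC.indicator (fun q => q.1 ^ 2 / 2 + NN q.2) q

private theorem GC_le (q : ℝ × (Fin 7 → ℝ)) : GC q ≤
    VV.indicator ((CC (hv u0)).indicator fun y => y ⬝ᵥ y) (yy q.1 q.2) := by
  unfold GC
  by_cases hq : q ∈ DC
  · obtain ⟨⟨h0, h1⟩, h2⟩ := hq
    have e1 : q.1⁻¹ • yy q.1 q.2 = yy 1 (q.1⁻¹ • q.2) := by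
      rw [yy_smul, inv_mul_cancel₀ h0.ne']
    have hC : yy q.1 q.2 ∈ CC (hv u0) := by
      refine ⟨?_, ?_⟩
      · rw [yy_dot_u]; exact h0
      · rw [yy_dot_u, e1]; exact h2
    have hV : yy q.1 q.2 ∈ VV := by
      intro k hk
      have h3 := CC_le hC hk
      rw [yy_dot_u] at h3
      exact h3.trans h1
    rw [Set.indicator_of_mem (show q ∈ DC from ⟨⟨h0, h1⟩, h2⟩), Set.indicator_of_mem hV,
      Set.indicator_of_mem hC, yy_dot_self]
  · rw [Set.indicator_of_notMem hq]
    exact Set.indicator_nonneg (fun y _ => Set.indicator_nonneg (fun y _ => ff_nonneg y) y) _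

private theorem GC_nonneg (q : ℝ × (Fin 7 → ℝ)) : 0 ≤ GC q :=
  Set.indicator_nonneg (fun q _ => add_nonneg (by positivity) (NN_nonneg _)) q

private theorem H_int : Integrable (fun q : ℝ × (Fin 7 → ℝ) =>
    VV.indicator ((CC (hv u0)).indicator fun y => y ⬝ᵥ y) (yy q.1 q.2)) := by
  have h1 : Integrable (VV.indicator ((CC (hv u0)).indicator fun y : Fin 8 → ℝ => y ⬝ᵥ y)) := by
    rw [integrable_indicator_iff VV_closed.measurableSet]
    exact ff_int.indicator (CC_meas _)
  exact (yy_mp.integrable_comp_emb yy_emb).2 h1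

private theorem GC_int : Integrable GC := by
  refine H_int.mono' ?_ (Filter.Eventually.of_forall fun q => ?_)
  · refine (Measurable.indicator ?_ DC_meas).aestronglyMeasurable
    exact ((measurable_fst.pow_const 2).div_const 2).add (NN_cont.measurable.comp measurable_snd)
  · rw [Real.norm_of_nonneg (GC_nonneg q)]
    exact GC_le q

private theorem inner_int {t : ℝ} (ht : 0 < t) (ht1 : t ≤ 1) :
    ∫ z : Fin 7 → ℝ, GC (t, z) = t ^ 9 * ∫ z in Z0, (1 / 2 + NN z) := by
  have h1 : ∀ z : Fin 7 → ℝ, GC (t, z) =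
      Z0.indicator (fun z => t ^ 2 * (1 / 2 + NN z)) (t⁻¹ • z) := by
    intro z
    unfold GC
    by_cases hz : t⁻¹ • z ∈ Z0
    · rw [Set.indicator_of_mem hz, Set.indicator_of_mem (show (t, z) ∈ DC from ⟨⟨ht, ht1⟩, hz⟩),
        NN_smul]
      field_simp
    · rw [Set.indicator_of_notMem hz, Set.indicator_of_notMem (fun h => hz h.2)]
  rw [integral_congr_ae (Filter.Eventually.of_forall h1)]
  rw [Measure.integral_comp_smul (μ := volume)
    (fun z => Z0.indicator (fun z => t ^ 2 * (1 / 2 + NN z)) z) t⁻¹]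
  rw [integral_indicator Z0_compact.isClosed.measurableSet, integral_const_mul]
  have e : Module.finrank ℝ (Fin 7 → ℝ) = 7 := by simp
  rw [e, inv_pow, inv_inv, abs_of_pos (by positivity), smul_eq_mul]
  ring

private theorem cone_u : (1 / 10) * ((volume Z0).toReal / 2 + ∫ z in Z0, NN z) ≤
    ∫ y in VV, (CC (hv u0)).indicator (fun y => y ⬝ᵥ y) y := by
  rw [← integral_indicator VV_closed.measurableSet, ← yy_mp.integral_comp yy_emb]
  refine le_trans (le_of_eq ?_) (integral_mono GC_int H_int GC_le)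
  rw [Measure.volume_eq_prod, integral_prod _ (by rw [← Measure.volume_eq_prod]; exact GC_int)]
  have h1 : ∀ t : ℝ, ∫ z : Fin 7 → ℝ, GC (t, z) =
      (Ioc (0 : ℝ) 1).indicator (fun t => t ^ 9 * ∫ z in Z0, (1 / 2 + NN z)) t := by
    intro t
    by_cases ht : t ∈ Ioc (0 : ℝ) 1
    · rw [Set.indicator_of_mem ht, inner_int ht.1 ht.2]
    · rw [Set.indicator_of_notMem ht]
      have : ∀ z : Fin 7 → ℝ, GC (t, z) = 0 := by
        intro z
        unfold GC
        exact Set.indicator_of_notMem (fun h => ht h.1) _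
      simp [this]
  rw [integral_congr_ae (Filter.Eventually.of_forall h1), integral_indicator measurableSet_Ioc,
    integral_mul_const, ← intervalIntegral.integral_of_le zero_le_one, integral_pow]
  have h2 : ∫ z in Z0, (1 / 2 + NN z) = (volume Z0).toReal / 2 + ∫ z in Z0, NN z := by
    rw [integral_add]
    · rw [setIntegral_const, smul_eq_mul, Measure.real]
      ring
    · exact integrableOn_const Z0_compact.measure_lt_top.ne
    · exact NN_cont.continuousOn.integrableOn_compact Z0_compact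
  rw [h2]
  norm_num

theorem cones : 12 * (volume Z0).toReal + 24 * ∫ z in Z0, NN z ≤ GG := by
  have h1 := sum_cones
  rw [Finset.sum_congr rfl fun k hk => cone_eq hk, Finset.sum_const, card_Rf] at h1
  have h2 := cone_u
  rw [nsmul_eq_mul] at h1
  push_cast at h1
  linarith

end Pool.Agent.H99E
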