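import Pool.Agent.H99E.Defs

set_option autoImplicit false

/-! # Determinant and trace of `1 + B` (helper55) -/

namespace Pool.Agent.H99E

open MeasureTheory Matrix

private theorem log_aux {β x : ℝ} (hβ' : β ≤ 1 / 8) (hx : |x| ≤ β) :
    Real.log (1 + x) ≤ x - x ^ 2 / 2 + β * x ^ 2 := by
  have h0 : 0 ≤ |x| := abs_nonneg x
  have h1 : |-x| < 1 := by rw [abs_neg]; linarith
  have h2 := Real.abs_log_sub_add_sum_range_le h1 3
  rw [abs_neg] at h2
  have h3 := (abs_le.1 h2).2
  have h4 : ∑ i ∈ Finset.range 3, (-x) ^ (i + 1) / ((i : ℝ) + 1) = -x + x ^ 2 / 2 - x ^ 3 / 3 := by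
    simp only [Finset.sum_range_succ, Finset.sum_range_zero]
    norm_num
    ring
  rw [h4, sub_neg_eq_add] at h3
  have h5 : |x| ^ (3 + 1) / (1 - |x|) ≤ β * x ^ 2 / 7 := by
    rw [div_le_iff₀ (by linarith)]
    have h6 : |x| ^ (3 + 1) = x ^ 2 * |x| * |x| := by
      rw [show (3 + 1) = 2 + 1 + 1 from rfl, pow_succ, pow_succ, sq_abs]
    rw [h6]
    have h7 : 0 ≤ x ^ 2 := sq_nonneg x
    have h8 : x ^ 2 * |x| * |x| ≤ x ^ 2 * β * (1 / 8) := by
      apply mul_le_mul _ (by linarith) h0 (mul_nonneg h7 (le_trans h0 hx))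
      exact mul_le_mul_of_nonneg_left hx h7
    have h9 : β * x ^ 2 / 7 * (7 / 8) ≤ β * x ^ 2 / 7 * (1 - |x|) := by
      apply mul_le_mul_of_nonneg_left (by linarith)
      exact div_nonneg (mul_nonneg (le_trans h0 hx) h7) (by norm_num)
    linarith
  have h6 : x ^ 3 / 3 ≤ β * x ^ 2 / 3 := by
    have : x ^ 3 ≤ β * x ^ 2 := by
      have h7 : x ≤ β := le_trans (le_abs_self x) hx
      nlinarith [sq_nonneg x]
    linarith
  have h7 : 0 ≤ β * x ^ 2 := mul_nonneg (le_trans h0 hx) (sq_nonneg x)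
  linarith

private theorem spec {B : Matrix (Fin 8) (Fin 8) ℝ} (hH : B.IsHermitian) :
    ∃ U : Matrix (Fin 8) (Fin 8) ℝ, ∃ V : Matrix (Fin 8) (Fin 8) ℝ, V * U = 1 ∧ U * V = 1 ∧
      B = U * diagonal hH.eigenvalues * V := by
  refine ⟨hH.eigenvectorUnitary, star (hH.eigenvectorUnitary : Matrix (Fin 8) (Fin 8) ℝ),
    ?_, ?_, ?_⟩
  · exact Unitary.coe_star_mul_self _
  · exact Unitary.coe_mul_star_self _
  · conv_lhs => rw [hH.spectral_theorem, Unitary.conjStarAlgAut_apply]
    rfl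

private theorem det_one_add {B : Matrix (Fin 8) (Fin 8) ℝ} (hH : B.IsHermitian) :
    (1 + B).det = ∏ i, (1 + hH.eigenvalues i) := by
  obtain ⟨U, V, hVU, hUV, hB⟩ := spec hH
  have h1 : 1 + B = U * (1 + diagonal hH.eigenvalues) * V := by
    rw [mul_add, add_mul, mul_one, hUV, ← hB]
  have h2 : (1 : Matrix (Fin 8) (Fin 8) ℝ) + diagonal hH.eigenvalues =
      diagonal (fun i => 1 + hH.eigenvalues i) := by
    rw [← diagonal_one, diagonal_add]
  have h3 : U.det * V.det = 1 := by rw [← det_mul, hUV, det_one]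
  rw [h1, det_mul, det_mul, h2, det_diagonal, mul_assoc, mul_comm, mul_assoc, mul_comm V.det, h3,
    mul_one]

private theorem fro_eq {B : Matrix (Fin 8) (Fin 8) ℝ} (hH : B.IsHermitian) :
    fro B = ∑ i, hH.eigenvalues i ^ 2 := by
  obtain ⟨U, V, hVU, hUV, hB⟩ := spec hH
  have h1 : fro B = (B * B).trace := by
    have hs : ∀ i j, B i j = B j i := fun i j => by
      have := hH.apply i j
      simpa using this.symm
    simp only [fro, Matrix.trace, Matrix.diag, Matrix.mul_apply]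
    refine Finset.sum_congr rfl fun i _ => Finset.sum_congr rfl fun j _ => ?_
    rw [sq]
    congr 1
    exact hs i j
  have h2 : B * B = U * (diagonal hH.eigenvalues * diagonal hH.eigenvalues) * V := by
    conv_lhs => rw [hB]
    calc U * diagonal hH.eigenvalues * V * (U * diagonal hH.eigenvalues * V)
        = U * diagonal hH.eigenvalues * (V * U) * (diagonal hH.eigenvalues * V) := by
          simp only [mul_assoc]
      _ = U * (diagonal hH.eigenvalues * diagonal hH.eigenvalues) * V := by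
          rw [hVU, mul_one]; simp only [mul_assoc]
  rw [h1, h2, trace_mul_comm, ← mul_assoc, hVU, one_mul, diagonal_mul_diagonal, trace_diagonal]
  refine Finset.sum_congr rfl fun i _ => by ring

theorem det_tr {B : Matrix (Fin 8) (Fin 8) ℝ} {β : ℝ} (hB : Bᵀ = B) (hβ : 0 ≤ β)
    (hβ' : β ≤ 1 / 8) (hf : fro B = β ^ 2) (hd : (1 + B).det = 1) :
    (1 / 2 - β) * β ^ 2 ≤ B.trace := by
  have hH : B.IsHermitian := by
    rw [Matrix.IsHermitian, Matrix.conjTranspose_eq_transpose_of_trivial, hB]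
  have h1 : ∀ i, |hH.eigenvalues i| ≤ β := by
    intro i
    apply abs_le_of_sq_le_sq _ hβ
    rw [← hf, fro_eq hH]
    exact Finset.single_le_sum (f := fun j => hH.eigenvalues j ^ 2) (fun j _ => sq_nonneg _)
      (Finset.mem_univ i)
  have h2 : Real.log (1 + B).det = ∑ i, Real.log (1 + hH.eigenvalues i) := by
    rw [det_one_add hH, Real.log_prod]
    intro i _
    have := (abs_le.1 (h1 i)).1
    intro h
    linarith
  rw [hd, Real.log_one] at h2
  have h3 : ∑ i, Real.log (1 + hH.eigenvalues i) ≤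
      ∑ i, (hH.eigenvalues i - hH.eigenvalues i ^ 2 / 2 + β * hH.eigenvalues i ^ 2) :=
    Finset.sum_le_sum fun i _ => log_aux hβ' (h1 i)
  rw [← h2, Finset.sum_add_distrib, Finset.sum_sub_distrib, ← Finset.sum_div, ← Finset.mul_sum,
    ← fro_eq hH, hf] at h3
  have h4 : B.trace = ∑ i, hH.eigenvalues i := by
    have := hH.trace_eq_sum_eigenvalues
    simpa using this
  rw [h4]
  linarith

end Pool.Agent.H99E
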