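import Pool.Agent.H99E.Tra
import Pool.Agent.H99E.Ball

set_option autoImplicit false

/-! # Isotropy of the cell (helper55) -/

namespace Pool.Agent.H99E

open MeasureTheory Matrix


/-- the permutation `σ` as a matrix -/
private def pm (σ : Equiv.Perm (Fin 8)) : Matrix (Fin 8) (Fin 8) ℝ :=
  Matrix.of fun a b => if σ a = b then 1 else 0

private theorem pm_mulVec (σ : Equiv.Perm (Fin 8)) (y : Fin 8 → ℝ) : pm σ *ᵥ y = y ∘ σ := by
  funext a
  simp [pm, Matrix.mulVec, dotProduct]

private theorem pm_orth (σ : Equiv.Perm (Fin 8)) : (pm σ)ᵀ * pm σ = 1 := by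
  ext a b
  simp only [pm, Matrix.mul_apply, Matrix.transpose_apply, Matrix.of_apply, Matrix.one_apply]
  rw [Finset.sum_eq_single (σ.symm a)]
  · simp
  · intro c _ hc
    have : σ c ≠ a := fun h => hc (by rw [← h, Equiv.symm_apply_apply])
    simp [this]
  · simp

private theorem Rf_perm (σ : Equiv.Perm (Fin 8)) {k : Fin 8 → ℤ} (hk : k ∈ Rf) : k ∘ σ ∈ Rf := by
  simp only [Rf, Finset.mem_union, Finset.mem_filter, Fintype.mem_piFinset] at hk ⊢
  rcases hk with ⟨h1, h2⟩ | ⟨h1, h2⟩
  · left
    refine ⟨fun a => h1 (σ a), ?_⟩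
    have : ∑ i, (k ∘ σ) i = ∑ i, k i := Equiv.sum_comp σ k
    rw [this, h2]
  · right
    refine ⟨fun a => h1 (σ a), ?_⟩
    have : ∑ i, (k ∘ σ) i ^ 2 = ∑ i, k i ^ 2 := Equiv.sum_comp σ (fun i => k i ^ 2)
    rw [this, h2]

private theorem VV_perm (σ : Equiv.Perm (Fin 8)) {y : Fin 8 → ℝ} (hy : y ∈ VV) : y ∘ σ ∈ VV := by
  intro k hk
  have h1 := hy (k ∘ σ.symm) (Rf_perm σ.symm hk)
  have h2 : (y ∘ σ) ⬝ᵥ hv k = y ⬝ᵥ hv (k ∘ σ.symm) := by
    simp only [dotProduct, hv, Function.comp]
    rw [← Equiv.sum_comp σ (fun i => y i * ((k (σ.symm i) : ℝ) / 2))]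
    simp
  rw [h2]
  exact h1

private theorem pm_VV (σ : Equiv.Perm (Fin 8)) (y : Fin 8 → ℝ) : pm σ *ᵥ y ∈ VV ↔ y ∈ VV := by
  rw [pm_mulVec]
  refine ⟨fun h => ?_, VV_perm σ⟩
  have := VV_perm σ.symm h
  have h2 : (y ∘ σ) ∘ σ.symm = y := by
    funext i; simp
  rwa [h2] at this

/-- the sign change of the coordinates `a` and `b` -/
private def sg (a b : Fin 8) (i : Fin 8) : ℤ := if i = a ∨ i = b then -1 else 1

private theorem sg_sq (a b i : Fin 8) : sg a b i * sg a b i = 1 := by
  unfold sg; split_ifs <;> norm_num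

private theorem Rf_sg {a b : Fin 8} (hab : a ≠ b) {k : Fin 8 → ℤ} (hk : k ∈ Rf) :
    (fun i => sg a b i * k i) ∈ Rf := by
  simp only [Rf, Finset.mem_union, Finset.mem_filter, Fintype.mem_piFinset] at hk ⊢
  rcases hk with ⟨h1, h2⟩ | ⟨h1, h2⟩
  · left
    constructor
    · intro i
      have := h1 i
      simp only [Finset.mem_insert, Finset.mem_singleton] at this ⊢
      unfold sg
      split_ifs <;> omega
    · have h3 : ∑ i, sg a b i * k i = ∑ i, k i - 2 * k a - 2 * k b := by
        have h4 : ∀ i, sg a b i * k i =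
            k i - (if i = a then 2 * k i else 0) - (if i = b then 2 * k i else 0) := by
          intro i
          unfold sg
          by_cases h5 : i = a
          · have h6 : i ≠ b := fun h => hab (h5 ▸ h)
            simp [h5, hab]; ring
          · by_cases h6 : i = b
            · simp [h6, Ne.symm hab]; ring
            · simp [h5, h6]
        rw [Finset.sum_congr rfl fun i _ => h4 i, Finset.sum_sub_distrib, Finset.sum_sub_distrib]
        simp
      rw [h3]
      have ha := h1 a
      have hb := h1 b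
      simp only [Finset.mem_insert, Finset.mem_singleton] at ha hb
      omega
  · right
    constructor
    · intro i
      have := h1 i
      simp only [Finset.mem_insert, Finset.mem_singleton] at this ⊢
      unfold sg
      split_ifs <;> omega
    · rw [← h2]
      refine Finset.sum_congr rfl fun i _ => ?_
      have := sg_sq a b i
      calc (sg a b i * k i) ^ 2 = (sg a b i * sg a b i) * k i ^ 2 := by ring
        _ = k i ^ 2 := by rw [this, one_mul]

/-- the sign change as a matrix -/
private noncomputable def sm (a b : Fin 8) : Matrix (Fin 8) (Fin 8) ℝ :=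
  diagonal fun i => (sg a b i : ℝ)

private theorem sm_mulVec (a b : Fin 8) (y : Fin 8 → ℝ) :
    sm a b *ᵥ y = fun i => (sg a b i : ℝ) * y i := by
  funext i
  simp [sm, Matrix.mulVec_diagonal]

private theorem sm_orth (a b : Fin 8) : (sm a b)ᵀ * sm a b = 1 := by
  rw [sm, diagonal_transpose, diagonal_mul_diagonal, ← diagonal_one]
  congr 1
  funext i
  exact_mod_cast sg_sq a b i

private theorem VV_sg {a b : Fin 8} (hab : a ≠ b) {y : Fin 8 → ℝ} (hy : y ∈ VV) :
    (fun i => (sg a b i : ℝ) * y i) ∈ VV := by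
  intro k hk
  have h1 := hy _ (Rf_sg hab hk)
  refine le_trans (le_of_eq ?_) h1
  simp only [dotProduct, hv]
  refine Finset.sum_congr rfl fun i _ => ?_
  push_cast
  ring

private theorem sm_VV {a b : Fin 8} (hab : a ≠ b) (y : Fin 8 → ℝ) :
    sm a b *ᵥ y ∈ VV ↔ y ∈ VV := by
  rw [sm_mulVec]
  refine ⟨fun h => ?_, VV_sg hab⟩
  have := VV_sg hab h
  have h2 : (fun i => (sg a b i : ℝ) * ((sg a b i : ℝ) * y i)) = y := by
    funext i
    have h3 : (sg a b i : ℝ) * (sg a b i : ℝ) = 1 := by exact_mod_cast sg_sq a b i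
    rw [← mul_assoc, h3, one_mul]
  rwa [h2] at this

private theorem int_cross {i j : Fin 8} (hij : i ≠ j) : ∫ y in VV, y i * y j = 0 := by
  obtain ⟨l, hli, hlj⟩ : ∃ l : Fin 8, l ≠ i ∧ l ≠ j := by
    revert i j; decide
  have h1 := sym_int (sm_orth i l) (sm_VV (Ne.symm hli)) (fun y => y i * y j)
  simp only [sm_mulVec] at h1
  have h2 : sg i l i = -1 := by simp [sg]
  have h3 : sg i l j = 1 := by
    unfold sg
    rw [if_neg]
    rintro (h | h)
    · exact hij h.symm
    · exact hlj h.symm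
  rw [h2, h3] at h1
  have h4 : ∀ y : Fin 8 → ℝ, ((-1 : ℤ) : ℝ) * y i * (((1 : ℤ) : ℝ) * y j) = -(y i * y j) := by
    intro y; push_cast; ring
  simp only [h4, integral_neg] at h1
  linarith

private theorem int_diag (i : Fin 8) : ∫ y in VV, y i * y i = ∫ y in VV, y 0 * y 0 := by
  have h1 := sym_int (pm_orth (Equiv.swap 0 i)) (pm_VV (Equiv.swap 0 i)) (fun y => y 0 * y 0)
  simp only [pm_mulVec, Function.comp, Equiv.swap_apply_left] at h1
  exact h1

private theorem integ (i j : Fin 8) :
    Integrable (fun y : Fin 8 → ℝ => y i * y j) (volume.restrict VV) := by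
  have h1 : ContinuousOn (fun y : Fin 8 → ℝ => y i * y j) VV := by
    apply Continuous.continuousOn
    fun_prop
  exact h1.integrableOn_compact VV_compact

theorem iso_V (B : Matrix (Fin 8) (Fin 8) ℝ) :
    ∫ y in VV, y ⬝ᵥ B *ᵥ y = GG / 8 * B.trace := by
  have hG : GG = 8 * ∫ y in VV, y 0 * y 0 := by
    unfold GG
    simp only [dotProduct]
    rw [integral_finsetSum _ fun i _ => integ i i, Finset.sum_congr rfl fun i _ => int_diag i]
    simp
  have h1 : ∀ y : Fin 8 → ℝ, y ⬝ᵥ B *ᵥ y = ∑ i, ∑ j, B i j * (y i * y j) := by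
    intro y
    simp only [dotProduct, Matrix.mulVec, Finset.mul_sum]
    refine Finset.sum_congr rfl fun i _ => Finset.sum_congr rfl fun j _ => by ring
  have h0 : ∀ i, Integrable (fun y : Fin 8 → ℝ => ∑ j, B i j * (y i * y j))
      (volume.restrict VV) := fun i =>
    integrable_finsetSum Finset.univ fun j _ => (integ i j).const_mul (B i j)
  have h5 : ∫ y in VV, y ⬝ᵥ B *ᵥ y = ∑ i, ∫ y in VV, ∑ j, B i j * (y i * y j) := by
    rw [← integral_finsetSum Finset.univ fun i _ => h0 i]
    exact integral_congr_ae (Filter.Eventually.of_forall fun y => h1 y)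
  rw [h5]
  have h2 : ∀ i, ∫ y in VV, ∑ j, B i j * (y i * y j) = B i i * ∫ y in VV, y 0 * y 0 := by
    intro i
    rw [integral_finsetSum Finset.univ fun j _ => (integ i j).const_mul (B i j)]
    rw [Finset.sum_eq_single i]
    · rw [integral_const_mul, int_diag]
    · intro j _ hj
      rw [integral_const_mul, int_cross (Ne.symm hj), mul_zero]
    · simp
  rw [Finset.sum_congr rfl fun i _ => h2 i, ← Finset.sum_mul, hG, Matrix.trace]
  simp only [Matrix.diag]
  ring

end Pool.Agent.H99E
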