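import Pool.Agent.H99E.Alg
import Pool.Agent.H99E.Crd

set_option autoImplicit false

/-! # Isotropy of the facet (helper82) -/

namespace Pool.Agent.H99E

open MeasureTheory Matrix

private theorem iz_Rf_perm (σ : Equiv.Perm (Fin 8)) {k : Fin 8 → ℤ} (hk : k ∈ Rf) :
    k ∘ σ ∈ Rf := by
  simp only [Rf, Finset.mem_union, Finset.mem_filter, Fintype.mem_piFinset] at hk ⊢
  rcases hk with ⟨h1, h2⟩ | ⟨h1, h2⟩
  · left
    refine ⟨fun a => h1 (σ a), ?_⟩
    have : ∑ i, (k ∘ σ) i = ∑ i, k i := Equiv.sum_comp σ k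
    rw [this, h2]
  · right
    refine ⟨fun a => h1 (σ a), ?_⟩
    have : ∑ i, (k ∘ σ) i ^ 2 = ∑ i, k i ^ 2 := Equiv.sum_comp σ (fun i => k i ^ 2)
    rw [this, h2]

private theorem iz_VV_perm (σ : Equiv.Perm (Fin 8)) {y : Fin 8 → ℝ} (hy : y ∈ VV) :
    y ∘ σ ∈ VV := by
  intro k hk
  have h1 := hy (k ∘ σ.symm) (iz_Rf_perm σ.symm hk)
  have h2 : (y ∘ σ) ⬝ᵥ hv k = y ⬝ᵥ hv (k ∘ σ.symm) := by
    simp only [dotProduct, hv, Function.comp]
    rw [← Equiv.sum_comp σ (fun i => y i * ((k (σ.symm i) : ℝ) / 2))]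
    simp
  rw [h2]
  exact h1

/-- the sign change of the coordinates `a` and `b` -/
private def iz_sg (a b : Fin 8) (i : Fin 8) : ℤ := if i = a ∨ i = b then -1 else 1

private theorem iz_sg_sq (a b i : Fin 8) : iz_sg a b i * iz_sg a b i = 1 := by
  unfold iz_sg; split_ifs <;> norm_num

private theorem iz_Rf_sg {a b : Fin 8} (hab : a ≠ b) {k : Fin 8 → ℤ} (hk : k ∈ Rf) :
    (fun i => iz_sg a b i * k i) ∈ Rf := by
  simp only [Rf, Finset.mem_union, Finset.mem_filter, Fintype.mem_piFinset] at hk ⊢
  rcases hk with ⟨h1, h2⟩ | ⟨h1, h2⟩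
  · left
    constructor
    · intro i
      have := h1 i
      simp only [Finset.mem_insert, Finset.mem_singleton] at this ⊢
      unfold iz_sg
      split_ifs <;> omega
    · have h3 : ∑ i, iz_sg a b i * k i = ∑ i, k i - 2 * k a - 2 * k b := by
        have h4 : ∀ i, iz_sg a b i * k i =
            k i - (if i = a then 2 * k i else 0) - (if i = b then 2 * k i else 0) := by
          intro i
          unfold iz_sg
          by_cases h5 : i = a
          · have h6 : i ≠ b := fun h => hab (h5 ▸ h)
            simp [h5, hab]; ring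
          · by_cases h6 : i = b
            · simp [h6, Ne.symm hab]; ring
            · simp [h5, h6]
        rw [Finset.sum_congr rfl fun i _ => h4 i, Finset.sum_sub_distrib, Finset.sum_sub_distrib]
        simp
      rw [h3]
      have ha := h1 a
      have hb := h1 b
      simp only [Finset.mem_insert, Finset.mem_singleton] at ha hb
      omega
  · right
    constructor
    · intro i
      have := h1 i
      simp only [Finset.mem_insert, Finset.mem_singleton] at this ⊢
      unfold iz_sg
      split_ifs <;> omega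
    · rw [← h2]
      refine Finset.sum_congr rfl fun i _ => ?_
      have := iz_sg_sq a b i
      calc (iz_sg a b i * k i) ^ 2 = (iz_sg a b i * iz_sg a b i) * k i ^ 2 := by ring
        _ = k i ^ 2 := by rw [this, one_mul]

private theorem iz_VV_sg {a b : Fin 8} (hab : a ≠ b) {y : Fin 8 → ℝ} (hy : y ∈ VV) :
    (fun i => (iz_sg a b i : ℝ) * y i) ∈ VV := by
  intro k hk
  have h1 := hy _ (iz_Rf_sg hab hk)
  refine le_trans (le_of_eq ?_) h1
  simp only [dotProduct, hv]
  refine Finset.sum_congr rfl fun i _ => ?_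
  push_cast
  ring

/-- the root `(1, -1, 1, 1, 1, 1, 1, -1) / 2` (doubled) -/
private def iz_r : Fin 8 → ℤ := ![1, -1, 1, 1, 1, 1, 1, -1]

private theorem iz_rr : hv iz_r ⬝ᵥ hv iz_r = 2 := by
  rw [dotProduct, Fin.sum_univ_eight]
  simp [hv, iz_r]
  norm_num

private theorem iz_r_mem : iz_r ∈ Rf := mem_Rf.2 ⟨by decide, iz_rr⟩

private theorem iz_hv_sub (k l : Fin 8 → ℤ) (m : ℤ) :
    hv (k - m • l) = hv k - (m : ℝ) • hv l := by
  ext i
  simp only [hv, Pi.sub_apply, Pi.smul_apply, smul_eq_mul, Int.cast_sub, Int.cast_mul]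
  ring

private theorem iz_InE_smul {l : Fin 8 → ℤ} (hl : InE l) (m : ℤ) : InE (m • l) := by
  refine ⟨fun i => ?_, ?_⟩
  · simp only [Pi.smul_apply, smul_eq_mul]
    rw [Int.mul_emod, hl.1 i, ← Int.mul_emod]
  · simp only [Pi.smul_apply, smul_eq_mul, ← Finset.mul_sum]
    rw [Int.mul_emod, hl.2]
    simp

private theorem iz_VV_re {y : Fin 8 → ℝ} (hy : y ∈ VV) :
    y - (y ⬝ᵥ hv iz_r) • hv iz_r ∈ VV := by
  intro k hk
  obtain ⟨hl1, hl2⟩ := mem_Rf.1 iz_r_mem
  obtain ⟨hk1, hk2⟩ := mem_Rf.1 hk
  obtain ⟨m, hm⟩ := hv_int hl1 hk1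
  have e : hv (k - m • iz_r) = hv k - (m : ℝ) • hv iz_r := iz_hv_sub k iz_r m
  have hm' : hv k ⬝ᵥ hv iz_r = (m : ℝ) := by rw [dotProduct_comm]; exact hm
  have hk' : k - m • iz_r ∈ Rf := by
    refine mem_Rf.2 ⟨?_, ?_⟩
    · rw [sub_eq_add_neg]
      exact InE_add hk1 (InE_neg (iz_InE_smul hl1 m))
    · rw [e, sub_dotProduct, dotProduct_sub, dotProduct_sub, smul_dotProduct, dotProduct_smul,
        smul_dotProduct, dotProduct_smul, hk2, hl2, hm, hm']
      simp only [smul_eq_mul]
      ring
  have h1 := hy _ hk'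
  rw [e, dotProduct_sub, dotProduct_smul] at h1
  rw [sub_dotProduct, smul_dotProduct, hm]
  simp only [smul_eq_mul] at h1 ⊢
  linarith [mul_comm (m : ℝ) (y ⬝ᵥ hv iz_r)]

/-! ## linear symmetries of the facet -/

private theorem iz_int (L : (Fin 7 → ℝ) →ₗ[ℝ] (Fin 7 → ℝ)) (hL : ∀ z, L (L z) = z)
    (hZ : ∀ z, z ∈ Z0 → L z ∈ Z0) (f : (Fin 7 → ℝ) → ℝ) :
    ∫ z in Z0, f (L z) = ∫ z in Z0, f z := by
  have hLL : L ∘ₗ L = LinearMap.id := LinearMap.ext hL
  have hdet : LinearMap.det L * LinearMap.det L = 1 := by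
    rw [← LinearMap.det_comp, hLL, LinearMap.det_id]
  have hdet0 : LinearMap.det L ≠ 0 := by
    intro h
    rw [h, mul_zero] at hdet
    exact zero_ne_one hdet
  have habs : |LinearMap.det L| = 1 := by
    have h1 : |LinearMap.det L| * |LinearMap.det L| = 1 := by rw [abs_mul_abs_self, hdet]
    nlinarith [abs_nonneg (LinearMap.det L)]
  have hmap := Real.map_linearMap_volume_pi_eq_smul_volume_pi hdet0
  have h1 : ENNReal.ofReal |(LinearMap.det L)⁻¹| = 1 := by
    rw [abs_inv, habs, inv_one, ENNReal.ofReal_one]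
  rw [h1, one_smul] at hmap
  have hcont : Continuous L := LinearMap.continuous_of_finiteDimensional L
  have hmp : MeasurePreserving L (volume : Measure (Fin 7 → ℝ)) volume :=
    ⟨hcont.measurable, hmap⟩
  have hinj : Function.Injective L := by
    intro x y hxy
    rw [← hL x, ← hL y, hxy]
  have hemb : MeasurableEmbedding L := hcont.measurableEmbedding hinj
  have h3 := hmp.setIntegral_preimage_emb hemb f Z0
  have hpre : L ⁻¹' Z0 = Z0 := by
    ext y
    rw [Set.mem_preimage]
    refine ⟨fun h => ?_, hZ y⟩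
    have := hZ _ h
    rwa [hL] at this
  rw [hpre] at h3
  exact h3

private theorem iz_yy_succ (p : ℝ) (z : Fin 7 → ℝ) {m : Fin 7} (hm : m ≠ 0) :
    yy p z m.succ = z m := by
  fin_cases m
  · exact absurd rfl hm
  all_goals rfl

/-- sign changes -/
private def iz_D (s : Fin 7 → ℝ) : (Fin 7 → ℝ) →ₗ[ℝ] (Fin 7 → ℝ) where
  toFun z := fun i => s i * z i
  map_add' a b := by
    funext i
    simp only [Pi.add_apply]
    ring
  map_smul' c a := by
    funext i
    simp only [Pi.smul_apply, smul_eq_mul, RingHom.id_apply]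
    ring

/-- the swap of the first two coordinates -/
private theorem iz_swap (f : (Fin 7 → ℝ) → ℝ) :
    ∫ z in Z0, f (fun i => (if i = 0 then -1 else 1) * z i) = ∫ z in Z0, f z := by
  refine iz_int (iz_D fun i => if i = 0 then -1 else 1) (fun z => ?_) (fun z hz => ?_) f
  · funext i
    simp only [iz_D, LinearMap.coe_mk, AddHom.coe_mk]
    split_ifs <;> ring
  · have h1 := iz_VV_perm (Equiv.swap 0 1) hz
    have h2 : (yy 1 z) ∘ (Equiv.swap (0 : Fin 8) 1) =
        yy 1 (iz_D (fun i => if i = 0 then -1 else 1) z) := by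
      funext j
      fin_cases j <;> simp [yy, iz_D, Equiv.swap_apply_def] <;> ring
    rw [h2] at h1
    exact h1

/-- two sign changes -/
private theorem iz_two {a b : Fin 7} (ha : a ≠ 0) (hb : b ≠ 0) (hab : a ≠ b)
    (f : (Fin 7 → ℝ) → ℝ) :
    ∫ z in Z0, f (fun i => (if i = a ∨ i = b then -1 else 1) * z i) = ∫ z in Z0, f z := by
  refine iz_int (iz_D fun i => if i = a ∨ i = b then -1 else 1) (fun z => ?_) (fun z hz => ?_) f
  · funext i
    simp only [iz_D, LinearMap.coe_mk, AddHom.coe_mk]
    split_ifs <;> ring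
  · have h1 := iz_VV_sg (a := a.succ) (b := b.succ) (fun h => hab (Fin.succ_injective _ h)) hz
    have h2 : (fun j => (iz_sg a.succ b.succ j : ℝ) * yy 1 z j) =
        yy 1 (iz_D (fun i => if i = a ∨ i = b then -1 else 1) z) := by
      funext j
      refine Fin.cases ?_ (fun m => ?_) j
      · have e1 : ¬ ((0 : Fin 8) = a.succ ∨ (0 : Fin 8) = b.succ) := by
          rintro (h | h)
          · exact Fin.succ_ne_zero _ h.symm
          · exact Fin.succ_ne_zero _ h.symm
        have e2 : ¬ ((0 : Fin 7) = a ∨ (0 : Fin 7) = b) := by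
          rintro (h | h)
          · exact ha h.symm
          · exact hb h.symm
        simp only [iz_sg, if_neg e1]
        simp [yy, iz_D, if_neg e2]
      · by_cases hm : m = 0
        · subst hm
          have e1 : ¬ (Fin.succ (0 : Fin 7) = a.succ ∨ Fin.succ (0 : Fin 7) = b.succ) := by
            rintro (h | h)
            · exact ha (Fin.succ_injective _ h).symm
            · exact hb (Fin.succ_injective _ h).symm
          have e2 : ¬ ((0 : Fin 7) = a ∨ (0 : Fin 7) = b) := by
            rintro (h | h)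
            · exact ha h.symm
            · exact hb h.symm
          simp only [iz_sg, if_neg e1]
          simp [yy, iz_D, if_neg e2]
        · rw [iz_yy_succ _ _ hm, iz_yy_succ _ _ hm]
          simp only [iz_sg, iz_D, LinearMap.coe_mk, AddHom.coe_mk]
          by_cases e : m = a ∨ m = b
          · have e' : m.succ = a.succ ∨ m.succ = b.succ := by
              rcases e with e | e
              · left; rw [e]
              · right; rw [e]
            rw [if_pos e, if_pos e']
            push_cast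
            ring
          · have e' : ¬ (m.succ = a.succ ∨ m.succ = b.succ) := by
              rintro (h | h)
              · exact e (Or.inl (Fin.succ_injective _ h))
              · exact e (Or.inr (Fin.succ_injective _ h))
            rw [if_neg e, if_neg e']
            push_cast
            ring
    rw [h2] at h1
    exact h1

/-- permutations -/
private theorem iz_perm {a b : Fin 7} (ha : a ≠ 0) (hb : b ≠ 0) (f : (Fin 7 → ℝ) → ℝ) :
    ∫ z in Z0, f (fun i => z (Equiv.swap a b i)) = ∫ z in Z0, f z := by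
  refine iz_int (LinearMap.funLeft ℝ ℝ (Equiv.swap a b)) (fun z => ?_) (fun z hz => ?_) f
  · funext i
    simp [LinearMap.funLeft_apply]
  · have h1 := iz_VV_perm (Equiv.swap a.succ b.succ) hz
    have h2 : (yy 1 z) ∘ (Equiv.swap a.succ b.succ) =
        yy 1 (LinearMap.funLeft ℝ ℝ (Equiv.swap a b) z) := by
      funext j
      refine Fin.cases ?_ (fun m => ?_) j
      · have e1 : Equiv.swap a.succ b.succ (0 : Fin 8) = 0 :=
          Equiv.swap_apply_of_ne_of_ne (Fin.succ_ne_zero _).symm (Fin.succ_ne_zero _).symm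
        have e2 : Equiv.swap a b (0 : Fin 7) = 0 :=
          Equiv.swap_apply_of_ne_of_ne ha.symm hb.symm
        simp only [Function.comp, e1]
        simp [yy, LinearMap.funLeft_apply, e2]
      · by_cases hm : m = 0
        · subst hm
          have e1 : Equiv.swap a.succ b.succ (Fin.succ (0 : Fin 7)) = Fin.succ (0 : Fin 7) :=
            Equiv.swap_apply_of_ne_of_ne (fun h => ha (Fin.succ_injective _ h).symm)
              (fun h => hb (Fin.succ_injective _ h).symm)
          have e2 : Equiv.swap a b (0 : Fin 7) = 0 :=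
            Equiv.swap_apply_of_ne_of_ne ha.symm hb.symm
          simp only [Function.comp, e1]
          simp [yy, LinearMap.funLeft_apply, e2]
        · have e1 : Equiv.swap a.succ b.succ m.succ = (Equiv.swap a b m).succ := by
            simp only [Equiv.swap_apply_def, Fin.succ_inj]
            split_ifs <;> rfl
          have e2 : Equiv.swap a b m ≠ 0 := by
            intro h
            have h3 : Equiv.swap a b (Equiv.swap a b m) = Equiv.swap a b 0 := by rw [h]
            rw [Equiv.swap_apply_self, Equiv.swap_apply_of_ne_of_ne ha.symm hb.symm] at h3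
            exact hm h3
          simp only [Function.comp, e1]
          rw [iz_yy_succ _ _ e2, iz_yy_succ _ _ hm, LinearMap.funLeft_apply]
    rw [h2] at h1
    exact h1

/-- the product of the reflection vector with a point of the orthogonal space -/
private noncomputable def iz_c (z : Fin 7 → ℝ) : ℝ :=
  z 0 + (z 1 + z 2 + z 3 + z 4 + z 5 - z 6) / 2

/-- the reflection -/
private noncomputable def iz_R : (Fin 7 → ℝ) →ₗ[ℝ] (Fin 7 → ℝ) where
  toFun z := fun i => z i - iz_c z / 2 * (if i = 6 then -1 else 1)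
  map_add' a b := by
    funext i
    simp only [Pi.add_apply, iz_c]
    ring
  map_smul' c a := by
    funext i
    simp only [Pi.smul_apply, smul_eq_mul, RingHom.id_apply, iz_c]
    ring

private theorem iz_refl (f : (Fin 7 → ℝ) → ℝ) :
    ∫ z in Z0, f (iz_R z) = ∫ z in Z0, f z := by
  refine iz_int iz_R (fun z => ?_) (fun z hz => ?_) f
  · funext i
    fin_cases i <;> simp [iz_R, iz_c] <;> ring
  · have h1 := iz_VV_re hz
    have h2 : yy 1 z - (yy 1 z ⬝ᵥ hv iz_r) • hv iz_r = yy 1 (iz_R z) := by
      have h3 : yy 1 z ⬝ᵥ hv iz_r = iz_c z := by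
        rw [dotProduct, Fin.sum_univ_eight]
        simp [yy, hv, iz_r, iz_c]
        ring
      rw [h3]
      funext j
      fin_cases j <;> simp [yy, hv, iz_r, iz_R] <;> ring
    rw [h2] at h1
    exact h1

/-! ## the second moments -/

private theorem iz_integ (i j : Fin 7) :
    Integrable (fun z : Fin 7 → ℝ => z i * z j) (volume.restrict Z0) := by
  have h1 : ContinuousOn (fun z : Fin 7 → ℝ => z i * z j) Z0 := by
    apply Continuous.continuousOn
    fun_prop
  exact h1.integrableOn_compact Z0_compact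

private theorem iz_cross0 {j : Fin 7} (hj : j ≠ 0) : ∫ z in Z0, z 0 * z j = 0 := by
  have h1 := iz_swap (fun z => z 0 * z j)
  simp only [if_pos, if_neg hj] at h1
  have h4 : ∀ z : Fin 7 → ℝ, -1 * z 0 * (1 * z j) = -(z 0 * z j) := by
    intro z; ring
  simp only [h4, integral_neg] at h1
  linarith

private theorem iz_cross {i j : Fin 7} (hij : i ≠ j) : ∫ z in Z0, z i * z j = 0 := by
  by_cases hi : i = 0
  · subst hi
    exact iz_cross0 (Ne.symm hij)
  by_cases hj : j = 0
  · subst hj
    have h0 : ∀ z : Fin 7 → ℝ, z i * z 0 = z 0 * z i := fun z => mul_comm _ _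
    simp only [h0]
    exact iz_cross0 hi
  obtain ⟨l, hl0, hli, hlj⟩ : ∃ l : Fin 7, l ≠ 0 ∧ l ≠ i ∧ l ≠ j := by
    revert i j; decide
  have h1 := iz_two hi hl0 (Ne.symm hli) (fun z => z i * z j)
  have e1 : ¬ (j = i ∨ j = l) := by
    rintro (h | h)
    · exact hij h.symm
    · exact hlj h.symm
  simp only [true_or, if_true, if_neg e1] at h1
  have h4 : ∀ z : Fin 7 → ℝ, -1 * z i * (1 * z j) = -(z i * z j) := by
    intro z; ring
  simp only [h4, integral_neg] at h1
  linarith

private theorem iz_diag {i : Fin 7} (hi : i ≠ 0) :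
    ∫ z in Z0, z i * z i = ∫ z in Z0, z 1 * z 1 := by
  have h1 := iz_perm (a := 1) (b := i) (by decide) hi (fun z => z 1 * z 1)
  simp only [Equiv.swap_apply_left] at h1
  exact h1

/-- a quadratic form integrates to its diagonal -/
private theorem iz_lin (a : Fin 7 → ℝ) :
    ∫ z in Z0, (∑ i, a i * z i) ^ 2 = ∑ i, a i ^ 2 * ∫ z in Z0, z i * z i := by
  have h1 : ∀ z : Fin 7 → ℝ, (∑ i, a i * z i) ^ 2 = ∑ i, ∑ j, a i * a j * (z i * z j) := by
    intro z
    rw [sq, Finset.sum_mul_sum]
    refine Finset.sum_congr rfl fun i _ => Finset.sum_congr rfl fun j _ => by ring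
  have h0 : ∀ i, Integrable (fun z : Fin 7 → ℝ => ∑ j, a i * a j * (z i * z j))
      (volume.restrict Z0) := fun i =>
    integrable_finsetSum Finset.univ fun j _ => (iz_integ i j).const_mul (a i * a j)
  have h5 : ∫ z in Z0, (∑ i, a i * z i) ^ 2 =
      ∑ i, ∫ z in Z0, ∑ j, a i * a j * (z i * z j) := by
    rw [← integral_finsetSum Finset.univ fun i _ => h0 i]
    exact integral_congr_ae (Filter.Eventually.of_forall fun z => h1 z)
  rw [h5]
  refine Finset.sum_congr rfl fun i _ => ?_
  rw [integral_finsetSum Finset.univ fun j _ => (iz_integ i j).const_mul (a i * a j)]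
  rw [Finset.sum_eq_single i]
  · rw [integral_const_mul]
    ring
  · intro j _ hj
    rw [integral_const_mul, iz_cross (Ne.symm hj), mul_zero]
  · simp

/-- the first coordinate -/
private theorem iz_zero : ∫ z in Z0, z 0 * z 0 = (∫ z in Z0, z 1 * z 1) / 2 := by
  have h1 := iz_refl (fun z => z 0 * z 0)
  have h2 : ∀ z : Fin 7 → ℝ, iz_R z 0 * iz_R z 0 =
      (∑ i, (![1 / 2, -1 / 4, -1 / 4, -1 / 4, -1 / 4, -1 / 4, 1 / 4] : Fin 7 → ℝ) i *
        z i) ^ 2 := by
    intro z
    rw [Fin.sum_univ_seven]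
    simp [iz_R, iz_c]
    ring
  simp only [h2] at h1
  rw [iz_lin, Fin.sum_univ_seven, iz_diag (i := 2) (by decide), iz_diag (i := 3) (by decide),
    iz_diag (i := 4) (by decide), iz_diag (i := 5) (by decide),
    iz_diag (i := 6) (by decide)] at h1
  simp at h1
  linarith

theorem iso_Z (v : Fin 8 → ℝ) :
    ∫ z in Z0, (yy 0 z ⬝ᵥ v) ^ 2 = kap * (v ⬝ᵥ v - (v ⬝ᵥ hv u0) ^ 2 / 2) := by
  have h1 : ∀ z : Fin 7 → ℝ, (yy 0 z ⬝ᵥ v) ^ 2 =
      (∑ i, (![v 0 - v 1, v 2, v 3, v 4, v 5, v 6, v 7] : Fin 7 → ℝ) i * z i) ^ 2 := by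
    intro z
    rw [dotProduct, Fin.sum_univ_eight, Fin.sum_univ_seven]
    simp [yy]
    ring
  have hN : ∫ z in Z0, NN z = 7 * ∫ z in Z0, z 1 * z 1 := by
    have h2 : ∀ z : Fin 7 → ℝ, NN z = 2 * (z 0 * z 0) + (z 1 * z 1 + (z 2 * z 2 + (z 3 * z 3 +
        (z 4 * z 4 + (z 5 * z 5 + z 6 * z 6))))) := by
      intro z
      unfold NN
      ring
    simp only [h2]
    rw [integral_add, integral_add, integral_add, integral_add, integral_add, integral_add,
      integral_const_mul, iz_zero, iz_diag (i := 2) (by decide), iz_diag (i := 3) (by decide),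
      iz_diag (i := 4) (by decide), iz_diag (i := 5) (by decide),
      iz_diag (i := 6) (by decide)]
    · ring
    all_goals first
      | exact iz_integ _ _
      | exact (iz_integ _ _).const_mul _
      | exact (iz_integ _ _).add (iz_integ _ _)
      | exact (iz_integ _ _).add ((iz_integ _ _).add (iz_integ _ _))
      | exact (iz_integ _ _).add ((iz_integ _ _).add ((iz_integ _ _).add (iz_integ _ _)))
      | exact (iz_integ _ _).add ((iz_integ _ _).add ((iz_integ _ _).add
          ((iz_integ _ _).add (iz_integ _ _))))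
      | exact (iz_integ _ _).add ((iz_integ _ _).add ((iz_integ _ _).add
          ((iz_integ _ _).add ((iz_integ _ _).add (iz_integ _ _)))))
  simp only [h1]
  rw [iz_lin, Fin.sum_univ_seven, iz_zero, iz_diag (i := 2) (by decide),
    iz_diag (i := 3) (by decide), iz_diag (i := 4) (by decide), iz_diag (i := 5) (by decide),
    iz_diag (i := 6) (by decide)]
  unfold kap
  rw [hN, dotProduct, dotProduct, Fin.sum_univ_eight, Fin.sum_univ_eight]
  simp [hv, u0]
  ring

end Pool.Agent.H99E
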