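import Pool.Agent.H99E.Ball
import Pool.Agent.H99E.Crd

/-!
Package Sli: the loss at one root.
-/

set_option autoImplicit false

namespace Pool.Agent.H99E

open MeasureTheory Matrix Filter Topology

/-- the linear form on the facet -/
private noncomputable def ell (B : Matrix (Fin 8) (Fin 8) ℝ) (z : Fin 7 → ℝ) : ℝ :=
  2 * (yy 0 z ⬝ᵥ B *ᵥ hv u0)

private lemma hv_u0 : hv u0 = ![1, 1, 0, 0, 0, 0, 0, 0] := by
  ext i
  fin_cases i <;> simp [hv, u0]

private lemma yy_dot_u (p : ℝ) (z : Fin 7 → ℝ) : yy p z ⬝ᵥ hv u0 = p := by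
  rw [hv_u0]
  simp [yy, dotProduct, Fin.sum_univ_eight]

private lemma yy_split (p : ℝ) (z : Fin 7 → ℝ) (v : Fin 8 → ℝ) :
    yy p z ⬝ᵥ v = p / 2 * (hv u0 ⬝ᵥ v) + yy 0 z ⬝ᵥ v := by
  rw [hv_u0]
  simp [yy, dotProduct, Fin.sum_univ_eight]
  ring

private lemma DD_yy (B : Matrix (Fin 8) (Fin 8) ℝ) (s : ℝ) (z : Fin 7 → ℝ) :
    DD B (hv u0) (yy (1 - s) z) = ell B z - s * (2 + hv u0 ⬝ᵥ B *ᵥ hv u0) := by
  have h1 : hv u0 ⬝ᵥ hv u0 = 2 := by
    rw [hv_u0]
    simp [dotProduct, Fin.sum_univ_eight]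
    norm_num
  rw [DD, yy_dot_u, h1, yy_split (1 - s) z (B *ᵥ hv u0), ell]
  ring

private lemma ell_smul (B : Matrix (Fin 8) (Fin 8) ℝ) (c : ℝ) (z : Fin 7 → ℝ) :
    ell B (c • z) = c * ell B z := by
  have h : yy 0 (c • z) = c • yy 0 z := by
    ext i
    fin_cases i <;> simp [yy]
  rw [ell, h, smul_dotProduct, smul_eq_mul, ell]
  ring

private lemma ell_cont (B : Matrix (Fin 8) (Fin 8) ℝ) : Continuous (ell B) := by
  unfold ell yy
  simp only [dotProduct, Fin.sum_univ_eight]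
  simp
  fun_prop

private lemma cs (f g : Fin 8 → ℝ) : (f ⬝ᵥ g) ^ 2 ≤ (f ⬝ᵥ f) * (g ⬝ᵥ g) := by
  have := Finset.sum_mul_sq_le_sq_mul_sq Finset.univ f g
  simpa [dotProduct, sq] using this

private lemma norm_W {B : Matrix (Fin 8) (Fin 8) ℝ} {β : ℝ} (hf : fro B ≤ β ^ 2) :
    (B *ᵥ hv u0) ⬝ᵥ (B *ᵥ hv u0) ≤ 2 * β ^ 2 := by
  have h1 : ∀ i, (B *ᵥ hv u0) i * (B *ᵥ hv u0) i ≤ 2 * ∑ j, B i j ^ 2 := by
    intro i
    have h2 : (B *ᵥ hv u0) i = B i 0 + B i 1 := by
      rw [hv_u0]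
      simp [mulVec, dotProduct, Fin.sum_univ_eight]
    rw [h2, Fin.sum_univ_eight]
    nlinarith [sq_nonneg (B i 0 - B i 1), sq_nonneg (B i 2), sq_nonneg (B i 3),
      sq_nonneg (B i 4), sq_nonneg (B i 5), sq_nonneg (B i 6), sq_nonneg (B i 7)]
  calc (B *ᵥ hv u0) ⬝ᵥ (B *ᵥ hv u0) = ∑ i, (B *ᵥ hv u0) i * (B *ᵥ hv u0) i := rfl
    _ ≤ ∑ i, 2 * ∑ j, B i j ^ 2 := Finset.sum_le_sum fun i _ => h1 i
    _ = 2 * fro B := by rw [← Finset.mul_sum, fro]
    _ ≤ 2 * β ^ 2 := by linarith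

private lemma q_bound {B : Matrix (Fin 8) (Fin 8) ℝ} {β : ℝ} (hβ : 0 ≤ β)
    (hf : fro B ≤ β ^ 2) : |hv u0 ⬝ᵥ B *ᵥ hv u0| ≤ 2 * β := by
  have h1 := cs (hv u0) (B *ᵥ hv u0)
  have h2 : hv u0 ⬝ᵥ hv u0 = 2 := by
    rw [hv_u0]
    simp [dotProduct, Fin.sum_univ_eight]
    norm_num
  rw [h2] at h1
  refine abs_le_of_sq_le_sq ?_ (by linarith)
  nlinarith [norm_W hf]

private lemma NN_eq (z : Fin 7 → ℝ) : yy 0 z ⬝ᵥ yy 0 z = NN z := by
  simp [yy, NN, dotProduct, Fin.sum_univ_eight]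
  ring

private lemma ell_bound {B : Matrix (Fin 8) (Fin 8) ℝ} {β : ℝ} (hβ : 0 ≤ β)
    (hf : fro B ≤ β ^ 2) {z : Fin 7 → ℝ} (hz : z ∈ Z0) : |ell B z| ≤ 2 * β := by
  have h1 := cs (yy 0 z) (B *ᵥ hv u0)
  rw [NN_eq] at h1
  refine abs_le_of_sq_le_sq ?_ (by linarith)
  rw [ell]
  have h3 := Z0_NN hz
  have h4 := norm_W hf
  have h5 : 0 ≤ (B *ᵥ hv u0) ⬝ᵥ (B *ᵥ hv u0) := by
    rw [dotProduct]
    exact Finset.sum_nonneg fun i _ => mul_self_nonneg _
  have h6 : NN z * ((B *ᵥ hv u0) ⬝ᵥ (B *ᵥ hv u0)) ≤ 1 / 2 * (2 * β ^ 2) :=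
    mul_le_mul h3 h4 h5 (by norm_num)
  nlinarith

private lemma u0_mem : u0 ∈ Rf := by
  rw [Rf, Finset.mem_union]
  right
  rw [Finset.mem_filter]
  refine ⟨?_, by decide⟩
  rw [Fintype.mem_piFinset]
  decide

private lemma s_nonneg {s : ℝ} {z : Fin 7 → ℝ} (h : yy (1 - s) z ∈ VV) : 0 ≤ s := by
  have := h u0 u0_mem
  rw [yy_dot_u] at this
  linarith

private lemma point {B : Matrix (Fin 8) (Fin 8) ℝ} {β : ℝ} (hβ : 0 ≤ β)
    (hf : fro B ≤ β ^ 2) {s : ℝ} {z : Fin 7 → ℝ} (h : yy (1 - s) z ∈ VV) :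
    max 0 (DD B (hv u0) (yy (1 - s) z)) ≤
      max 0 (ell B ((1 + s)⁻¹ • z) - s * (2 - 4 * β)) := by
  have hs := s_nonneg h
  have hz := slice hs h
  refine max_le_max le_rfl ?_
  rw [DD_yy]
  have h1 : ell B z = (1 + s) * ell B ((1 + s)⁻¹ • z) := by
    rw [ell_smul, ← mul_assoc, mul_inv_cancel₀ (by linarith), one_mul]
  have h2 := abs_le.1 (ell_bound hβ hf hz)
  have h3 := abs_le.1 (q_bound hβ hf)
  rw [h1]
  nlinarith [mul_le_mul_of_nonneg_left h2.2 hs, mul_le_mul_of_nonneg_left h3.1 hs]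

/-- the integrand on the facet -/
private noncomputable def FF (B : Matrix (Fin 8) (Fin 8) ℝ) (β s : ℝ) (z : Fin 7 → ℝ) : ENNReal :=
  ENNReal.ofReal (max 0 (ell B z - s * (2 - 4 * β)))

private lemma FF_meas (B : Matrix (Fin 8) (Fin 8) ℝ) (β : ℝ) :
    Measurable fun q : ℝ × (Fin 7 → ℝ) => FF B β q.1 q.2 := by
  have := ell_cont B
  unfold FF
  refine ENNReal.measurable_ofReal.comp ?_
  refine Continuous.measurable ?_
  fun_prop

private lemma FF_meas' (B : Matrix (Fin 8) (Fin 8) ℝ) (β s : ℝ) : Measurable (FF B β s) := by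
  have := ell_cont B
  unfold FF
  refine ENNReal.measurable_ofReal.comp ?_
  refine Continuous.measurable ?_
  fun_prop

private lemma lint_smul (H : (Fin 7 → ℝ) → ENNReal) (hH : Measurable H) {c : ℝ} (hc : 0 < c) :
    ∫⁻ z, H (c⁻¹ • z) = ENNReal.ofReal (c ^ 7) * ∫⁻ z, H z := by
  have h1 := Measure.map_addHaar_smul (volume : Measure (Fin 7 → ℝ)) (r := c⁻¹)
    (inv_ne_zero hc.ne')
  have h2 : ∫⁻ z, H z ∂(Measure.map (c⁻¹ • ·) (volume : Measure (Fin 7 → ℝ))) =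
      ∫⁻ z, H (c⁻¹ • z) := lintegral_map hH (measurable_const_smul _)
  rw [← h2, h1, lintegral_smul_measure]
  have h3 : |((c⁻¹) ^ Module.finrank ℝ (Fin 7 → ℝ))⁻¹| = c ^ 7 := by
    rw [Module.finrank_fin_fun, inv_pow, inv_inv, abs_of_pos (by positivity)]
  rw [h3, smul_eq_mul]

private lemma inner_bound {B : Matrix (Fin 8) (Fin 8) ℝ} {β : ℝ} (hβ : 0 ≤ β)
    (hβ' : β ≤ 1 / 8) (hf : fro B ≤ β ^ 2) {s : ℝ} (hs : 0 ≤ s) :
    ENNReal.ofReal ((1 + s) ^ 7) * ∫⁻ z, Set.indicator Z0 (FF B β s) z ≤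
      ENNReal.ofReal ((1 + 2 * β) ^ 7) * ∫⁻ z, Set.indicator Z0 (FF B β s) z := by
  rcases le_or_gt s (2 * β) with h | h
  · refine mul_le_mul_left ?_ _
    exact ENNReal.ofReal_le_ofReal (pow_le_pow_left₀ (by linarith) (by linarith) 7)
  · have h0 : Set.indicator Z0 (FF B β s) = 0 := by
      ext z
      by_cases hz : z ∈ Z0
      · rw [Set.indicator_of_mem hz, FF, Pi.zero_apply, ENNReal.ofReal_eq_zero]
        refine max_le le_rfl ?_
        have h2 := (abs_le.1 (ell_bound hβ hf hz)).2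
        nlinarith
      · rw [Set.indicator_of_notMem hz, Pi.zero_apply]
    rw [h0]
    simp

private lemma one_dim {a c : ℝ} (ha : 0 < a) :
    ∫⁻ s in Set.Ici (0 : ℝ), ENNReal.ofReal (max 0 (c - s * a)) ≤
      ENNReal.ofReal ((max 0 c) ^ 2 / (2 * a)) := by
  rcases le_or_gt c 0 with hc | hc
  · have h0 : ∫⁻ s in Set.Ici (0 : ℝ), ENNReal.ofReal (max 0 (c - s * a)) = 0 := by
      rw [setLIntegral_eq_zero_iff measurableSet_Ici (by fun_prop)]
      refine Filter.Eventually.of_forall fun s hs => ?_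
      rw [ENNReal.ofReal_eq_zero]
      refine max_le le_rfl ?_
      have : 0 ≤ s * a := mul_nonneg hs ha.le
      linarith
    rw [h0]
    exact zero_le
  · have hca : 0 ≤ c / a := by positivity
    have h1 : ∫⁻ s in Set.Ici (0 : ℝ), ENNReal.ofReal (max 0 (c - s * a)) ≤
        ∫⁻ s in Set.Icc (0 : ℝ) (c / a), ENNReal.ofReal (c - s * a) := by
      rw [← lintegral_indicator measurableSet_Ici, ← lintegral_indicator measurableSet_Icc]
      refine lintegral_mono fun s => ?_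
      by_cases hs : s ∈ Set.Ici (0 : ℝ)
      · rw [Set.indicator_of_mem hs]
        by_cases hs2 : s ≤ c / a
        · rw [Set.indicator_of_mem (show s ∈ Set.Icc (0 : ℝ) (c / a) from ⟨hs, hs2⟩)]
          refine ENNReal.ofReal_le_ofReal (max_le ?_ le_rfl)
          have := (le_div_iff₀ ha).1 hs2
          linarith
        · have h3 : c - s * a ≤ 0 := by
            have := (div_lt_iff₀ ha).1 (not_le.1 hs2)
            linarith
          rw [max_eq_left h3, ENNReal.ofReal_zero]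
          exact zero_le
      · rw [Set.indicator_of_notMem hs]
        exact zero_le
    refine h1.trans (le_of_eq ?_)
    rw [← ofReal_integral_eq_lintegral_ofReal]
    · congr 1
      rw [integral_Icc_eq_integral_Ioc, ← intervalIntegral.integral_of_le hca]
      have h4 : ∫ s in (0 : ℝ)..(c / a), (c - s * a) = c * (c / a) - (c / a) ^ 2 / 2 * a := by
        rw [intervalIntegral.integral_sub (by simp) (by
          exact (continuous_id.mul continuous_const).intervalIntegrable _ _),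
          intervalIntegral.integral_const, intervalIntegral.integral_mul_const, integral_id]
        simp
        ring
      rw [h4, max_eq_right hc.le]
      field_simp
      ring
    · refine ContinuousOn.integrableOn_compact isCompact_Icc ?_
      fun_prop
    · refine (ae_restrict_iff' measurableSet_Icc).2 (Filter.Eventually.of_forall fun s hs => ?_)
      have := (le_div_iff₀ ha).1 hs.2
      show 0 ≤ c - s * a
      linarith

private lemma DD_cont (B : Matrix (Fin 8) (Fin 8) ℝ) :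
    Continuous fun y : Fin 8 → ℝ => max 0 (DD B (hv u0) y) := by
  unfold DD
  simp only [dotProduct, Fin.sum_univ_eight]
  fun_prop

private lemma Z0_meas : MeasurableSet Z0 := Z0_compact.isClosed.measurableSet

private lemma VV_meas : MeasurableSet VV := VV_compact.isClosed.measurableSet

/-- the change of coordinates -/
private lemma lint_VV (G : (Fin 8 → ℝ) → ENNReal) (hG : Measurable G) :
    ∫⁻ y in VV, G y = ∫⁻ s : ℝ, ∫⁻ z, Set.indicator VV G (yy (1 - s) z) := by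
  have hTm : Measurable fun q : ℝ × (Fin 7 → ℝ) => yy q.1 q.2 := yy_mp.measurable
  have hI : Measurable (Set.indicator VV G) := hG.indicator VV_meas
  have h1 : ∫⁻ q : ℝ × (Fin 7 → ℝ), Set.indicator VV G (yy q.1 q.2) =
      ∫⁻ p : ℝ, ∫⁻ z, Set.indicator VV G (yy p z) := by
    rw [Measure.volume_eq_prod]
    exact lintegral_prod (fun q : ℝ × (Fin 7 → ℝ) => Set.indicator VV G (yy q.1 q.2))
      (hI.comp hTm).aemeasurable
  rw [← lintegral_indicator VV_meas, ← yy_mp.lintegral_comp hI, h1]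
  exact (lintegral_sub_left_eq_self
    (fun p : ℝ => ∫⁻ z, Set.indicator VV G (yy p z)) 1).symm

private lemma e4 {B : Matrix (Fin 8) (Fin 8) ℝ} {β : ℝ} (hβ : 0 ≤ β)
    (hβ' : β ≤ 1 / 8) (hf : fro B ≤ β ^ 2) (s : ℝ) :
    ∫⁻ z, Set.indicator VV (fun y => ENNReal.ofReal (max 0 (DD B (hv u0) y))) (yy (1 - s) z) ≤
      Set.indicator (Set.Ici (0 : ℝ)) (fun s =>
      ENNReal.ofReal ((1 + 2 * β) ^ 7) * ∫⁻ z, Set.indicator Z0 (FF B β s) z) s := by
  by_cases hs : s ∈ Set.Ici (0 : ℝ)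
  · rw [Set.indicator_of_mem hs]
    have hs' : (0 : ℝ) ≤ s := hs
    refine le_trans ?_ (inner_bound hβ hβ' hf hs')
    have h0 := lint_smul (Set.indicator Z0 (FF B β s)) ((FF_meas' B β s).indicator Z0_meas)
      (show (0 : ℝ) < 1 + s by linarith)
    rw [← h0]
    refine lintegral_mono fun z => ?_
    by_cases hz : yy (1 - s) z ∈ VV
    · rw [Set.indicator_of_mem hz, Set.indicator_of_mem (slice hs' hz)]
      exact ENNReal.ofReal_le_ofReal (point hβ hf hz)
    · rw [Set.indicator_of_notMem hz]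
      exact zero_le
  · rw [Set.indicator_of_notMem hs]
    have h1 : ∀ z, Set.indicator VV (fun y => ENNReal.ofReal (max 0 (DD B (hv u0) y)))
        (yy (1 - s) z) = 0 := fun z =>
      Set.indicator_of_notMem (fun hz => hs (s_nonneg hz)) _
    rw [lintegral_congr h1, lintegral_zero]

private lemma e5 {B : Matrix (Fin 8) (Fin 8) ℝ} {β : ℝ} (hβ' : β ≤ 1 / 8) (z : Fin 7 → ℝ) :
    ∫⁻ s in Set.Ici (0 : ℝ), Set.indicator Z0 (FF B β s) z ≤
      Set.indicator Z0 (fun z => ENNReal.ofReal ((max 0 (ell B z)) ^ 2 / (2 * (2 - 4 * β)))) z := by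
  by_cases hz : z ∈ Z0
  · rw [Set.indicator_of_mem hz]
    have h1 : ∀ s, Set.indicator Z0 (FF B β s) z =
        ENNReal.ofReal (max 0 (ell B z - s * (2 - 4 * β))) := fun s =>
      Set.indicator_of_mem hz _
    simp only [h1]
    exact one_dim (by linarith)
  · have h1 : ∀ s, Set.indicator Z0 (FF B β s) z = 0 := fun s =>
      Set.indicator_of_notMem hz _
    simp [h1, Set.indicator_of_notMem hz]

private lemma Q_meas (B : Matrix (Fin 8) (Fin 8) ℝ) (β : ℝ) :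
    Measurable fun q : ℝ × (Fin 7 → ℝ) => Set.indicator Z0 (FF B β q.1) q.2 := by
  have : (fun q : ℝ × (Fin 7 → ℝ) => Set.indicator Z0 (FF B β q.1) q.2) =
      Set.indicator (Prod.snd ⁻¹' Z0) (fun q : ℝ × (Fin 7 → ℝ) => FF B β q.1 q.2) := by
    ext q
    by_cases hq : q.2 ∈ Z0
    · rw [Set.indicator_of_mem hq, Set.indicator_of_mem (show q ∈ Prod.snd ⁻¹' Z0 from hq)]
    · rw [Set.indicator_of_notMem hq, Set.indicator_of_notMem (show q ∉ Prod.snd ⁻¹' Z0 from hq)]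
  rw [this]
  exact (FF_meas B β).indicator (measurable_snd Z0_meas)

/-- the bound as a Lebesgue integral -/
private lemma lint_bound {B : Matrix (Fin 8) (Fin 8) ℝ} {β : ℝ} (hβ : 0 ≤ β)
    (hβ' : β ≤ 1 / 8) (hf : fro B ≤ β ^ 2) :
    ∫⁻ y in VV, ENNReal.ofReal (max 0 (DD B (hv u0) y)) ≤
      ENNReal.ofReal ((1 + 2 * β) ^ 7) *
        ∫⁻ z in Z0, ENNReal.ofReal ((max 0 (ell B z)) ^ 2 / (2 * (2 - 4 * β))) := by
  rw [lint_VV (fun y => ENNReal.ofReal (max 0 (DD B (hv u0) y)))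
    (ENNReal.measurable_ofReal.comp (DD_cont B).measurable)]
  calc _ ≤ ∫⁻ s, Set.indicator (Set.Ici (0 : ℝ)) (fun s =>
      ENNReal.ofReal ((1 + 2 * β) ^ 7) * ∫⁻ z, Set.indicator Z0 (FF B β s) z) s :=
        lintegral_mono fun s => e4 hβ hβ' hf s
    _ = ∫⁻ s in Set.Ici (0 : ℝ),
      ENNReal.ofReal ((1 + 2 * β) ^ 7) * ∫⁻ z, Set.indicator Z0 (FF B β s) z :=
        lintegral_indicator measurableSet_Ici _
    _ = ENNReal.ofReal ((1 + 2 * β) ^ 7) *
        ∫⁻ s in Set.Ici (0 : ℝ), ∫⁻ z, Set.indicator Z0 (FF B β s) z :=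
        lintegral_const_mul _ (Q_meas B β).lintegral_prod_right'
    _ = ENNReal.ofReal ((1 + 2 * β) ^ 7) *
        ∫⁻ z, ∫⁻ s in Set.Ici (0 : ℝ), Set.indicator Z0 (FF B β s) z := by
        rw [lintegral_lintegral_swap (Q_meas B β).aemeasurable]
    _ ≤ ENNReal.ofReal ((1 + 2 * β) ^ 7) * ∫⁻ z, Set.indicator Z0 (fun z =>
        ENNReal.ofReal ((max 0 (ell B z)) ^ 2 / (2 * (2 - 4 * β)))) z :=
        mul_le_mul_right (lintegral_mono fun z => e5 hβ' z) _
    _ = _ := by rw [lintegral_indicator Z0_meas]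

private lemma half (B : Matrix (Fin 8) (Fin 8) ℝ) :
    ∫ z in Z0, (max 0 (ell B z)) ^ 2 = 1 / 2 * ∫ z in Z0, ell B z ^ 2 := by
  have hc := ell_cont B
  have h1 : ∫ z in Z0, (max 0 (ell B z)) ^ 2 = ∫ z in Z0, (max 0 (-ell B z)) ^ 2 := by
    have h2 : ∀ z, ell B (-z) = -ell B z := fun z => by
      have := ell_smul B (-1) z
      rwa [neg_one_smul, neg_one_mul] at this
    rw [← integral_indicator Z0_meas, ← integral_indicator Z0_meas,
      ← integral_neg_eq_self]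
    refine integral_congr_ae (Filter.Eventually.of_forall fun z => ?_)
    show Set.indicator Z0 _ (-z) = Set.indicator Z0 _ z
    by_cases hz : z ∈ Z0
    · rw [Set.indicator_of_mem (Z0_neg.2 hz), Set.indicator_of_mem hz, h2]
    · rw [Set.indicator_of_notMem (fun h => hz (Z0_neg.1 h)), Set.indicator_of_notMem hz]
  have i1 : IntegrableOn (fun z => (max 0 (ell B z)) ^ 2) Z0 :=
    ContinuousOn.integrableOn_compact Z0_compact (by fun_prop)
  have i2 : IntegrableOn (fun z => (max 0 (-ell B z)) ^ 2) Z0 :=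
    ContinuousOn.integrableOn_compact Z0_compact (by fun_prop)
  have h3 : ∫ z in Z0, ell B z ^ 2 =
      (∫ z in Z0, (max 0 (ell B z)) ^ 2) + ∫ z in Z0, (max 0 (-ell B z)) ^ 2 := by
    rw [← integral_add i1 i2]
    refine integral_congr_ae (Filter.Eventually.of_forall fun z => ?_)
    show ell B z ^ 2 = (max 0 (ell B z)) ^ 2 + (max 0 (-ell B z)) ^ 2
    rcases le_total (ell B z) 0 with h | h
    · rw [max_eq_left h, max_eq_right (by linarith : 0 ≤ -ell B z)]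
      ring
    · rw [max_eq_right h, max_eq_left (by linarith : -ell B z ≤ 0)]
      ring
  rw [h3, ← h1]
  ring

/-- the loss at one root -/
theorem slice_bound {B : Matrix (Fin 8) (Fin 8) ℝ} {β : ℝ} (hB : Bᵀ = B) (hβ : 0 ≤ β)
    (hβ' : β ≤ 1 / 8) (hf : fro B ≤ β ^ 2) :
    ∫ y in VV, max 0 (DD B (hv u0) y) ≤
      (1 + 2 * β) ^ 7 / (1 - 2 * β) * (1 / 2) * ∫ z in Z0, (yy 0 z ⬝ᵥ B *ᵥ hv u0) ^ 2 := by
  have _ := hB
  have hc := ell_cont B
  have hpos : 0 < 1 - 2 * β := by linarith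
  have i0 : IntegrableOn (fun y => max 0 (DD B (hv u0) y)) VV :=
    ContinuousOn.integrableOn_compact VV_compact (DD_cont B).continuousOn
  have i1 : IntegrableOn (fun z => (max 0 (ell B z)) ^ 2 / (2 * (2 - 4 * β))) Z0 :=
    ContinuousOn.integrableOn_compact Z0_compact (by fun_prop)
  have h1 := lint_bound hβ hβ' hf
  rw [← ofReal_integral_eq_lintegral_ofReal i0
      (Filter.Eventually.of_forall fun y => le_max_left _ _),
    ← ofReal_integral_eq_lintegral_ofReal i1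
      (Filter.Eventually.of_forall fun z => by
        have : 0 < 2 * (2 - 4 * β) := by linarith
        positivity),
    ← ENNReal.ofReal_mul (by positivity)] at h1
  have h2 : 0 ≤ (1 + 2 * β) ^ 7 *
      ∫ z in Z0, (max 0 (ell B z)) ^ 2 / (2 * (2 - 4 * β)) := by
    refine mul_nonneg (by positivity) (integral_nonneg fun z => ?_)
    have : 0 < 2 * (2 - 4 * β) := by linarith
    show 0 ≤ (max 0 (ell B z)) ^ 2 / (2 * (2 - 4 * β))
    positivity
  have h3 := (ENNReal.ofReal_le_ofReal_iff h2).1 h1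
  refine h3.trans (le_of_eq ?_)
  have h4 : ∫ z in Z0, ell B z ^ 2 = 4 * ∫ z in Z0, (yy 0 z ⬝ᵥ B *ᵥ hv u0) ^ 2 := by
    rw [← integral_const_mul]
    refine integral_congr_ae (Filter.Eventually.of_forall fun z => ?_)
    show ell B z ^ 2 = 4 * (yy 0 z ⬝ᵥ B *ᵥ hv u0) ^ 2
    rw [ell]
    ring
  rw [integral_div, half, h4]
  have h5 : 2 * (2 - 4 * β) = 4 * (1 - 2 * β) := by ring
  rw [h5]
  have h6 := hpos.ne'
  field_simp

end Pool.Agent.H99E
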