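import Pool.Agent.H99E.Ball

/-! # The points of the Voronoi cell of `E8` near the deep holes (helper48) -/

set_option autoImplicit false

namespace Pool.Agent.H99E

open MeasureTheory Matrix Filter Topology
open scoped Pointwise

/-- a quadratic polynomial with leading coefficient nonzero has finitely many roots -/
private theorem quad_finite {a b c : ℝ} (ha : a ≠ 0) : {p : ℝ | a * p ^ 2 + b * p + c = 0}.Finite := by
  have hP : (Polynomial.C a * Polynomial.X ^ 2 + Polynomial.C b * Polynomial.X + Polynomial.C c :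
      Polynomial ℝ) ≠ 0 := by
    intro h
    have h2 := congrArg (fun P => Polynomial.coeff P 2) h
    simp at h2
    exact ha h2
  refine (Polynomial.finite_setOfPred_isRoot hP).subset ?_
  intro p hp
  have hp' : a * p ^ 2 + b * p + c = 0 := hp
  show Polynomial.IsRoot _ p
  simp [Polynomial.IsRoot, hp']

/-- a quadratic cone is a null set -/
private theorem cone_null {w : Fin 8 → ℝ} {i : Fin 8} (hi : w i ^ 2 ≠ 1) :
    volume {y : Fin 8 → ℝ | y ⬝ᵥ y = (y ⬝ᵥ w) ^ 2} = 0 := by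
  have hcl : IsClosed {y : Fin 8 → ℝ | y ⬝ᵥ y = (y ⬝ᵥ w) ^ 2} := by
    refine isClosed_eq ?_ ?_
    · simp only [dotProduct]; fun_prop
    · simp only [dotProduct]; fun_prop
  have hmp := (volume_preserving_piFinSuccAbove (fun _ : Fin 8 => ℝ) i).symm
  rw [← hmp.measure_preimage hcl.measurableSet.nullMeasurableSet]
  have hm : MeasurableSet ((MeasurableEquiv.piFinSuccAbove (fun _ : Fin 8 => ℝ) i).symm ⁻¹'
      {y : Fin 8 → ℝ | y ⬝ᵥ y = (y ⬝ᵥ w) ^ 2}) :=
    (MeasurableEquiv.measurable _) hcl.measurableSet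
  rw [Measure.volume_eq_prod, Measure.prod_apply_symm hm]
  refine lintegral_eq_zero_of_ae_eq_zero (Eventually.of_forall fun z => ?_)
  have hfin : ((fun p : ℝ => (p, z)) ⁻¹'
      ((MeasurableEquiv.piFinSuccAbove (fun _ : Fin 8 => ℝ) i).symm ⁻¹'
        {y : Fin 8 → ℝ | y ⬝ᵥ y = (y ⬝ᵥ w) ^ 2})).Finite := by
    obtain ⟨Z, hZ⟩ : ∃ Z, Z = z ⬝ᵥ z := ⟨_, rfl⟩
    obtain ⟨c, hc⟩ : ∃ c, c = z ⬝ᵥ (fun j => w (i.succAbove j)) := ⟨_, rfl⟩
    refine (quad_finite (a := 1 - w i ^ 2) (b := -(2 * w i * c)) (c := Z - c ^ 2)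
      (sub_ne_zero.2 (Ne.symm hi))).subset ?_
    intro p hp
    have hp' : (MeasurableEquiv.piFinSuccAbove (fun _ : Fin 8 => ℝ) i).symm (p, z) ⬝ᵥ
        (MeasurableEquiv.piFinSuccAbove (fun _ : Fin 8 => ℝ) i).symm (p, z) =
        ((MeasurableEquiv.piFinSuccAbove (fun _ : Fin 8 => ℝ) i).symm (p, z) ⬝ᵥ w) ^ 2 := hp
    have e1 : ∀ v : Fin 8 → ℝ, (MeasurableEquiv.piFinSuccAbove (fun _ : Fin 8 => ℝ) i).symm (p, z) ⬝ᵥ v =
        p * v i + z ⬝ᵥ (fun j => v (i.succAbove j)) := by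
      intro v
      simp only [dotProduct]
      rw [Fin.sum_univ_succAbove _ i]
      simp [MeasurableEquiv.piFinSuccAbove, Fin.insertNthEquiv]
    rw [e1, e1] at hp'
    have e2 : (MeasurableEquiv.piFinSuccAbove (fun _ : Fin 8 => ℝ) i).symm (p, z) i = p := by
      simp [MeasurableEquiv.piFinSuccAbove, Fin.insertNthEquiv]
    have e3 : (fun j => (MeasurableEquiv.piFinSuccAbove (fun _ : Fin 8 => ℝ) i).symm (p, z)
        (i.succAbove j)) = z := by
      funext j
      simp [MeasurableEquiv.piFinSuccAbove, Fin.insertNthEquiv]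
    rw [e2, e3, ← hZ, ← hc] at hp'
    show (1 - w i ^ 2) * p ^ 2 + -(2 * w i * c) * p + (Z - c ^ 2) = 0
    linarith
  exact hfin.measure_zero _

private theorem root_coord {k : Fin 8 → ℤ} (hk : k ∈ Rf) : ∃ i, hv k i ^ 2 ≠ 1 := by
  rcases Finset.mem_union.1 hk with h | h
  · refine ⟨0, ?_⟩
    have h1 := Fintype.mem_piFinset.1 (Finset.mem_filter.1 h).1 0
    simp only [Finset.mem_insert, Finset.mem_singleton] at h1
    rcases h1 with h1 | h1 <;> simp [hv, h1] <;> norm_num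
  · by_contra hcon
    push Not at hcon
    have h1 := (Finset.mem_filter.1 h).2
    have h2 : ∀ i, k i ^ 2 = 4 := by
      intro i
      have h3 := hcon i
      have h4 : (k i : ℝ) ^ 2 = 4 := by
        simp only [hv] at h3
        linarith [h3, show ((k i : ℝ) / 2) ^ 2 = (k i : ℝ) ^ 2 / 4 by ring]
      exact_mod_cast h4
    simp [h2] at h1

/-- the points of the cell which are almost as long as allowed by the cone over them -/
private def WW (b : ℝ) : Set (Fin 8 → ℝ) :=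
  {y | y ∈ VV ∧ ∀ k ∈ Rf, max 0 (1 - 2 * b) * (y ⬝ᵥ hv k) ≤ √(y ⬝ᵥ y)}

private theorem WW_closed (b : ℝ) : IsClosed (WW b) := by
  have h : WW b = VV ∩ ⋂ k ∈ Rf, {y | max 0 (1 - 2 * b) * (y ⬝ᵥ hv k) ≤ √(y ⬝ᵥ y)} := by
    ext y
    simp [WW]
  rw [h]
  refine VV_closed.inter (isClosed_biInter fun k _ => isClosed_le ?_ ?_)
  · simp only [dotProduct]; fun_prop
  · simp only [dotProduct]; fun_prop

private theorem WW_finite (b : ℝ) : volume (WW b) ≠ ⊤ :=
  ((measure_mono fun _ hy => hy.1).trans_lt VV_compact.measure_lt_top).ne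

private theorem WW_mono {b b' : ℝ} (h : b ≤ b') : WW b ⊆ WW b' := by
  rintro y ⟨hy, hk⟩
  refine ⟨hy, fun k hkR => ?_⟩
  have h1 := hk k hkR
  have h2 : max 0 (1 - 2 * b') ≤ max 0 (1 - 2 * b) := max_le_max le_rfl (by linarith)
  rcases le_total 0 (y ⬝ᵥ hv k) with h3 | h3
  · exact (mul_le_mul_of_nonneg_right h2 h3).trans h1
  · exact (mul_nonpos_of_nonneg_of_nonpos (le_max_left _ _) h3).trans (Real.sqrt_nonneg _)

private theorem exists_root (y : Fin 8 → ℝ) : ∃ k ∈ Rf, √(y ⬝ᵥ y) ≤ y ⬝ᵥ hv k := by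
  have hne : Rf.Nonempty := by
    refine ⟨u0, Finset.mem_union_right _ (Finset.mem_filter.2 ⟨Fintype.mem_piFinset.2 fun l => ?_, ?_⟩)⟩
    · fin_cases l <;> simp [u0]
    · simp [u0, Fin.sum_univ_succ]
  by_contra hcon
  push Not at hcon
  obtain ⟨k₀, hk₀, hmax⟩ := Finset.exists_max_image Rf (fun k => y ⬝ᵥ hv k) hne
  have h0 : 0 < √(y ⬝ᵥ y) := by
    have hy0 : (0 : ℝ) ≤ y ⬝ᵥ y := by
      simp only [dotProduct]
      exact Finset.sum_nonneg fun i _ => mul_self_nonneg _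
    rcases (Real.sqrt_nonneg (y ⬝ᵥ y)).lt_or_eq with h | h
    · exact h
    · exfalso
      have h1 : y ⬝ᵥ y = 0 := by
        have := Real.sqrt_eq_zero hy0
        exact this.1 h.symm
      have h2 : y = 0 := dotProduct_self_eq_zero.1 h1
      have h3 := hcon k₀ hk₀
      rw [h2] at h3
      simp at h3
  -- a number between the maximum and the length
  obtain ⟨c, hc1, hc2⟩ : ∃ c, max (y ⬝ᵥ hv k₀) 0 < c ∧ c < √(y ⬝ᵥ y) :=
    exists_between (max_lt (hcon k₀ hk₀) h0)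
  have hc0 : 0 < c := lt_of_le_of_lt (le_max_right _ _) hc1
  have hV : c⁻¹ • y ∈ VV := by
    intro k hk
    rw [smul_dotProduct, smul_eq_mul, inv_mul_le_iff₀ hc0, mul_one]
    exact (hmax k hk).trans ((le_max_left _ _).trans hc1.le)
  have h4 := VV_ball hV
  rw [smul_dotProduct, dotProduct_smul, smul_eq_mul, smul_eq_mul, ← mul_assoc, ← mul_inv,
    inv_mul_le_iff₀ (mul_pos hc0 hc0), mul_one] at h4
  have h5 : √(y ⬝ᵥ y) ≤ c := by
    rw [Real.sqrt_le_left hc0.le]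
    nlinarith
  linarith

private theorem WW_inter : volume (⋂ b > (0 : ℝ), WW b) = 0 := by
  have hsub : (⋂ b > (0 : ℝ), WW b) ⊆ ⋃ k ∈ Rf, {y : Fin 8 → ℝ | y ⬝ᵥ y = (y ⬝ᵥ hv k) ^ 2} := by
    intro y hy
    simp only [Set.mem_iInter] at hy
    obtain ⟨k, hk, hle⟩ := exists_root y
    have hge : y ⬝ᵥ hv k ≤ √(y ⬝ᵥ y) := by
      have h1 : ∀ b : ℝ, 0 < b → b < 1 / 2 → (1 - 2 * b) * (y ⬝ᵥ hv k) ≤ √(y ⬝ᵥ y) := by
        intro b hb hb'
        have h2 := (hy b hb).2 k hk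
        rwa [max_eq_right (by linarith)] at h2
      have h0 : 0 ≤ y ⬝ᵥ hv k := (Real.sqrt_nonneg _).trans hle
      by_contra hcon
      push Not at hcon
      have hpos : 0 < y ⬝ᵥ hv k := lt_of_le_of_lt (Real.sqrt_nonneg _) hcon
      obtain ⟨b, hb1, hb2⟩ : ∃ b, 0 < b ∧ b < min (1 / 2) ((y ⬝ᵥ hv k - √(y ⬝ᵥ y)) / (2 * (y ⬝ᵥ hv k))) :=
        exists_between (lt_min (by norm_num) (div_pos (by linarith) (by linarith)))
      have h3 := h1 b hb1 (lt_of_lt_of_le hb2 (min_le_left _ _))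
      have h4 : b < (y ⬝ᵥ hv k - √(y ⬝ᵥ y)) / (2 * (y ⬝ᵥ hv k)) :=
        lt_of_lt_of_le hb2 (min_le_right _ _)
      rw [lt_div_iff₀ (by linarith)] at h4
      nlinarith
    refine Set.mem_biUnion hk ?_
    have h2 : √(y ⬝ᵥ y) = y ⬝ᵥ hv k := le_antisymm hle hge
    show y ⬝ᵥ y = (y ⬝ᵥ hv k) ^ 2
    rw [← h2, Real.sq_sqrt]
    simp only [dotProduct]
    exact Finset.sum_nonneg fun i _ => mul_self_nonneg _
  refine measure_mono_null hsub ((measure_biUnion_null_iff Rf.countable_toSet).2 fun k hk => ?_)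
  obtain ⟨i, hi⟩ := root_coord hk
  exact cone_null hi

theorem small : ∃ h : ℝ → ℝ, Tendsto h (𝓝[>] 0) (𝓝 0) ∧ ∀ β : ℝ, 0 < β → β < 1 / 8 →
    (volume {y | y ∈ VV ∧ (1 - 2 * β) ^ 2 ≤ y ⬝ᵥ y}).toReal ≤ β * h β := by
  refine ⟨fun β => 24 * (volume (WW β)).toReal, ?_, ?_⟩
  · have h1 : Tendsto (volume ∘ WW) (𝓝[>] 0) (𝓝 (volume (⋂ b > (0 : ℝ), WW b))) :=
      tendsto_measure_biInter_gt (fun r _ => (WW_closed r).measurableSet.nullMeasurableSet)
        (fun i j _ hij => WW_mono hij) ⟨1, by norm_num, WW_finite 1⟩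
    rw [WW_inter] at h1
    have h2 := (ENNReal.tendsto_toReal ENNReal.zero_ne_top).comp h1
    have h3 := h2.const_mul 24
    simpa using h3
  · intro β hβ hβ'
    obtain ⟨l, hl⟩ : ∃ l : ℝ, l = 1 - 3 * β := ⟨_, rfl⟩
    have hl0 : 0 < l := by rw [hl]; linarith
    have hl1 : l ≤ 1 := by rw [hl]; linarith
    have hsc : l • WW β ⊆ WW β := by
      rintro _ ⟨y, ⟨hy, hk⟩, rfl⟩
      show l • y ∈ WW β
      refine ⟨fun k hkR => ?_, fun k hkR => ?_⟩
      · rw [smul_dotProduct, smul_eq_mul]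
        have h1 := hy k hkR
        nlinarith
      · have h1 := hk k hkR
        have h2 : √((l • y) ⬝ᵥ (l • y)) = l * √(y ⬝ᵥ y) := by
          rw [smul_dotProduct, dotProduct_smul, smul_eq_mul, smul_eq_mul, ← mul_assoc,
            Real.sqrt_mul (by positivity), Real.sqrt_mul_self hl0.le]
        rw [h2, smul_dotProduct, smul_eq_mul]
        nlinarith
    have hsub : {y | y ∈ VV ∧ (1 - 2 * β) ^ 2 ≤ y ⬝ᵥ y} ⊆ WW β \ (l • WW β) := by
      rintro y ⟨hy, hn⟩
      refine ⟨⟨hy, fun k hkR => ?_⟩, ?_⟩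
      · have h1 := hy k hkR
        have h2 : 1 - 2 * β ≤ √(y ⬝ᵥ y) := Real.le_sqrt_of_sq_le hn
        rw [max_eq_right (by linarith)]
        have h3 : (1 - 2 * β) * (y ⬝ᵥ hv k) ≤ (1 - 2 * β) * 1 :=
          mul_le_mul_of_nonneg_left h1 (by linarith)
        linarith
      · rintro ⟨y', ⟨hy', _⟩, rfl⟩
        have h1 := VV_ball hy'
        have hn' : (1 - 2 * β) ^ 2 ≤ (l • y') ⬝ᵥ (l • y') := hn
        rw [smul_dotProduct, dotProduct_smul, smul_eq_mul, smul_eq_mul, ← mul_assoc] at hn'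
        have h0 : (0 : ℝ) ≤ y' ⬝ᵥ y' := by
          simp only [dotProduct]
          exact Finset.sum_nonneg fun i _ => mul_self_nonneg _
        have h2 : l * l * (y' ⬝ᵥ y') ≤ l * l * 1 := mul_le_mul_of_nonneg_left h1 (by positivity)
        rw [hl] at hn' h2
        nlinarith
    have hml : MeasurableSet (l • WW β) :=
      (WW_closed β).measurableSet.const_smul₀ l
    have hvol : volume (l • WW β) = ENNReal.ofReal (l ^ 8) * volume (WW β) := by
      rw [Measure.addHaar_smul]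
      simp [abs_of_pos hl0]
    have hfin : volume (l • WW β) ≠ ⊤ := ((measure_mono hsc).trans_lt (WW_finite β).lt_top).ne
    have h1 : volume (WW β \ (l • WW β)) = volume (WW β) - volume (l • WW β) :=
      measure_sdiff hsc hml.nullMeasurableSet hfin
    have h2 : (volume (WW β \ (l • WW β))).toReal =
        (volume (WW β)).toReal - l ^ 8 * (volume (WW β)).toReal := by
      rw [h1, ENNReal.toReal_sub_of_le (measure_mono hsc) (WW_finite β), hvol, ENNReal.toReal_mul,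
        ENNReal.toReal_ofReal (by positivity)]
    have h3 : (volume {y | y ∈ VV ∧ (1 - 2 * β) ^ 2 ≤ y ⬝ᵥ y}).toReal ≤
        (volume (WW β \ (l • WW β))).toReal :=
      ENNReal.toReal_mono ((measure_mono Set.sdiff_subset).trans_lt (WW_finite β).lt_top).ne
        (measure_mono hsub)
    have h4 : 1 - 24 * β ≤ l ^ 8 := by
      have h5 := one_add_mul_le_pow (show (-2 : ℝ) ≤ -(3 * β) by linarith) 8
      rw [hl]
      have h6 : (1 + -(3 * β)) ^ 8 = (1 - 3 * β) ^ 8 := by ring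
      rw [h6] at h5
      push_cast at h5
      linarith
    have h0 : 0 ≤ (volume (WW β)).toReal := ENNReal.toReal_nonneg
    rw [h2] at h3
    show _ ≤ β * (24 * (volume (WW β)).toReal)
    nlinarith

end Pool.Agent.H99E
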