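import Pool.Agent.H99E.Crd

/-!
# The second moment of the facet: strict inequality (helper86)
-/

set_option autoImplicit false

namespace Pool.Agent.H99E

open MeasureTheory Matrix Set Pointwise

namespace Str

theorem NN_nonneg (z : Fin 7 → ℝ) : 0 ≤ NN z := by
  unfold NN
  positivity

theorem NN_smul (r : ℝ) (z : Fin 7 → ℝ) : NN (r • z) = r ^ 2 * NN z := by
  unfold NN
  simp only [Pi.smul_apply, smul_eq_mul]
  ring

theorem NN_cont : Continuous NN := by
  unfold NN
  fun_prop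

theorem root_sq {k : Fin 8 → ℤ} (hk : k ∈ Rf) : ∑ i, k i ^ 2 = 8 := by
  unfold Rf at hk
  rw [Finset.mem_union, Finset.mem_filter, Finset.mem_filter, Fintype.mem_piFinset] at hk
  rcases hk with ⟨h, -⟩ | ⟨-, h⟩
  · have h1 : ∀ i, k i ^ 2 = 1 := fun i => by
      have := h i
      simp only [Finset.mem_insert, Finset.mem_singleton] at this
      rcases this with h | h <;> rw [h] <;> norm_num
    simp [h1]
  · exact h

theorem root_split {k : Fin 8 → ℤ} (hk : k ∈ Rf) : k = u0 ∨ k 0 + k 1 ≤ 2 := by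
  have hs := root_sq hk
  unfold Rf at hk
  rw [Finset.mem_union, Finset.mem_filter, Finset.mem_filter, Fintype.mem_piFinset,
    Fintype.mem_piFinset] at hk
  rcases hk with ⟨h, -⟩ | ⟨h, -⟩
  · right
    have h0 := h 0
    have h1 := h 1
    simp only [Finset.mem_insert, Finset.mem_singleton] at h0 h1
    omega
  · have h0 := h 0
    have h1 := h 1
    simp only [Finset.mem_insert, Finset.mem_singleton] at h0 h1
    by_cases h2 : k 0 + k 1 ≤ 2
    · exact Or.inr h2
    · left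
      have e0 : k 0 = 2 := by omega
      have e1 : k 1 = 2 := by omega
      rw [Fin.sum_univ_eight, e0, e1] at hs
      have z2 : k 2 = 0 := by nlinarith [sq_nonneg (k 2), sq_nonneg (k 3), sq_nonneg (k 4), sq_nonneg (k 5), sq_nonneg (k 6), sq_nonneg (k 7)]
      have z3 : k 3 = 0 := by nlinarith [sq_nonneg (k 2), sq_nonneg (k 3), sq_nonneg (k 4), sq_nonneg (k 5), sq_nonneg (k 6), sq_nonneg (k 7)]
      have z4 : k 4 = 0 := by nlinarith [sq_nonneg (k 2), sq_nonneg (k 3), sq_nonneg (k 4), sq_nonneg (k 5), sq_nonneg (k 6), sq_nonneg (k 7)]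
      have z5 : k 5 = 0 := by nlinarith [sq_nonneg (k 2), sq_nonneg (k 3), sq_nonneg (k 4), sq_nonneg (k 5), sq_nonneg (k 6), sq_nonneg (k 7)]
      have z6 : k 6 = 0 := by nlinarith [sq_nonneg (k 2), sq_nonneg (k 3), sq_nonneg (k 4), sq_nonneg (k 5), sq_nonneg (k 6), sq_nonneg (k 7)]
      have z7 : k 7 = 0 := by nlinarith [sq_nonneg (k 2), sq_nonneg (k 3), sq_nonneg (k 4), sq_nonneg (k 5), sq_nonneg (k 6), sq_nonneg (k 7)]
      funext i
      fin_cases i
      · exact e0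
      · exact e1
      · exact z2
      · exact z3
      · exact z4
      · exact z5
      · exact z6
      · exact z7

theorem yy_dot (p : ℝ) (z : Fin 7 → ℝ) (v : Fin 8 → ℝ) : yy p z ⬝ᵥ v =
    p / 2 * (v 0 + v 1) + (z 0 * (v 0 - v 1) + z 1 * v 2 + z 2 * v 3 + z 3 * v 4 + z 4 * v 5 +
      z 5 * v 6 + z 6 * v 7) := by
  unfold dotProduct yy
  rw [Fin.sum_univ_eight]
  simp
  ring

theorem yy_sq (z : Fin 7 → ℝ) : ∑ i, yy 0 z i ^ 2 = NN z := by
  unfold yy NN
  rw [Fin.sum_univ_eight]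
  simp
  ring

theorem small_mem {z : Fin 7 → ℝ} (h : NN z ≤ 1 / 8) : z ∈ Z0 := by
  intro k hk
  rcases root_split hk with rfl | h2
  · rw [yy_dot]
    simp [hv, u0]
    norm_num
  · have h3 : yy 1 z ⬝ᵥ hv k = ((k 0 : ℝ) + k 1) / 4 + yy 0 z ⬝ᵥ hv k := by
      rw [yy_dot, yy_dot]
      simp only [hv]
      ring
    have h4 : (yy 0 z ⬝ᵥ hv k) ^ 2 ≤ (∑ i, yy 0 z i ^ 2) * ∑ i, hv k i ^ 2 :=
      Finset.sum_mul_sq_le_sq_mul_sq _ _ _
    have h5 : ∑ i, hv k i ^ 2 = 2 := by
      have h6 : ∑ i, hv k i ^ 2 = (∑ i, ((k i ^ 2 : ℤ) : ℝ)) / 4 := by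
        rw [Finset.sum_div]
        refine Finset.sum_congr rfl fun i _ => ?_
        simp only [hv]
        push_cast
        ring
      rw [h6, ← Int.cast_sum, root_sq hk]
      norm_num
    rw [yy_sq, h5] at h4
    have h7 : yy 0 z ⬝ᵥ hv k ≤ 1 / 2 := by nlinarith
    have h8 : (k 0 : ℝ) + k 1 ≤ 2 := by exact_mod_cast h2
    rw [h3]
    linarith

theorem star {r : ℝ} (h0 : 0 ≤ r) (h1 : r ≤ 1) {z : Fin 7 → ℝ} (hz : z ∈ Z0) : r • z ∈ Z0 := by
  intro k hk
  have h2 := hz k hk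
  have h3 : (0 : Fin 7 → ℝ) ∈ Z0 := small_mem (by unfold NN; simp)
  have h4 := h3 k hk
  have h5 : yy 1 (r • z) ⬝ᵥ hv k = r * (yy 1 z ⬝ᵥ hv k) + (1 - r) * (yy 1 0 ⬝ᵥ hv k) := by
    rw [yy_dot, yy_dot, yy_dot]
    simp only [Pi.smul_apply, smul_eq_mul, Pi.zero_apply]
    ring
  rw [h5]
  nlinarith

theorem not_mem {z : Fin 7 → ℝ} (h : 1 / 2 < z 0 + z 1) : z ∉ Z0 := by
  intro hz
  have hk : (![2, 0, 2, 0, 0, 0, 0, 0] : Fin 8 → ℤ) ∈ Rf := by
    unfold Rf
    rw [Finset.mem_union, Finset.mem_filter, Finset.mem_filter, Fintype.mem_piFinset,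
      Fintype.mem_piFinset]
    right
    refine ⟨fun i => ?_, by decide⟩
    fin_cases i <;> simp
  have h2 := hz _ hk
  rw [yy_dot] at h2
  simp [hv] at h2
  linarith

/-- the centre of a ball in the ellipsoid outside the facet -/
noncomputable def cc : Fin 7 → ℝ := ![1 / 5, 1 / 2, 0, 0, 0, 0, 0]

theorem ball_spec {z : Fin 7 → ℝ} (hz : z ∈ Metric.ball cc (1 / 20)) :
    NN z ≤ 1 / 2 ∧ z ∉ Z0 := by
  rw [Metric.mem_ball, dist_pi_lt_iff (by norm_num)] at hz
  have hz' : ∀ i, |z i - cc i| < 1 / 20 := fun i => by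
    have := hz i
    rwa [Real.dist_eq] at this
  have h0 := abs_lt.1 (hz' 0)
  have h1 := abs_lt.1 (hz' 1)
  have h2 := abs_lt.1 (hz' 2)
  have h3 := abs_lt.1 (hz' 3)
  have h4 := abs_lt.1 (hz' 4)
  have h5 := abs_lt.1 (hz' 5)
  have h6 := abs_lt.1 (hz' 6)
  simp [cc] at h0 h1 h2 h3 h4 h5 h6
  refine ⟨?_, not_mem (by linarith)⟩
  unfold NN
  nlinarith

theorem meas_smul {r : ℝ} (hr : 0 ≤ r) (s : Set (Fin 7 → ℝ)) :
    volume.real (r • s) = r ^ 7 * volume.real s := by
  have h : volume (r • s) = ENNReal.ofReal |r ^ Module.finrank ℝ (Fin 7 → ℝ)| * volume s :=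
    Measure.addHaar_smul volume r s
  unfold Measure.real
  rw [h, ENNReal.toReal_mul, ENNReal.toReal_ofReal (abs_nonneg _), Module.finrank_fin_fun,
    abs_of_nonneg (by positivity)]

/-- the measure of the part of the facet outside an ellipsoid -/
noncomputable def gg (t : ℝ) : ℝ := (volume.restrict Z0).real {z | t < NN z}

theorem Z0_fin : volume Z0 ≠ ⊤ := Z0_compact.measure_lt_top.ne

theorem Z0_meas : MeasurableSet Z0 := Z0_compact.isClosed.measurableSet

theorem gg_eq (t : ℝ) : gg t = volume.real (Z0 ∩ {z | t < NN z}) := by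
  have hm : MeasurableSet {z | t < NN z} := (isOpen_lt continuous_const NN_cont).measurableSet
  unfold gg
  rw [measureReal_restrict_apply hm, inter_comm]

theorem gg_anti : Antitone gg := by
  intro s t hst
  rw [gg_eq, gg_eq]
  refine measureReal_mono ?_ ?_
  · exact inter_subset_inter_right _ fun z hz => lt_of_le_of_lt hst hz
  · exact ((measure_mono inter_subset_left).trans_lt Z0_compact.measure_lt_top).ne

theorem gg_zero {t : ℝ} (ht : 1 / 2 ≤ t) : gg t = 0 := by
  rw [gg_eq]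
  have : Z0 ∩ {z | t < NN z} = ∅ := by
    refine eq_empty_of_forall_notMem fun z hz => ?_
    have h1 := Z0_NN hz.1
    have h2 : t < NN z := hz.2
    linarith
  rw [this]
  simp

/-- the part outside and a part inside the ellipsoid -/
theorem gg_add_le {t : ℝ} {s : Set (Fin 7 → ℝ)} (hs : MeasurableSet s) (h1 : s ⊆ Z0)
    (h2 : ∀ z ∈ s, NN z ≤ t) : gg t + volume.real s ≤ volume.real Z0 := by
  have hd : Disjoint (Z0 ∩ {z | t < NN z}) s := by
    rw [disjoint_left]
    intro z hz hz'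
    exact absurd hz.2 (not_lt.2 (h2 z hz'))
  rw [gg_eq, ← measureReal_union hd hs
    ((measure_mono inter_subset_left).trans_lt Z0_compact.measure_lt_top).ne
    ((measure_mono h1).trans_lt Z0_compact.measure_lt_top).ne]
  exact measureReal_mono (union_subset inter_subset_left h1) Z0_fin

theorem sqrt_two_sq {t : ℝ} (ht : 0 ≤ t) : √(2 * t) ^ 2 = 2 * t := Real.sq_sqrt (by linarith)

theorem gg_le {t : ℝ} (h0 : 0 < t) (h1 : t ≤ 1 / 2) :
    gg t ≤ volume.real Z0 * (1 - √(2 * t) ^ 7) := by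
  have hr : 0 < √(2 * t) := Real.sqrt_pos.2 (by linarith)
  have hr1 : √(2 * t) ≤ 1 := Real.sqrt_le_one.2 (by linarith)
  have h := gg_add_le (t := t) (s := √(2 * t) • Z0)
    ((Z0_compact.smul _).isClosed.measurableSet) ?_ ?_
  · rw [meas_smul hr.le] at h
    linarith
  · rintro _ ⟨z, hz, rfl⟩
    exact star hr.le hr1 hz
  · rintro _ ⟨z, hz, rfl⟩
    show NN (√(2 * t) • z) ≤ t
    rw [NN_smul, sqrt_two_sq h0.le]
    have := Z0_NN hz
    nlinarith

theorem gg_lt {t : ℝ} (h0 : 0 < t) (h1 : t ≤ 1 / 8) :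
    gg t < volume.real Z0 * (1 - √(2 * t) ^ 7) := by
  have hr : 0 < √(2 * t) := Real.sqrt_pos.2 (by linarith)
  set U : Set (Fin 7 → ℝ) := Metric.ball cc (1 / 20) with hU
  have hUm : MeasurableSet U := Metric.isOpen_ball.measurableSet
  have hUf : volume U ≠ ⊤ := measure_ball_lt_top.ne
  have hUp : 0 < volume.real U :=
    ENNReal.toReal_pos (Metric.measure_ball_pos volume cc (by norm_num)).ne' hUf
  have hd : Disjoint Z0 U := by
    rw [disjoint_left]
    intro z hz hz'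
    exact (ball_spec hz').2 hz
  have hb : ∀ z ∈ √(2 * t) • (Z0 ∪ U), NN z ≤ t := by
    rintro _ ⟨z, hz, rfl⟩
    show NN (√(2 * t) • z) ≤ t
    rw [NN_smul, sqrt_two_sq h0.le]
    have : NN z ≤ 1 / 2 := by
      rcases hz with hz | hz
      · exact Z0_NN hz
      · exact (ball_spec hz).1
    nlinarith
  have h := gg_add_le (t := t) (s := √(2 * t) • (Z0 ∪ U))
    ((Z0_meas.union hUm).const_smul₀ _) (fun z hz => small_mem ((hb z hz).trans h1)) hb
  rw [meas_smul hr.le, measureReal_union hd hUm Z0_fin hUf] at h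
  have h7 : 0 < √(2 * t) ^ 7 * volume.real U := by positivity
  linarith

theorem int_eq : ∫ z in Z0, NN z = ∫ t in (0 : ℝ)..(1 / 2), gg t := by
  have hi : Integrable NN (volume.restrict Z0) := NN_cont.continuousOn.integrableOn_compact Z0_compact
  rw [hi.integral_eq_integral_meas_lt (Filter.Eventually.of_forall NN_nonneg),
    intervalIntegral.integral_of_le (by norm_num)]
  show ∫ t in Ioi (0 : ℝ), gg t = _
  refine setIntegral_eq_of_subset_of_forall_diff_eq_zero measurableSet_Ioi Ioc_subset_Ioi_self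
    fun t ht => gg_zero ?_
  have h1 : 0 < t := ht.1
  have h2 := ht.2
  by_contra h3
  exact h2 ⟨h1, (not_le.1 h3).le⟩

theorem int_pow : ∫ t in (0 : ℝ)..(1 / 2), √(2 * t) ^ 7 = 1 / 9 := by
  have h1 : ∀ t : ℝ, √(2 * t) ^ 7 = (fun x : ℝ => x ^ (7 / 2 : ℝ)) (2 * t) ∨ t < 0 := fun t => by
    rcases lt_or_ge t 0 with h | h
    · exact Or.inr h
    · left
      show _ = (2 * t) ^ (7 / 2 : ℝ)
      rw [Real.sqrt_eq_rpow, ← Real.rpow_natCast, ← Real.rpow_mul (by linarith)]
      norm_num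
  have h2 : ∫ t in (0 : ℝ)..(1 / 2), √(2 * t) ^ 7 =
      ∫ t in (0 : ℝ)..(1 / 2), (fun x : ℝ => x ^ (7 / 2 : ℝ)) (2 * t) := by
    refine intervalIntegral.integral_congr fun t ht => ?_
    rw [uIcc_of_le (by norm_num)] at ht
    rcases h1 t with h | h
    · exact h
    · exact absurd ht.1 (not_le.2 h)
  have h3 := intervalIntegral.integral_comp_mul_left (a := 0) (b := 1 / 2)
    (fun x : ℝ => x ^ (7 / 2 : ℝ)) (by norm_num : (2 : ℝ) ≠ 0)
  have h4 : ∫ x in (2 : ℝ) * 0..2 * (1 / 2), x ^ (7 / 2 : ℝ) = 2 / 9 := by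
    rw [integral_rpow (Or.inl (by norm_num))]
    norm_num
  rw [h2, h3, h4]
  norm_num

theorem main : ∫ z in Z0, NN z < 7 / 18 * volume.real Z0 := by
  rw [int_eq]
  have hc : Continuous fun t : ℝ => volume.real Z0 * (1 - √(2 * t) ^ 7) := by fun_prop
  have h1 : ∫ t in (0 : ℝ)..(1 / 2), volume.real Z0 * (1 - √(2 * t) ^ 7) =
      7 / 18 * volume.real Z0 := by
    rw [intervalIntegral.integral_const_mul, intervalIntegral.integral_sub
      (by simp) (Continuous.intervalIntegrable (by fun_prop) _ _), int_pow]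
    simp
    ring
  rw [← h1]
  refine intervalIntegral.integral_lt_integral_of_ae_le_of_measure_setOf_lt_ne_zero
    (by norm_num) gg_anti.intervalIntegrable (hc.intervalIntegrable _ _) ?_ ?_
  · refine (ae_restrict_iff' measurableSet_Ioc).2 (Filter.Eventually.of_forall fun t ht => ?_)
    exact gg_le ht.1 ht.2
  · have h2 : Ioo (0 : ℝ) (1 / 8) ⊆ {t | gg t < volume.real Z0 * (1 - √(2 * t) ^ 7)} :=
      fun t ht => gg_lt ht.1 ht.2.le
    have h3 : 0 < (volume.restrict (Ioc (0 : ℝ) (1 / 2))) (Ioo (0 : ℝ) (1 / 8)) := by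
      have h4 : Ioo (0 : ℝ) (1 / 8) ∩ Ioc 0 (1 / 2) = Ioo 0 (1 / 8) := by
        refine inter_eq_left.2 fun t ht => ?_
        have h5 := ht.1
        have h6 := ht.2
        exact ⟨h5, by linarith⟩
      rw [Measure.restrict_apply measurableSet_Ioo, h4, Real.volume_Ioo]
      norm_num
    exact (h3.trans_le (measure_mono h2)).ne'

end Str

/-- the second moment of the facet -/
theorem strict : ∫ z in Z0, NN z < 7 / 18 * (volume Z0).toReal := Str.main

end Pool.Agent.H99E
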