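import Pool.Agent.H99E.Poi
import Pool.Agent.H99E.Sym
import Pool.Agent.H99E.Tra
import Pool.Agent.H99E.Sli
import Pool.Agent.H99E.Izo
import Pool.Agent.H99E.Iso
import Pool.Agent.H99E.Cone
import Pool.Agent.H99E.Str
import Pool.Agent.H99E.Det
import Pool.Agent.H99E.Sum
import Pool.Agent.H99E.Sma

set_option autoImplicit false

/-!
# The core inequality
-/

namespace Pool.Agent.H99E

open MeasureTheory Matrix Filter Topology

theorem fro_eq (B : Matrix (Fin 8) (Fin 8) ℝ) : fro B = (Bᵀ * B).trace := by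
  unfold fro Matrix.trace
  rw [Finset.sum_comm]
  refine Finset.sum_congr rfl fun j _ => ?_
  simp [Matrix.mul_apply, sq]

theorem fro_conj {g : Matrix (Fin 8) (Fin 8) ℝ} (hg : g * gᵀ = 1) (B : Matrix (Fin 8) (Fin 8) ℝ) :
    fro (gᵀ * B * g) = fro B := by
  rw [fro_eq, fro_eq]
  have e : (gᵀ * B * g)ᵀ * (gᵀ * B * g) = gᵀ * (Bᵀ * (g * gᵀ) * B * g) := by
    simp only [transpose_mul, transpose_transpose, Matrix.mul_assoc]
  rw [e, hg, Matrix.mul_one, Matrix.trace_mul_comm, Matrix.mul_assoc, hg, Matrix.mul_one]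

theorem DD_conj (g B : Matrix (Fin 8) (Fin 8) ℝ) (hg : gᵀ * g = 1) (w y : Fin 8 → ℝ) :
    DD B (g *ᵥ w) (g *ᵥ y) = DD (gᵀ * B * g) w y := by
  have h1 : ∀ a b : Fin 8 → ℝ, (g *ᵥ a) ⬝ᵥ (g *ᵥ b) = a ⬝ᵥ b := fun a b => by
    rw [dotProduct_mulVec, ← mulVec_transpose, mulVec_mulVec, hg, one_mulVec]
  have h2 : ∀ a b : Fin 8 → ℝ, (g *ᵥ a) ⬝ᵥ (B *ᵥ (g *ᵥ b)) = a ⬝ᵥ ((gᵀ * B * g) *ᵥ b) :=
    fun a b => by
      rw [← mulVec_mulVec, ← mulVec_mulVec, dotProduct_mulVec a, vecMul_transpose]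
  unfold DD
  rw [h1, h1, h2, h2]

theorem kap_nonneg : 0 ≤ kap := by
  unfold kap
  refine div_nonneg (integral_nonneg fun z => ?_) (by norm_num)
  unfold NN
  positivity

/-- The factor in the bound of the loss. -/
noncomputable def KK (β : ℝ) : ℝ := (1 + 2 * β) ^ 7 / (1 - 2 * β)

theorem root_bound {B : Matrix (Fin 8) (Fin 8) ℝ} {β : ℝ} (hB : Bᵀ = B) (hβ : 0 ≤ β)
    (hβ' : β ≤ 1 / 8) (hf : fro B ≤ β ^ 2) {k : Fin 8 → ℤ} (hk : k ∈ Rf) :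
    ∫ y in VV, max 0 (DD B (hv k) y) ≤ KK β * (1 / 2) * (kap *
      ((B *ᵥ hv k) ⬝ᵥ (B *ᵥ hv k) - (hv k ⬝ᵥ B *ᵥ hv k) ^ 2 / 2)) := by
  obtain ⟨g, h1, h2, h3, h4⟩ := exists_sym hk
  rw [← sym_int h1 h4 (fun y => max 0 (DD B (hv k) y))]
  have e : ∀ y, DD B (hv k) (g *ᵥ y) = DD (gᵀ * B * g) (hv u0) y := fun y => by
    rw [← h3, DD_conj g B h1]
  simp only [e]
  have hC : (gᵀ * B * g)ᵀ = gᵀ * B * g := by
    simp only [transpose_mul, transpose_transpose, hB, Matrix.mul_assoc]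
  have hfC : fro (gᵀ * B * g) ≤ β ^ 2 := by rw [fro_conj h2]; exact hf
  refine (slice_bound hC hβ hβ' hfC).trans (le_of_eq ?_)
  rw [iso_Z]
  have hv1 : (gᵀ * B * g) *ᵥ hv u0 = gᵀ *ᵥ (B *ᵥ hv k) := by
    rw [← h3]; simp only [← mulVec_mulVec]
  have e1 : ((gᵀ * B * g) *ᵥ hv u0) ⬝ᵥ ((gᵀ * B * g) *ᵥ hv u0) =
      (B *ᵥ hv k) ⬝ᵥ (B *ᵥ hv k) := by
    rw [hv1, dotProduct_mulVec, vecMul_transpose, mulVec_mulVec, h2, one_mulVec]
  have e2 : ((gᵀ * B * g) *ᵥ hv u0) ⬝ᵥ hv u0 = hv k ⬝ᵥ B *ᵥ hv k := by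
    rw [hv1, dotProduct_comm, dotProduct_mulVec, vecMul_transpose, h3]
  rw [e1, e2]
  rfl

theorem fro_nonneg (B : Matrix (Fin 8) (Fin 8) ℝ) : 0 ≤ fro B :=
  Finset.sum_nonneg fun _ _ => Finset.sum_nonneg fun _ _ => sq_nonneg _

theorem fro_pos {B : Matrix (Fin 8) (Fin 8) ℝ} (hB : B ≠ 0) : 0 < fro B := by
  refine lt_of_le_of_ne (fro_nonneg B) fun h => hB ?_
  ext i j
  have h1 : ∑ j, B i j ^ 2 = 0 :=
    (Finset.sum_eq_zero_iff_of_nonneg fun _ _ => Finset.sum_nonneg fun _ _ => sq_nonneg _).mp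
      h.symm i (Finset.mem_univ i)
  have h2 := (Finset.sum_eq_zero_iff_of_nonneg fun _ _ => sq_nonneg _).mp h1 j (Finset.mem_univ j)
  simpa using h2

theorem margin : 384 * kap < GG := by
  have h1 := cones
  have h2 := strict
  have h3 : ∫ z in Z0, NN z = 7 * kap := by unfold kap; ring
  rw [h3] at h1 h2
  linarith

theorem cont_dot : Continuous fun y : Fin 8 → ℝ => y ⬝ᵥ y := by
  unfold dotProduct; fun_prop

theorem cont_quad (S : Matrix (Fin 8) (Fin 8) ℝ) (w : Fin 8 → ℝ) :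
    Continuous fun y : Fin 8 → ℝ => (y - w) ⬝ᵥ S *ᵥ (y - w) := by
  unfold dotProduct mulVec dotProduct; fun_prop

theorem cont_quad0 (S : Matrix (Fin 8) (Fin 8) ℝ) :
    Continuous fun y : Fin 8 → ℝ => y ⬝ᵥ S *ᵥ y := by
  unfold dotProduct mulVec dotProduct; fun_prop

theorem cont_DD (B : Matrix (Fin 8) (Fin 8) ℝ) (w : Fin 8 → ℝ) :
    Continuous fun y : Fin 8 → ℝ => max 0 (DD B w y) := by
  unfold DD dotProduct mulVec dotProduct; fun_prop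

theorem int_on {f : (Fin 8 → ℝ) → ℝ} (hf : Continuous f) : IntegrableOn f VV volume :=
  hf.continuousOn.integrableOn_compact VV_compact

end Pool.Agent.H99E
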