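import Pool.Agent.H99E.Cor

set_option autoImplicit false

/-!
# The core theorem
-/

namespace Pool.Agent.H99E

open MeasureTheory Matrix Filter Topology

/-- The points of the cell near the deep holes. -/
def Wb (β : ℝ) : Set (Fin 8 → ℝ) := {y | (1 - 2 * β) ^ 2 ≤ y ⬝ᵥ y}

theorem Wb_meas (β : ℝ) : MeasurableSet (Wb β) :=
  (isClosed_le continuous_const cont_dot).measurableSet

/-- The lower bound of the distance function. -/
noncomputable def low (B : Matrix (Fin 8) (Fin 8) ℝ) (β : ℝ) (y : Fin 8 → ℝ) : ℝ :=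
  y ⬝ᵥ (1 + B) *ᵥ y - ∑ w ∈ Rf, max 0 (DD B (hv w) y) - (Wb β).indicator (fun _ => 8 * β) y

theorem low_int (B : Matrix (Fin 8) (Fin 8) ℝ) (β : ℝ) : IntegrableOn (low B β) VV volume := by
  refine ((int_on (cont_quad0 _)).sub (int_on ?_)).sub ?_
  · exact continuous_finsetSum _ fun w _ => cont_DD B (hv w)
  · have h : IntegrableOn (fun _ : Fin 8 → ℝ => 8 * β) VV volume := int_on continuous_const
    exact h.indicator (Wb_meas β)

theorem low_integral (B : Matrix (Fin 8) (Fin 8) ℝ) (β : ℝ) :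
    ∫ y in VV, low B β y = (∫ y in VV, y ⬝ᵥ (1 + B) *ᵥ y) -
      (∑ w ∈ Rf, ∫ y in VV, max 0 (DD B (hv w) y)) -
      8 * β * (volume {y | y ∈ VV ∧ (1 - 2 * β) ^ 2 ≤ y ⬝ᵥ y}).toReal := by
  unfold low
  have h1 : IntegrableOn (fun y : Fin 8 → ℝ => y ⬝ᵥ (1 + B) *ᵥ y) VV volume :=
    int_on (cont_quad0 _)
  have h2 : ∀ w ∈ Rf, IntegrableOn (fun y : Fin 8 → ℝ => max 0 (DD B (hv w) y)) VV volume :=
    fun w _ => int_on (cont_DD B (hv w))
  have h2' : IntegrableOn (fun y : Fin 8 → ℝ => ∑ w ∈ Rf, max 0 (DD B (hv w) y)) VV volume :=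
    int_on (continuous_finsetSum _ fun w _ => cont_DD B (hv w))
  have h3 : IntegrableOn ((Wb β).indicator fun _ : Fin 8 → ℝ => 8 * β) VV volume := by
    have h : IntegrableOn (fun _ : Fin 8 → ℝ => 8 * β) VV volume := int_on continuous_const
    exact h.indicator (Wb_meas β)
  have e1 := integral_sub (μ := volume.restrict VV) (h1.sub h2') h3
  have e2 := integral_sub (μ := volume.restrict VV) h1 h2'
  have e3 := integral_finsetSum (μ := volume.restrict VV) Rf h2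
  have e4 : ∫ y in VV, (Wb β).indicator (fun _ => 8 * β) y =
      8 * β * (volume {y | y ∈ VV ∧ (1 - 2 * β) ^ 2 ≤ y ⬝ᵥ y}).toReal := by
    rw [integral_indicator (Wb_meas β), Measure.restrict_restrict (Wb_meas β),
      setIntegral_const, smul_eq_mul, mul_comm]
    congr 1
    unfold Measure.real
    congr 2
    ext y
    simp only [Wb, Set.mem_inter_iff, Set.mem_ofPred_eq]
    tauto
  simp only [Pi.sub_apply] at e1 e2
  rw [e1, e2, e3, e4]

/-- The squared distance to the lattice, with respect to `S`. -/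
noncomputable def dS (S : Matrix (Fin 8) (Fin 8) ℝ) (y : Fin 8 → ℝ) : ℝ :=
  ⨅ k : {k : Fin 8 → ℤ // InE k}, (y - hv k) ⬝ᵥ S *ᵥ (y - hv k)

theorem dS_meas (S : Matrix (Fin 8) (Fin 8) ℝ) : Measurable (dS S) := by
  unfold dS
  exact Measurable.iInf fun k => (cont_quad S (hv k)).measurable

theorem zero_InE : InE 0 := by decide

instance : Nonempty {k : Fin 8 → ℤ // InE k} := ⟨⟨0, zero_InE⟩⟩

theorem low_le {B : Matrix (Fin 8) (Fin 8) ℝ} {β : ℝ} (hB : Bᵀ = B) (hβ : 0 ≤ β)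
    (hβ' : β ≤ 1 / 20) (hf : fro B ≤ β ^ 2) {y : Fin 8 → ℝ} (hy : y ∈ VV) :
    low B β y ≤ dS (1 + B) y := le_ciInf fun k => pointwise' hB hβ hβ' hf hy k.2

theorem dS_le {B : Matrix (Fin 8) (Fin 8) ℝ} {β : ℝ} (hB : Bᵀ = B) (hβ : 0 ≤ β)
    (hβ' : β ≤ 1 / 20) (hf : fro B ≤ β ^ 2) {y : Fin 8 → ℝ} (hy : y ∈ VV) :
    dS (1 + B) y ≤ y ⬝ᵥ (1 + B) *ᵥ y := by
  have hb : BddBelow (Set.range fun k : {k : Fin 8 → ℤ // InE k} =>
      (y - hv k) ⬝ᵥ (1 + B) *ᵥ (y - hv k)) :=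
    ⟨low B β y, by rintro _ ⟨k, rfl⟩; exact pointwise' hB hβ hβ' hf hy k.2⟩
  have h := ciInf_le hb ⟨0, zero_InE⟩
  have h0 : hv 0 = 0 := by ext i; simp [hv]
  simpa [dS, h0] using h

theorem int_low_le {B : Matrix (Fin 8) (Fin 8) ℝ} {β : ℝ} (hB : Bᵀ = B) (hβ : 0 ≤ β)
    (hβ' : β ≤ 1 / 20) (hf : fro B ≤ β ^ 2) :
    ∫ y in VV, low B β y ≤ ∫ y in VV, dS (1 + B) y := by
  have hm : MeasurableSet VV := VV_closed.measurableSet
  have hi : IntegrableOn (dS (1 + B)) VV volume := by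
    refine Integrable.mono' (g := fun y => |low B β y| + |y ⬝ᵥ (1 + B) *ᵥ y|) ?_
      (dS_meas _).aestronglyMeasurable ?_
    · exact (low_int B β).abs.add (int_on (cont_quad0 _)).abs
    · refine (ae_restrict_iff' hm).mpr (Eventually.of_forall fun y hy => ?_)
      have h1 := low_le hB hβ hβ' hf hy
      have h2 := dS_le hB hβ hβ' hf hy
      rw [Real.norm_eq_abs, abs_le]
      have h3 := neg_abs_le (low B β y)
      have h4 := le_abs_self (y ⬝ᵥ (1 + B) *ᵥ y)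
      have h5 := abs_nonneg (low B β y)
      have h6 := abs_nonneg (y ⬝ᵥ (1 + B) *ᵥ y)
      constructor <;> linarith
  exact setIntegral_mono_on (low_int B β) hi hm fun y hy => low_le hB hβ hβ' hf hy

theorem main_ineq {B : Matrix (Fin 8) (Fin 8) ℝ} {β : ℝ} (hB : Bᵀ = B) (hβ : 0 ≤ β)
    (hβ' : β ≤ 1 / 20) (hf : fro B = β ^ 2) (hd : (1 + B).det = 1) :
    GG + GG / 8 * ((1 / 2 - β) * β ^ 2) - KK β * (24 * kap) * β ^ 2 -
      8 * β * (volume {y | y ∈ VV ∧ (1 - 2 * β) ^ 2 ≤ y ⬝ᵥ y}).toReal ≤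
      ∫ y in VV, dS (1 + B) y := by
  refine le_trans ?_ (int_low_le hB hβ hβ' hf.le)
  rw [low_integral]
  have hG : 0 ≤ GG := integral_nonneg fun y => dot_nonneg y
  have hK : 0 ≤ KK β := by
    unfold KK
    exact div_nonneg (by positivity) (by linarith)
  have e1 : ∫ y in VV, y ⬝ᵥ (1 + B) *ᵥ y = GG + GG / 8 * B.trace := by
    have h : ∀ y : Fin 8 → ℝ, y ⬝ᵥ (1 + B) *ᵥ y = y ⬝ᵥ y + y ⬝ᵥ B *ᵥ y := fun y => by
      rw [add_mulVec, one_mulVec, dotProduct_add]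
    simp only [h]
    rw [integral_add (int_on cont_dot) (int_on (cont_quad0 B)), iso_V]
    rfl
  have e2 := det_tr hB hβ (by linarith) hf hd
  have e3 : ∑ w ∈ Rf, ∫ y in VV, max 0 (DD B (hv w) y) ≤ KK β * (24 * kap) * β ^ 2 := by
    calc ∑ w ∈ Rf, ∫ y in VV, max 0 (DD B (hv w) y)
        ≤ ∑ w ∈ Rf, KK β * (1 / 2) * (kap *
          ((B *ᵥ hv w) ⬝ᵥ (B *ᵥ hv w) - (hv w ⬝ᵥ B *ᵥ hv w) ^ 2 / 2)) :=
          Finset.sum_le_sum fun w hw => root_bound hB hβ (by linarith) hf.le hw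
      _ = KK β * (1 / 2) * kap * ∑ w ∈ Rf,
          ((B *ᵥ hv w) ⬝ᵥ (B *ᵥ hv w) - (hv w ⬝ᵥ B *ᵥ hv w) ^ 2 / 2) := by
          rw [Finset.mul_sum]
          exact Finset.sum_congr rfl fun w _ => by ring
      _ ≤ KK β * (1 / 2) * kap * (48 * fro B) :=
          mul_le_mul_of_nonneg_left (sum_roots hB)
            (mul_nonneg (mul_nonneg hK (by norm_num)) kap_nonneg)
      _ = KK β * (24 * kap) * β ^ 2 := by rw [hf]; ring
  have e4 : GG / 8 * ((1 / 2 - β) * β ^ 2) ≤ GG / 8 * B.trace :=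
    mul_le_mul_of_nonneg_left e2 (by positivity)
  rw [e1]
  linarith

theorem core : ∃ ε : ℝ, 0 < ε ∧ ∀ B : Matrix (Fin 8) (Fin 8) ℝ, Bᵀ = B → fro B < ε ^ 2 →
    (1 + B).det = 1 → B ≠ 0 → GG < ∫ y in VV, dS (1 + B) y := by
  obtain ⟨h, hh, hs⟩ := small
  have hlim : Tendsto (fun β : ℝ => GG / 8 * (1 / 2 - β) - KK β * (24 * kap) - 8 * h β)
      (𝓝[>] 0) (𝓝 (GG / 8 * (1 / 2 - 0) - KK 0 * (24 * kap) - 8 * 0)) := by
    have hK : Tendsto KK (𝓝[>] 0) (𝓝 (KK 0)) := by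
      have : ContinuousAt KK 0 := by
        unfold KK
        refine ContinuousAt.div (by fun_prop) (by fun_prop) (by norm_num)
      exact this.tendsto.mono_left nhdsWithin_le_nhds
    have hid : Tendsto (fun β : ℝ => β) (𝓝[>] 0) (𝓝 0) :=
      tendsto_id.mono_left nhdsWithin_le_nhds
    exact ((tendsto_const_nhds.mul (tendsto_const_nhds.sub hid)).sub
      (hK.mul tendsto_const_nhds)).sub (hh.const_mul 8)
  have hpos : 0 < GG / 8 * (1 / 2 - 0) - KK 0 * (24 * kap) - 8 * 0 := by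
    have := margin
    have hk : KK 0 = 1 := by unfold KK; norm_num
    rw [hk]
    linarith
  have hev := hlim.eventually (lt_mem_nhds hpos)
  obtain ⟨ε, hε, hsub⟩ := mem_nhdsGT_iff_exists_Ioo_subset.mp hev
  have hε' : (0 : ℝ) < ε := hε
  refine ⟨min ε (1 / 20), lt_min hε' (by norm_num), fun B hB hf hd hB0 => ?_⟩
  have hf0 := fro_pos hB0
  set β : ℝ := Real.sqrt (fro B) with hβdef
  have hβ0 : 0 < β := Real.sqrt_pos.mpr hf0
  have hβ2 : fro B = β ^ 2 := (Real.sq_sqrt hf0.le).symm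
  have hβlt : β < min ε (1 / 20) := by
    rw [hβ2] at hf
    exact lt_of_pow_lt_pow_left₀ 2 (lt_min hε' (by norm_num)).le hf
  have hβ1 : β < ε := lt_of_lt_of_le hβlt (min_le_left _ _)
  have hβ3 : β < 1 / 20 := lt_of_lt_of_le hβlt (min_le_right _ _)
  have h1 := main_ineq hB hβ0.le hβ3.le hβ2 hd
  have h2 : 0 < GG / 8 * (1 / 2 - β) - KK β * (24 * kap) - 8 * h β := hsub ⟨hβ0, hβ1⟩
  have h3 := hs β hβ0 (by linarith)
  have h4 : 8 * β * (volume {y | y ∈ VV ∧ (1 - 2 * β) ^ 2 ≤ y ⬝ᵥ y}).toReal ≤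
      8 * β * (β * h β) := mul_le_mul_of_nonneg_left h3 (by positivity)
  have h5 : 0 < β ^ 2 * (GG / 8 * (1 / 2 - β) - KK β * (24 * kap) - 8 * h β) := by positivity
  nlinarith

end Pool.Agent.H99E
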