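import Mathlib

set_option autoImplicit false

/-!
# E8 as a local minimum of the second moment: definitions

Vectors of `E8` are written as `hv k`, half of the integral vector `k`.
-/

namespace Pool.Agent.H99E

open MeasureTheory Matrix

/-- Half of an integral vector. -/
noncomputable def hv (k : Fin 8 → ℤ) : Fin 8 → ℝ := fun i => (k i : ℝ) / 2

/-- `hv k` is in `E8`: the coordinates of `k` are all even or all odd, and their sum is divisible
by `4`. -/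
def InE (k : Fin 8 → ℤ) : Prop := (∀ i, k i % 2 = k 0 % 2) ∧ (∑ i, k i) % 4 = 0

instance : DecidablePred InE := fun _ => inferInstanceAs (Decidable (_ ∧ _))

/-- The 240 roots (doubled). -/
def Rf : Finset (Fin 8 → ℤ) :=
  ((Fintype.piFinset fun _ : Fin 8 => ({-1, 1} : Finset ℤ)).filter fun k => (∑ i, k i) % 4 = 0) ∪
  ((Fintype.piFinset fun _ : Fin 8 => ({-2, 0, 2} : Finset ℤ)).filter fun k => ∑ i, k i ^ 2 = 8)

/-- The Voronoi cell of `E8`. -/
def VV : Set (Fin 8 → ℝ) := {y | ∀ k ∈ Rf, y ⬝ᵥ hv k ≤ 1}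

/-- The root `(1, 1, 0, 0, 0, 0, 0, 0)` (doubled). -/
def u0 : Fin 8 → ℤ := ![2, 2, 0, 0, 0, 0, 0, 0]

/-- The point with `y ⬝ᵥ hv u0 = p` and the coordinates `z` in the orthogonal space of `hv u0`
(a linear map of determinant `± 1`). -/
noncomputable def yy (p : ℝ) (z : Fin 7 → ℝ) : Fin 8 → ℝ :=
  ![p / 2 + z 0, p / 2 - z 0, z 1, z 2, z 3, z 4, z 5, z 6]

/-- The facet of the root `u0`. -/
def Z0 : Set (Fin 7 → ℝ) := {z | yy 1 z ∈ VV}

/-- The squared length of `yy 0 z`. -/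
def NN (z : Fin 7 → ℝ) : ℝ :=
  2 * z 0 ^ 2 + (z 1 ^ 2 + z 2 ^ 2 + z 3 ^ 2 + z 4 ^ 2 + z 5 ^ 2 + z 6 ^ 2)

/-- The second moment of the facet in every direction. -/
noncomputable def kap : ℝ := (∫ z in Z0, NN z) / 7

/-- The second moment of `E8`. -/
noncomputable def GG : ℝ := ∫ y in VV, y ⬝ᵥ y

/-- The squared Frobenius norm. -/
def fro (B : Matrix (Fin 8) (Fin 8) ℝ) : ℝ := ∑ i, ∑ j, B i j ^ 2

/-- `S[y] - S[y - w]` for `S = 1 + B`, `B` symmetric. -/
def DD (B : Matrix (Fin 8) (Fin 8) ℝ) (w y : Fin 8 → ℝ) : ℝ :=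
  2 * (y ⬝ᵥ w) - w ⬝ᵥ w + 2 * (y ⬝ᵥ B *ᵥ w) - w ⬝ᵥ B *ᵥ w

/-- The lattice `E8`. -/
def E8 : Submodule ℤ (EuclideanSpace ℝ (Fin 8)) where
  carrier := {y | ∃ k : Fin 8 → ℤ, InE k ∧ ∀ i, y i = hv k i}
  add_mem' := by
    rintro a b ⟨k, hk, ha⟩ ⟨l, hl, hb⟩
    refine ⟨k + l, ⟨fun i => ?_, ?_⟩, fun i => by simp [ha, hb, hv, add_div]⟩
    · have h1 := hk.1 i
      have h2 := hl.1 i
      simp only [Pi.add_apply]
      omega
    · have h1 := hk.2
      have h2 := hl.2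
      simp only [Pi.add_apply, Finset.sum_add_distrib]
      omega
  zero_mem' := ⟨0, by decide, fun i => by simp [hv]⟩
  smul_mem' := by
    rintro c a ⟨k, hk, ha⟩
    refine ⟨c • k, ⟨fun i => ?_, ?_⟩, fun i => by simp [ha, hv, mul_div_assoc]⟩
    · simp only [Pi.smul_apply, smul_eq_mul]
      rw [Int.mul_emod, hk.1 i, ← Int.mul_emod]
    · simp only [Pi.smul_apply, smul_eq_mul, ← Finset.mul_sum]
      rw [Int.mul_emod, hk.2]
      simp

end Pool.Agent.H99E
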