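import Pool.Agent.H99E.Defs

set_option autoImplicit false

namespace Pool.Agent.H99E

open MeasureTheory Matrix

/-- A basis of `E8` (doubled). -/
private def cc : Fin 8 → Fin 8 → ℤ :=
  ![![4, 0, 0, 0, 0, 0, 0, 0],
    ![-2, 2, 0, 0, 0, 0, 0, 0],
    ![0, -2, 2, 0, 0, 0, 0, 0],
    ![0, 0, -2, 2, 0, 0, 0, 0],
    ![0, 0, 0, -2, 2, 0, 0, 0],
    ![0, 0, 0, 0, -2, 2, 0, 0],
    ![0, 0, 0, 0, 0, -2, 2, 0],
    ![1, 1, 1, 1, 1, 1, 1, 1]]

private noncomputable def MM : Matrix (Fin 8) (Fin 8) ℝ := Matrix.of fun i => hv (cc i)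

private noncomputable def bb (i : Fin 8) : EuclideanSpace ℝ (Fin 8) := WithLp.toLp 2 (hv (cc i))

private theorem cc_zero : ∀ i j : Fin 8, i < j → cc i j = 0 := by decide

private theorem cc_mem : ∀ i : Fin 8, InE (cc i) := by decide

private theorem det_MM : MM.det = 1 := by
  have h : MM.BlockTriangular OrderDual.toDual := by
    intro i j hij
    have hij' : i < j := hij
    simp [MM, hv, cc_zero i j hij']
  rw [Matrix.det_of_isLowerTriangular MM h]
  simp [MM, hv, cc, Fin.prod_univ_eight]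
  norm_num

private theorem lin_bb : LinearIndependent ℝ bb := by
  have h1 : LinearIndependent ℝ MM.row :=
    Matrix.linearIndependent_rows_of_det_ne_zero (A := MM) (by rw [det_MM]; exact one_ne_zero)
  have h2 := h1.map' (WithLp.linearEquiv 2 ℝ (Fin 8 → ℝ)).symm.toLinearMap
    (LinearEquiv.ker _)
  exact h2

theorem E8_lattice : ∃ b : Fin 8 → EuclideanSpace ℝ (Fin 8), LinearIndependent ℝ b ∧
    E8 = Submodule.span ℤ (Set.range b) ∧
    (Matrix.of fun i j => inner ℝ (b i) (b j)).det = 1 := by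
  refine ⟨bb, lin_bb, ?_, ?_⟩
  · apply le_antisymm
    · rintro y ⟨k, hk, hy⟩
      rw [Submodule.mem_span_range_iff_exists_fun]
      obtain ⟨h1, h2⟩ := hk
      have hd : ∀ i, ∃ d : ℤ, k i = k 7 + 2 * d := fun i => ⟨(k i - k 7) / 2, by
        have := h1 i
        have := h1 7
        omega⟩
      choose d hd using hd
      have hs : ∃ s : ℤ, d 0 + d 1 + d 2 + d 3 + d 4 + d 5 + d 6 = 2 * s := by
        refine ⟨(d 0 + d 1 + d 2 + d 3 + d 4 + d 5 + d 6) / 2, ?_⟩
        rw [Fin.sum_univ_eight] at h2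
        have e0 := hd 0
        have e1 := hd 1
        have e2 := hd 2
        have e3 := hd 3
        have e4 := hd 4
        have e5 := hd 5
        have e6 := hd 6
        omega
      obtain ⟨s, hs⟩ := hs
      have hs' : (d 0 + d 1 + d 2 + d 3 + d 4 + d 5 + d 6 : ℝ) = 2 * s := by exact_mod_cast hs
      have hd' : ∀ i, (k i : ℝ) = k 7 + 2 * d i := fun i => by exact_mod_cast hd i
      refine ⟨![s, d 1 + d 2 + d 3 + d 4 + d 5 + d 6, d 2 + d 3 + d 4 + d 5 + d 6,
        d 3 + d 4 + d 5 + d 6, d 4 + d 5 + d 6, d 5 + d 6, d 6, k 7], ?_⟩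
      ext j
      rw [hy j]
      have e0 := hd' 0
      have e1 := hd' 1
      have e2 := hd' 2
      have e3 := hd' 3
      have e4 := hd' 4
      have e5 := hd' 5
      have e6 := hd' 6
      fin_cases j <;>
        simp [Fin.sum_univ_eight, bb, hv, cc] <;> linarith
    · rw [Submodule.span_le]
      rintro _ ⟨i, rfl⟩
      exact ⟨cc i, cc_mem i, fun j => rfl⟩
  · have h : (Matrix.of fun i j => inner ℝ (bb i) (bb j)) = MM * MMᵀ := by
      ext i j
      simp [MM, bb, Matrix.mul_apply, PiLp.inner_apply, mul_comm]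
    rw [h, Matrix.det_mul, Matrix.det_transpose, det_MM]
    norm_num

end Pool.Agent.H99E
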