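import Pool.Agent.H99E.Trf
import Pool.Agent.H99E.Lat

set_option autoImplicit false

/-!
# `E8` is a strict local minimum of the second moment
-/

namespace Pool.Agent.H99E

open MeasureTheory Matrix Pool.Agent.D4Q

/-- The matrix with the columns `b j`. -/
def cm (b : Fin 8 → EuclideanSpace ℝ (Fin 8)) : Matrix (Fin 8) (Fin 8) ℝ :=
  Matrix.of fun i j => b j i

theorem cm_gram (b : Fin 8 → EuclideanSpace ℝ (Fin 8)) (i j : Fin 8) :
    ((cm b)ᵀ * cm b) i j = inner ℝ (b i) (b j) := by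
  rw [inner_eq, Matrix.mul_apply]
  rfl

theorem cm_det {b : Fin 8 → EuclideanSpace ℝ (Fin 8)} (hb : LinearIndependent ℝ b)
    {L : Submodule ℤ (EuclideanSpace ℝ (Fin 8))} [DiscreteTopology L] [IsZLattice ℝ L]
    (hL : L = Submodule.span ℤ (Set.range b)) (hc : ZLattice.covolume L = 1) :
    (cm b).det ^ 2 = 1 := by
  have hform : HasForm L ((cm b)ᵀ * cm b) := ⟨b, hb, hL, fun i j => cm_gram b i j⟩
  have h := covolume_sq hform
  rw [hc, det_mul, det_transpose] at h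
  nlinarith

theorem secondMoment_E8 :
    ∫ x in {x : EuclideanSpace ℝ (Fin 8) | ∀ v ∈ E8, ‖x‖ ≤ ‖x - v‖}, ‖x‖ ^ 2 = GG := by
  have hmp := PiLp.volume_preserving_ofLp (Fin 8)
  have hpre : {x : EuclideanSpace ℝ (Fin 8) | ∀ v ∈ E8, ‖x‖ ≤ ‖x - v‖} =
      (fun x : EuclideanSpace ℝ (Fin 8) => x.ofLp) ⁻¹' VV := by
    ext x
    exact vor_E8 x
  rw [hpre]
  simp only [norm_sq_eq]
  exact hmp.setIntegral_preimage_emb
    (MeasurableEquiv.toLp 2 (Fin 8 → ℝ)).symm.measurableEmbedding (fun y => y ⬝ᵥ y) _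

theorem fro_cont : Continuous fro := by
  unfold fro
  refine continuous_finsetSum _ fun i _ => continuous_finsetSum _ fun j _ => ?_
  exact (continuous_id.matrix_elem i j).pow 2

theorem cm_cont : Continuous cm := by
  refine continuous_matrix fun i j => ?_
  show Continuous fun b : Fin 8 → EuclideanSpace ℝ (Fin 8) => (b j) i
  fun_prop

theorem cont_fro (P : Matrix (Fin 8) (Fin 8) ℝ) :
    Continuous fun b' : Fin 8 → EuclideanSpace ℝ (Fin 8) =>
      fro ((cm b' * P)ᵀ * (cm b' * P) - 1) := by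
  have h : Continuous fun b' : Fin 8 → EuclideanSpace ℝ (Fin 8) => cm b' * P :=
    cm_cont.matrix_mul continuous_const
  exact fro_cont.comp ((h.matrix_transpose.matrix_mul h).sub continuous_const)

theorem final [DiscreteTopology E8] [IsZLattice ℝ E8] (hcE : ZLattice.covolume E8 = 1)
    {b : Fin 8 → EuclideanSpace ℝ (Fin 8)} (hb : LinearIndependent ℝ b)
    (hE : E8 = Submodule.span ℤ (Set.range b)) :
    ∃ η : ℝ, 0 < η ∧ ∀ (L' : Submodule ℤ (EuclideanSpace ℝ (Fin 8))) [DiscreteTopology L']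
      [IsZLattice ℝ L'] (b' : Fin 8 → EuclideanSpace ℝ (Fin 8)), ZLattice.covolume L' = 1 →
      LinearIndependent ℝ b' → L' = Submodule.span ℤ (Set.range b') →
      (∀ i, ‖b' i - b i‖ < η) →
      (∀ i j, inner ℝ (b' i) (b' j) = inner ℝ (b i) (b j)) ∨
        ∫ x in {x : EuclideanSpace ℝ (Fin 8) | ∀ v ∈ E8, ‖x‖ ≤ ‖x - v‖}, ‖x‖ ^ 2 <
        ∫ x in {x : EuclideanSpace ℝ (Fin 8) | ∀ v ∈ L', ‖x‖ ≤ ‖x - v‖}, ‖x‖ ^ 2 := by
  obtain ⟨ε, hε, hcore⟩ := core
  have hP : (cm b).det ^ 2 = 1 := cm_det hb hE hcE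
  have hu : IsUnit (cm b).det := by
    rw [isUnit_iff_ne_zero]
    intro h
    rw [h] at hP
    norm_num at hP
  have hinv : cm b * (cm b)⁻¹ = 1 := Matrix.mul_nonsing_inv _ hu
  have hinv' : (cm b)⁻¹ * cm b = 1 := Matrix.nonsing_inv_mul _ hu
  have hcont := (cont_fro (cm b)⁻¹).continuousAt (x := b)
  have h0 : fro ((cm b * (cm b)⁻¹)ᵀ * (cm b * (cm b)⁻¹) - 1) = 0 := by
    rw [hinv]
    simp [fro]
  rw [ContinuousAt, h0] at hcont
  have hev := hcont.eventually (gt_mem_nhds (show (0 : ℝ) < ε ^ 2 by positivity))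
  obtain ⟨η, hη, hball⟩ := Metric.eventually_nhds_iff.mp hev
  refine ⟨η, hη, ?_⟩
  intro L' _ _ b' hc hb' hL' hnear
  have hfro : fro ((cm b' * (cm b)⁻¹)ᵀ * (cm b' * (cm b)⁻¹) - 1) < ε ^ 2 := by
    refine hball ?_
    rw [dist_pi_lt_iff hη]
    intro i
    rw [dist_eq_norm]
    exact hnear i
  set A := cm b' * (cm b)⁻¹ with hA
  set B := Aᵀ * A - 1 with hB
  have hAb : A * cm b = cm b' := by rw [hA, Matrix.mul_assoc, hinv', Matrix.mul_one]
  by_cases hB0 : B = 0
  · left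
    have hAA : Aᵀ * A = 1 := sub_eq_zero.mp hB0
    intro i j
    rw [← cm_gram, ← cm_gram, ← hAb]
    have : (A * cm b)ᵀ * (A * cm b) = (cm b)ᵀ * (Aᵀ * A) * cm b := by
      simp only [transpose_mul, Matrix.mul_assoc]
    rw [this, hAA, Matrix.mul_one]
  · right
    have hAv : ∀ i, A *ᵥ (b i).ofLp = (b' i).ofLp := by
      intro i
      have h1 : (b i).ofLp = (cm b).col i := rfl
      have h2 : (b' i).ofLp = (cm b').col i := rfl
      rw [h1, h2, ← hAb]
      ext j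
      simp [mulVec, dotProduct, Matrix.mul_apply]
    rw [transfer' hb hb' hE hAv hL' hc hcE, secondMoment_E8]
    have e : Aᵀ * A = 1 + B := by rw [hB]; abel
    rw [e]
    refine hcore B ?_ hfro ?_ hB0
    · rw [hB]
      simp [transpose_mul]
    · rw [← e, det_mul, det_transpose]
      have hP' : (cm b').det ^ 2 = 1 := cm_det hb' hL' hc
      have hm : (cm b').det = A.det * (cm b).det := by rw [← hAb, det_mul]
      rw [hm, mul_pow, hP, mul_one] at hP'
      nlinarith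

end Pool.Agent.H99E
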