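import Pool.Agent.H99E.Alg
import Pool.Agent.H99E.Ball

set_option autoImplicit false

/-!
# The pointwise lower bound
-/

namespace Pool.Agent.H99E

open MeasureTheory Matrix Filter Topology

theorem dot_cs (x y : Fin 8 → ℝ) : (x ⬝ᵥ y) ^ 2 ≤ (x ⬝ᵥ x) * (y ⬝ᵥ y) := by
  have h := Finset.sum_mul_sq_le_sq_mul_sq Finset.univ x y
  simpa [dotProduct, sq] using h

theorem dot_nonneg (x : Fin 8 → ℝ) : 0 ≤ x ⬝ᵥ x :=
  Finset.sum_nonneg fun _ _ => mul_self_nonneg _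

theorem mulVec_le (B : Matrix (Fin 8) (Fin 8) ℝ) (v : Fin 8 → ℝ) :
    (B *ᵥ v) ⬝ᵥ (B *ᵥ v) ≤ fro B * (v ⬝ᵥ v) := by
  unfold fro
  rw [Finset.sum_mul]
  refine Finset.sum_le_sum fun i _ => ?_
  have h := dot_cs (B i) v
  have e : B i ⬝ᵥ B i = ∑ j, B i j ^ 2 := by simp [dotProduct, sq]
  rw [e] at h
  simpa [mulVec, sq] using h

theorem bil_le {B : Matrix (Fin 8) (Fin 8) ℝ} {β : ℝ} (hf : fro B ≤ β ^ 2) (y v : Fin 8 → ℝ) :
    (y ⬝ᵥ B *ᵥ v) ^ 2 ≤ (y ⬝ᵥ y) * (β ^ 2 * (v ⬝ᵥ v)) := by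
  refine (dot_cs _ _).trans ?_
  refine mul_le_mul_of_nonneg_left ?_ (dot_nonneg y)
  exact (mulVec_le B v).trans (mul_le_mul_of_nonneg_right hf (dot_nonneg v))

theorem quad_sub {B : Matrix (Fin 8) (Fin 8) ℝ} (hB : Bᵀ = B) (y w : Fin 8 → ℝ) :
    (y - w) ⬝ᵥ (1 + B) *ᵥ (y - w) = y ⬝ᵥ (1 + B) *ᵥ y - DD B w y := by
  have hs : w ⬝ᵥ B *ᵥ y = y ⬝ᵥ B *ᵥ w := by
    rw [dotProduct_mulVec, ← mulVec_transpose, hB, dotProduct_comm]
  have hc : w ⬝ᵥ y = y ⬝ᵥ w := dotProduct_comm _ _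
  simp only [DD, add_mulVec, one_mulVec, mulVec_sub, dotProduct_sub, sub_dotProduct, dotProduct_add]
  rw [hs, hc]
  ring

theorem pointwise' {B : Matrix (Fin 8) (Fin 8) ℝ} {β : ℝ} (hB : Bᵀ = B) (hβ : 0 ≤ β)
    (hβ' : β ≤ 1 / 20) (hf : fro B ≤ β ^ 2) {y : Fin 8 → ℝ} (hy : y ∈ VV) {k : Fin 8 → ℤ}
    (hk : InE k) :
    y ⬝ᵥ (1 + B) *ᵥ y - ∑ w ∈ Rf, max 0 (DD B (hv w) y) -
        Set.indicator {y : Fin 8 → ℝ | (1 - 2 * β) ^ 2 ≤ y ⬝ᵥ y} (fun _ => 8 * β) y ≤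
      (y - hv k) ⬝ᵥ (1 + B) *ᵥ (y - hv k) := by
  rw [quad_sub hB]
  have hsum : 0 ≤ ∑ w ∈ Rf, max 0 (DD B (hv w) y) := Finset.sum_nonneg fun w _ => le_max_left _ _
  have hind : 0 ≤ Set.indicator {y : Fin 8 → ℝ | (1 - 2 * β) ^ 2 ≤ y ⬝ᵥ y}
      (fun _ => 8 * β) y := Set.indicator_nonneg (fun _ _ => by linarith) _
  suffices h : DD B (hv k) y ≤ ∑ w ∈ Rf, max 0 (DD B (hv w) y) +
      Set.indicator {y : Fin 8 → ℝ | (1 - 2 * β) ^ 2 ≤ y ⬝ᵥ y} (fun _ => 8 * β) y by linarith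
  obtain ⟨m, hm⟩ := hv_even hk
  set r : ℝ := Real.sqrt (hv k ⬝ᵥ hv k) with hr
  set t : ℝ := Real.sqrt (y ⬝ᵥ y) with ht
  have hr0 : 0 ≤ r := Real.sqrt_nonneg _
  have ht0 : 0 ≤ t := Real.sqrt_nonneg _
  have hr2 : r ^ 2 = hv k ⬝ᵥ hv k := Real.sq_sqrt (dot_nonneg _)
  have ht2 : t ^ 2 = y ⬝ᵥ y := Real.sq_sqrt (dot_nonneg _)
  have ht1 : t ≤ 1 := by
    have := VV_ball hy
    nlinarith
  have e1 : y ⬝ᵥ hv k ≤ t * r := by
    refine (abs_le.mp (abs_le_of_sq_le_sq ?_ (mul_nonneg ht0 hr0))).2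
    rw [mul_pow, ht2, hr2]
    exact dot_cs _ _
  have e2 : y ⬝ᵥ B *ᵥ hv k ≤ β * (t * r) := by
    refine (abs_le.mp (abs_le_of_sq_le_sq ?_ (mul_nonneg hβ (mul_nonneg ht0 hr0)))).2
    refine (bil_le hf _ _).trans (le_of_eq ?_)
    rw [← ht2, ← hr2]; ring
  have e3 : -(β * r ^ 2) ≤ hv k ⬝ᵥ B *ᵥ hv k := by
    refine (abs_le.mp (abs_le_of_sq_le_sq ?_ (mul_nonneg hβ (sq_nonneg r)))).1
    refine (bil_le hf _ _).trans (le_of_eq ?_)
    rw [← hr2]; ring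
  have hDD : DD B (hv k) y ≤ 2 * (t * r) - r ^ 2 + 2 * (β * (t * r)) + β * r ^ 2 := by
    unfold DD
    rw [hr2] at *
    linarith
  rcases Nat.lt_or_ge m 3 with h3 | h3
  · interval_cases m
    · -- l = 0
      have h0 : r = 0 := by
        have : r ^ 2 = 0 := by rw [hr2, hm]; simp
        exact pow_eq_zero_iff (two_ne_zero) |>.mp this
      rw [h0] at hDD
      have : DD B (hv k) y ≤ 0 := by simpa using hDD
      linarith
    · have hmem : k ∈ Rf := mem_Rf.mpr ⟨hk, by rw [hm]; norm_num⟩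
      have h1 := Finset.single_le_sum (f := fun w => max 0 (DD B (hv w) y))
        (fun w _ => le_max_left _ _) hmem
      have h2 : DD B (hv k) y ≤ max 0 (DD B (hv k) y) := le_max_right _ _
      have h1' : max 0 (DD B (hv k) y) ≤ ∑ w ∈ Rf, max 0 (DD B (hv w) y) := h1
      linarith
    · have hr4 : r ^ 2 = 4 := by rw [hr2, hm]; norm_num
      have hr' : r = 2 := by nlinarith
      rw [hr'] at hDD
      by_cases hc : (1 - 2 * β) ^ 2 ≤ y ⬝ᵥ y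
      · have hi : Set.indicator {y : Fin 8 → ℝ | (1 - 2 * β) ^ 2 ≤ y ⬝ᵥ y}
            (fun _ => 8 * β) y = 8 * β := Set.indicator_of_mem (by exact hc) _
        rw [hi]
        nlinarith
      · have : t < 1 - 2 * β := by
          push Not at hc
          rw [← ht2] at hc
          exact lt_of_pow_lt_pow_left₀ 2 (by linarith) hc
        nlinarith
  · have hr6 : 6 ≤ r ^ 2 := by
      rw [hr2, hm]
      have : (3 : ℝ) ≤ m := by exact_mod_cast h3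
      linarith
    have hr' : 2.4 ≤ r := by nlinarith
    have h1 : t * r ≤ r := by nlinarith
    have h2 : β * (t * r) ≤ β * r := mul_le_mul_of_nonneg_left h1 hβ
    have : DD B (hv k) y ≤ 0 := by
      have h4 : 2 * r - r ^ 2 + 2 * (β * r) + β * r ^ 2 = r * (2 + 2 * β - (1 - β) * r) := by ring
      have h5 : 2 + 2 * β - (1 - β) * r ≤ 0 := by nlinarith
      nlinarith
    linarith

end Pool.Agent.H99E
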