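import Pool.Agent.H99E.Fin

set_option autoImplicit false

/-!
# `E8` has determinant one and is its own polar
-/

namespace Pool.Agent.H99E

open MeasureTheory Matrix Pool.Agent.D4Q

theorem E8_InL1 : ∃ (_ : DiscreteTopology E8) (_ : IsZLattice ℝ E8), ZLattice.covolume E8 = 1 := by
  obtain ⟨b, hb, hE, hd⟩ := E8_lattice
  have hform : HasForm E8 (Matrix.of fun i j => inner ℝ (b i) (b j)) := ⟨b, hb, hE, fun i j => rfl⟩
  obtain ⟨h1, h2⟩ := hasForm_lattice hform
  refine ⟨h1, h2, ?_⟩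
  have h := covolume_sq hform
  rw [hd] at h
  have hp := ZLattice.covolume_pos E8 (volume : Measure (EuclideanSpace ℝ (Fin 8)))
  nlinarith

/-- The vector `2 e_i` or so: an integral vector with the coordinate `a` at `i` and `c` at `j`. -/
private def pr (i j : Fin 8) (c : ℤ) : Fin 8 → ℤ := fun m => (if m = i then 2 else 0) +
  (if m = j then c else 0)

private theorem pr_mem : ∀ i j : Fin 8, InE (pr i j 2) ∧ InE (pr i j (-2)) := by decide

private theorem one_mem : InE fun _ => 1 := by decide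

theorem E8_polar : ∀ y : EuclideanSpace ℝ (Fin 8), y ∈ E8 ↔ ∀ v ∈ E8, ∃ k : ℤ,
    inner ℝ y v = (k : ℝ) := by
  intro y
  constructor
  · intro hy v hv'
    obtain ⟨k, hk, hyk⟩ := mem_E8.mp hy
    obtain ⟨l, hl, hvl⟩ := mem_E8.mp hv'
    rw [inner_eq, hyk, hvl]
    exact hv_int hk hl
  · intro h
    -- the inner products with `e_i + e_j`, `e_i - e_j`
    have hp : ∀ i j : Fin 8, ∃ k : ℤ, y i + y j = (k : ℝ) := fun i j => by
      obtain ⟨k, hk⟩ := h (WithLp.toLp 2 (hv (pr i j 2))) (mem_E8.mpr ⟨_, (pr_mem i j).1, rfl⟩)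
      refine ⟨k, ?_⟩
      rw [← hk, inner_eq]
      simp only [dotProduct, hv, pr, Int.cast_add, Int.cast_ite, Int.cast_ofNat, Int.cast_zero,
        add_div, mul_add, Finset.sum_add_distrib, ite_div, zero_div, mul_ite, mul_zero,
        Finset.sum_ite_eq', Finset.mem_univ, if_true]
      ring
    have hm : ∀ i j : Fin 8, ∃ k : ℤ, y i - y j = (k : ℝ) := fun i j => by
      obtain ⟨k, hk⟩ := h (WithLp.toLp 2 (hv (pr i j (-2)))) (mem_E8.mpr ⟨_, (pr_mem i j).2, rfl⟩)
      refine ⟨k, ?_⟩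
      rw [← hk, inner_eq]
      simp only [dotProduct, hv, pr, Int.cast_add, Int.cast_ite, Int.cast_ofNat, Int.cast_zero,
        Int.cast_neg, add_div, mul_add, Finset.sum_add_distrib, ite_div, zero_div, mul_ite,
        mul_zero, Finset.sum_ite_eq', Finset.mem_univ, if_true]
      ring
    have hs : ∃ k : ℤ, (∑ i, y i) / 2 = (k : ℝ) := by
      obtain ⟨k, hk⟩ := h (WithLp.toLp 2 (hv fun _ => 1)) (mem_E8.mpr ⟨_, one_mem, rfl⟩)
      refine ⟨k, ?_⟩
      rw [← hk, inner_eq]
      simp only [dotProduct, hv, Int.cast_one, ← Finset.sum_mul]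
      ring
    choose k hk using fun i => hp i i
    have hy : ∀ i, y i = (k i : ℝ) / 2 := fun i => by rw [← hk i]; ring
    refine mem_E8.mpr ⟨k, ⟨fun i => ?_, ?_⟩, funext fun i => hy i⟩
    · obtain ⟨a, ha⟩ := hm i 0
      rw [hy, hy] at ha
      have h1 : (k i : ℝ) - k 0 = 2 * a := by linarith
      have h2 : k i - k 0 = 2 * a := by exact_mod_cast h1
      omega
    · obtain ⟨a, ha⟩ := hs
      simp only [hy, ← Finset.sum_div] at ha
      have h1 : (∑ i, (k i : ℝ)) = 4 * a := by linarith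
      have h2 : ∑ i, k i = 4 * a := by exact_mod_cast h1
      omega

end Pool.Agent.H99E
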