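import Pool.Agent.H99E.Cor2
import Pool.Agent.D4Q.LatC

set_option autoImplicit false

/-!
# The second moment of a lattice near `E8`
-/

namespace Pool.Agent.H99E

open MeasureTheory Matrix Pool.Agent.D4Q

/-- The integral of a periodic function over the Voronoi cell. -/
theorem vor_gen {n : ℕ} {L : Submodule ℤ (EuclideanSpace ℝ (Fin n))} [DiscreteTopology L]
    [IsZLattice ℝ L] {b : Fin n → EuclideanSpace ℝ (Fin n)} (hb : LinearIndependent ℝ b)
    (hL : L = Submodule.span ℤ (Set.range b)) (f : EuclideanSpace ℝ (Fin n) → ℝ)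
    (hf : ∀ x, ∀ v ∈ L, f (x + v) = f x) :
    ∫ x in Vor L, f x = ZLattice.covolume L * ∫ t in cube n, f (∑ i, t i • b i) := by
  have hsp : (⊤ : Submodule ℝ (EuclideanSpace ℝ (Fin n))) ≤ Submodule.span ℝ (Set.range b) :=
    (hb.span_eq_top_of_card_eq_finrank' (by simp)).ge
  set B : Module.Basis (Fin n) ℝ (EuclideanSpace ℝ (Fin n)) := Module.Basis.mk hb hsp with hB
  have hBb : ⇑B = b := Module.Basis.coe_mk hb hsp
  have hLB : L = Submodule.span ℤ (Set.range B) := by rw [hBb]; exact hL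
  have : MeasurableVAdd L (EuclideanSpace ℝ (Fin n)) :=
    (inferInstance : MeasurableVAdd L.toAddSubgroup (EuclideanSpace ℝ (Fin n)))
  have : VAddInvariantMeasure L (EuclideanSpace ℝ (Fin n)) volume :=
    (inferInstance : VAddInvariantMeasure L.toAddSubgroup (EuclideanSpace ℝ (Fin n)) volume)
  have hF : IsAddFundamentalDomain L (ZSpan.fundamentalDomain B)
      (volume : Measure (EuclideanSpace ℝ (Fin n))) := by
    subst hLB
    exact ZSpan.isAddFundamentalDomain B volume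
  have h2 : ∫ x in Vor L, f x = ∫ x in ZSpan.fundamentalDomain B, f x := by
    refine (isFund_Vor L).setIntegral_eq hF fun g x => ?_
    have : g +ᵥ x = x + (g : EuclideanSpace ℝ (Fin n)) := by
      rw [add_comm]; rfl
    rw [this]
    exact hf x g g.2
  set φ : (Fin n → ℝ) ≃L[ℝ] EuclideanSpace ℝ (Fin n) := B.equivFunL.symm with hφ
  have hφa : ∀ t : Fin n → ℝ, φ t = ∑ i, t i • b i := by
    intro t
    have := B.equivFun_symm_apply t
    rw [hBb] at this
    exact this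
  have hpre : φ ⁻¹' (ZSpan.fundamentalDomain B) = cube n := by
    ext t
    rw [Set.mem_preimage, ZSpan.mem_fundamentalDomain]
    unfold cube
    simp only [Set.mem_pi, Set.mem_univ, true_implies]
    have : ∀ i, B.repr (φ t) i = t i := fun i => by
      have := B.equivFun.apply_symm_apply t
      exact congrFun this i
    simp only [this]
  have hemb : MeasurableEmbedding φ := φ.toHomeomorph.measurableEmbedding
  set ν : Measure (EuclideanSpace ℝ (Fin n)) := Measure.map φ volume with hν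
  have : ν.IsAddHaarMeasure := φ.isAddHaarMeasure_map volume
  obtain ⟨c, hc⟩ : ∃ c : ENNReal, (volume : Measure (EuclideanSpace ℝ (Fin n))) = c • ν :=
    ⟨_, Measure.isAddLeftInvariant_eq_smul (volume : Measure (EuclideanSpace ℝ (Fin n))) ν⟩
  have hcube : volume (cube n) = 1 := by
    unfold cube
    rw [volume_pi_pi]
    simp
  have hνF : ν (ZSpan.fundamentalDomain B) = 1 := by
    rw [hν, hemb.map_apply, hpre, hcube]
  have hcov : ZLattice.covolume L = c.toReal := by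
    rw [ZLattice.covolume_eq_measure_fundamentalDomain L volume hF, Measure.real, hc,
      Measure.smul_apply, hνF, smul_eq_mul, mul_one]
  have h3 : ∫ x in ZSpan.fundamentalDomain B, f x =
      c.toReal * ∫ x in ZSpan.fundamentalDomain B, f x ∂ν := by
    rw [hc, Measure.restrict_smul, integral_smul_measure, smul_eq_mul]
  have h4 : ∫ x in ZSpan.fundamentalDomain B, f x ∂ν = ∫ t in cube n, f (∑ i, t i • b i) := by
    rw [hν, hemb.setIntegral_map, hpre]
    congr 1
    funext t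
    rw [hφa]
  rw [h2, h3, h4, hcov]

theorem inner_eq (x y : EuclideanSpace ℝ (Fin 8)) : inner ℝ x y = x.ofLp ⬝ᵥ y.ofLp := by
  rw [EuclideanSpace.inner_eq_star_dotProduct, star_trivial, dotProduct_comm]

theorem norm_sq_eq (x : EuclideanSpace ℝ (Fin 8)) : ‖x‖ ^ 2 = x.ofLp ⬝ᵥ x.ofLp := by
  rw [← real_inner_self_eq_norm_sq, inner_eq]

theorem mem_E8 {v : EuclideanSpace ℝ (Fin 8)} :
    v ∈ E8 ↔ ∃ k : Fin 8 → ℤ, InE k ∧ v.ofLp = hv k := by
  constructor
  · rintro ⟨k, hk, h⟩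
    exact ⟨k, hk, funext h⟩
  · rintro ⟨k, hk, h⟩
    exact ⟨k, hk, fun i => by rw [← h]⟩

/-- The cell is the Voronoi cell of `E8`. -/
theorem vor_E8 (x : EuclideanSpace ℝ (Fin 8)) : x ∈ Vor E8 ↔ x.ofLp ∈ VV := by
  have key : ∀ v : EuclideanSpace ℝ (Fin 8), ‖x‖ ≤ ‖x - v‖ ↔
      2 * (x.ofLp ⬝ᵥ v.ofLp) ≤ v.ofLp ⬝ᵥ v.ofLp := fun v => by
    rw [← sq_le_sq₀ (norm_nonneg _) (norm_nonneg _), norm_sub_sq_real, norm_sq_eq x, norm_sq_eq v,
      inner_eq]
    constructor <;> intro h <;> linarith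
  constructor
  · intro hx k hk
    obtain ⟨h1, h2⟩ := mem_Rf.mp hk
    have h := (key (WithLp.toLp 2 (hv k))).mp (hx _ (mem_E8.mpr ⟨k, h1, rfl⟩))
    simp only at h
    rw [h2] at h
    linarith
  · intro hx v hv'
    obtain ⟨k, hk, hvk⟩ := mem_E8.mp hv'
    rw [key, hvk]
    obtain ⟨m, hm⟩ := hv_even hk
    have hc := dot_cs x.ofLp (hv k)
    have hb := VV_ball hx
    have hx0 := dot_nonneg x.ofLp
    rcases Nat.lt_or_ge m 2 with h2 | h2
    · interval_cases m
      · rw [hm] at hc ⊢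
        have : x.ofLp ⬝ᵥ hv k = 0 := by
          have h0 : (x.ofLp ⬝ᵥ hv k) ^ 2 ≤ 0 := by simpa using hc
          exact pow_eq_zero_iff (two_ne_zero) |>.mp (le_antisymm h0 (sq_nonneg _))
        rw [this]; simp
      · have := hx k (mem_Rf.mpr ⟨hk, by rw [hm]; norm_num⟩)
        rw [hm]
        push_cast
        linarith
    · have hm2 : (2 : ℝ) ≤ m := by exact_mod_cast h2
      rw [hm] at hc ⊢
      by_contra hcon
      push Not at hcon
      have h4 : (m : ℝ) < x.ofLp ⬝ᵥ hv k := by linarith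
      nlinarith

theorem dS_per (S : Matrix (Fin 8) (Fin 8) ℝ) (x : EuclideanSpace ℝ (Fin 8)) {v}
    (hv' : v ∈ E8) : dS S (x + v).ofLp = dS S x.ofLp := by
  obtain ⟨k, hk, hvk⟩ := mem_E8.mp hv'
  unfold dS
  refine Function.Surjective.iInf_congr
    (fun l : {l : Fin 8 → ℤ // InE l} => (⟨l.1 - k, by
      have := InE_add l.2 (InE_neg hk)
      rwa [← sub_eq_add_neg] at this⟩ : {l : Fin 8 → ℤ // InE l})) ?_ fun l => ?_
  · rintro ⟨l, hl⟩
    exact ⟨⟨l + k, InE_add hl hk⟩, Subtype.ext (by simp)⟩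
  · have : x.ofLp - hv (l.1 - k) = (x + v).ofLp - hv l.1 := by
      rw [WithLp.ofLp_add, hvk]
      ext i
      simp only [hv, Pi.sub_apply, Pi.add_apply, Int.cast_sub]
      ring
    simp only [this]

theorem transfer' {b b' : Fin 8 → EuclideanSpace ℝ (Fin 8)} (hb : LinearIndependent ℝ b)
    (hb' : LinearIndependent ℝ b') (hE : E8 = Submodule.span ℤ (Set.range b))
    {A : Matrix (Fin 8) (Fin 8) ℝ} (hA : ∀ i, A *ᵥ (b i).ofLp = (b' i).ofLp)
    {L' : Submodule ℤ (EuclideanSpace ℝ (Fin 8))} [DiscreteTopology L'] [IsZLattice ℝ L']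
    (hL' : L' = Submodule.span ℤ (Set.range b'))
    (hc : ZLattice.covolume L' = 1) [DiscreteTopology E8] [IsZLattice ℝ E8]
    (hcE : ZLattice.covolume E8 = 1) :
    ∫ x in {x : EuclideanSpace ℝ (Fin 8) | ∀ v ∈ L', ‖x‖ ≤ ‖x - v‖}, ‖x‖ ^ 2 =
      ∫ y in VV, dS (Aᵀ * A) y := by
  set Q' : Matrix (Fin 8) (Fin 8) ℝ := Matrix.of fun i j => inner ℝ (b' i) (b' j) with hQ'
  have hform : HasForm L' Q' := ⟨b', hb', hL', fun i j => rfl⟩
  rw [vor_integral hform, hc, one_mul]
  have h1 := vor_gen hb hE (fun x => dS (Aᵀ * A) x.ofLp) fun x v hv => dS_per _ x hv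
  rw [hcE, one_mul] at h1
  have h2 : ∫ x in Vor E8, dS (Aᵀ * A) x.ofLp = ∫ y in VV, dS (Aᵀ * A) y := by
    have hmp := PiLp.volume_preserving_ofLp (Fin 8)
    have hpre : Vor E8 = (fun x : EuclideanSpace ℝ (Fin 8) => x.ofLp) ⁻¹' VV := by
      ext x
      exact vor_E8 x
    rw [hpre]
    exact hmp.setIntegral_preimage_emb
      (MeasurableEquiv.toLp 2 (Fin 8 → ℝ)).symm.measurableEmbedding _ _
  rw [← h2, h1]
  unfold FF
  congr 1
  funext t
  -- the coordinates
  have hAlin : ∀ c : Fin 8 → ℝ, A *ᵥ (∑ i, c i • b i).ofLp = (∑ i, c i • b' i).ofLp := fun c => by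
    rw [WithLp.ofLp_sum, WithLp.ofLp_sum, mulVec_sum]
    refine Finset.sum_congr rfl fun i _ => ?_
    rw [WithLp.ofLp_smul, WithLp.ofLp_smul, mulVec_smul, hA]
  have hmem : ∀ l : Fin 8 → ℤ, ∃ k : Fin 8 → ℤ, InE k ∧ (∑ i, l i • b i).ofLp = hv k := fun l =>
    mem_E8.mp (by
      rw [hE]
      exact Submodule.sum_mem _ fun i _ =>
        Submodule.smul_mem _ _ (Submodule.subset_span ⟨i, rfl⟩))
  choose K hK1 hK2 using hmem
  unfold dS dsq
  refine Function.Surjective.iInf_congr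
    (fun l : Fin 8 → ℤ => (⟨K l, hK1 l⟩ : {k : Fin 8 → ℤ // InE k})) ?_ fun l => ?_
  · rintro ⟨k, hk⟩
    have hmem : (WithLp.toLp 2 (hv k) : EuclideanSpace ℝ (Fin 8)) ∈ E8 := mem_E8.mpr ⟨k, hk, rfl⟩
    rw [hE, Submodule.mem_span_range_iff_exists_fun] at hmem
    obtain ⟨c, hc'⟩ := hmem
    refine ⟨c, Subtype.ext ?_⟩
    have h3 := hK2 c
    rw [hc'] at h3
    show K c = k
    funext i
    have h4 : hv k i = hv (K c) i := congrFun h3 i
    simp only [hv] at h4
    have h5 : (K c i : ℝ) = k i := by linarith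
    exact_mod_cast h5
  · show (_ - hv (K l)) ⬝ᵥ _ = _
    rw [← hK2 l]
    have h4 : (∑ i, t i • b i).ofLp - (∑ i, l i • b i).ofLp = (∑ i, (t - ic l) i • b i).ofLp := by
      rw [← WithLp.ofLp_sub, ← Finset.sum_sub_distrib]
      congr 1
      refine Finset.sum_congr rfl fun i _ => ?_
      rw [Pi.sub_apply, sub_smul, ic, Int.cast_smul_eq_zsmul]
    rw [h4, ← mulVec_mulVec, dotProduct_mulVec, vecMul_transpose, hAlin, ← norm_sq_eq]
    exact norm_sq_comb (fun i j => rfl) _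

end Pool.Agent.H99E
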